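import Mathlib

set_option autoImplicit false

namespace Pool.Agent.Lib.MP_c8c16f_gt

open Set

/-- the piecewise linear hat function of the triangular lattice -/
noncomputable def hat (x y : ℝ) : ℝ := max 0 (1 - max |x| (max |y| |x + y|))

lemma hat_nonneg (x y : ℝ) : 0 ≤ hat x y := le_max_left _ _

lemma hat_ne_zero_iff {x y : ℝ} : hat x y ≠ 0 ↔ |x| < 1 ∧ |y| < 1 ∧ |x + y| < 1 := by
  unfold hat
  constructor
  · intro h
    have : 0 < 1 - max |x| (max |y| |x + y|) := by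
      by_contra hc
      exact h (max_eq_left (not_lt.1 hc))
    have h2 : max |x| (max |y| |x + y|) < 1 := by linarith
    simpa [max_lt_iff] using h2
  · rintro ⟨h1, h2, h3⟩
    have h2 : max |x| (max |y| |x + y|) < 1 := by simp [h1, h2, h3]
    exact (lt_max_of_lt_right (by linarith)).ne'

lemma hat_symm (x y : ℝ) : hat (-x) (y + x) = hat x y := by
  unfold hat
  rw [abs_neg, show -x + (y + x) = y by ring, add_comm y x, max_comm |x + y| |y|]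

lemma continuous_hat : Continuous (fun p : ℝ × ℝ => hat p.1 p.2) := by
  unfold hat; fun_prop

lemma hat_lower {σ ω : ℝ} (h1 : 0 ≤ σ) (h2 : 0 ≤ ω) (h3 : σ + ω ≤ 1) :
    hat σ ω = 1 - σ - ω ∧ hat (σ - 1) ω = σ ∧ hat σ (ω - 1) = ω ∧ hat (σ - 1) (ω - 1) = 0 := by
  unfold hat
  refine ⟨?_, ?_, ?_, ?_⟩
  · rw [abs_of_nonneg h1, abs_of_nonneg h2, abs_of_nonneg (by linarith : 0 ≤ σ + ω),
      max_eq_right (by linarith : ω ≤ σ + ω), max_eq_right (by linarith : σ ≤ σ + ω),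
      max_eq_right (by linarith)]
    ring
  · rw [abs_of_nonpos (by linarith : σ - 1 ≤ 0), abs_of_nonneg h2,
      abs_of_nonpos (by linarith : σ - 1 + ω ≤ 0),
      max_eq_left (a := -(σ - 1)) (max_le (by linarith) (by linarith)), max_eq_right (by linarith)]
    ring
  · rw [abs_of_nonneg h1, abs_of_nonpos (by linarith : ω - 1 ≤ 0),
      abs_of_nonpos (by linarith : σ + (ω - 1) ≤ 0),
      max_eq_left (a := -(ω - 1)) (by linarith), max_eq_right (a := σ) (by linarith),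
      max_eq_right (by linarith)]
    ring
  · apply max_eq_left
    have : 1 ≤ |σ - 1 + (ω - 1)| := by
      rw [abs_of_nonpos (by linarith)]; linarith
    have h5 : |σ - 1 + (ω - 1)| ≤ max |σ - 1| (max |ω - 1| |σ - 1 + (ω - 1)|) :=
      le_max_of_le_right (le_max_right _ _)
    linarith

lemma hat_upper {σ ω : ℝ} (h1 : σ ≤ 1) (h2 : ω ≤ 1) (h3 : 1 ≤ σ + ω) :
    hat σ ω = 0 ∧ hat (σ - 1) ω = 1 - ω ∧ hat σ (ω - 1) = 1 - σ ∧
      hat (σ - 1) (ω - 1) = σ + ω - 1 := by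
  unfold hat
  refine ⟨?_, ?_, ?_, ?_⟩
  · apply max_eq_left
    have : 1 ≤ |σ + ω| := by
      rw [abs_of_nonneg (by linarith)]; linarith
    have h5 : |σ + ω| ≤ max |σ| (max |ω| |σ + ω|) := le_max_of_le_right (le_max_right _ _)
    linarith
  · rw [abs_of_nonpos (by linarith : σ - 1 ≤ 0), abs_of_nonneg (by linarith : 0 ≤ ω),
      abs_of_nonneg (by linarith : 0 ≤ σ - 1 + ω),
      max_eq_left (a := ω) (by linarith), max_eq_right (a := -(σ - 1)) (by linarith),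
      max_eq_right (by linarith)]
  · rw [abs_of_nonneg (by linarith : 0 ≤ σ), abs_of_nonpos (by linarith : ω - 1 ≤ 0),
      abs_of_nonneg (by linarith : 0 ≤ σ + (ω - 1)),
      max_eq_left (a := σ) (max_le (by linarith) (by linarith)), max_eq_right (by linarith)]
  · rw [abs_of_nonpos (by linarith : σ - 1 ≤ 0), abs_of_nonpos (by linarith : ω - 1 ≤ 0),
      abs_of_nonpos (by linarith : σ - 1 + (ω - 1) ≤ 0),
      max_eq_right (a := -(ω - 1)) (by linarith), max_eq_right (a := -(σ - 1)) (by linarith),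
      max_eq_right (by linarith)]
    ring

variable {E : Type*} [NormedAddCommGroup E] [NormedSpace ℝ E]

/-- piecewise linear interpolation of lattice data -/
noncomputable def interp (Φ : ℤ × ℤ → E) (s t : ℝ) : E :=
  ∑ᶠ u : ℤ × ℤ, hat (s - u.1) (t - u.2) • Φ u

lemma interp_eq_sum (Φ : ℤ × ℤ → E) (s t : ℝ) (T : Finset (ℤ × ℤ))
    (h : ∀ u : ℤ × ℤ, hat (s - u.1) (t - u.2) ≠ 0 → u ∈ T) :
    interp Φ s t = ∑ u ∈ T, hat (s - u.1) (t - u.2) • Φ u := by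
  apply finsum_eq_sum_of_support_subset
  intro u hu
  apply h
  intro h0
  simp [h0] at hu

lemma int_near {s : ℝ} {a b : ℤ} (h1 : (a : ℝ) ≤ s) (h2 : s ≤ a + 1) (h : |s - b| < 1) :
    b = a ∨ b = a + 1 := by
  rw [abs_lt] at h
  have h3 : (a : ℝ) - 1 < b := by linarith
  have h4 : (b : ℝ) < a + 2 := by linarith
  have h5 : a - 1 < b := by exact_mod_cast h3
  have h6 : b < a + 2 := by exact_mod_cast h4
  omega

lemma interp_cell (Φ : ℤ × ℤ → E) {s t : ℝ} {a m : ℤ} (h1 : (a : ℝ) ≤ s) (h2 : s ≤ a + 1)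
    (h3 : (m : ℝ) ≤ t) (h4 : t ≤ m + 1) :
    interp Φ s t = hat (s - a) (t - m) • Φ (a, m) + hat (s - a - 1) (t - m) • Φ (a + 1, m) +
      hat (s - a) (t - m - 1) • Φ (a, m + 1) + hat (s - a - 1) (t - m - 1) • Φ (a + 1, m + 1) := by
  rw [interp_eq_sum Φ s t {(a, m), (a + 1, m), (a, m + 1), (a + 1, m + 1)}]
  · rw [Finset.sum_insert (by simp), Finset.sum_insert (by simp), Finset.sum_insert (by simp),
      Finset.sum_singleton]
    simp only [Int.cast_add, Int.cast_one, ← sub_sub, add_assoc]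
  · rintro ⟨b, n⟩ hu
    rw [hat_ne_zero_iff] at hu
    rcases int_near h1 h2 hu.1 with rfl | rfl <;> rcases int_near h3 h4 hu.2.1 with rfl | rfl <;>
      simp

lemma interp_lower (Φ : ℤ × ℤ → E) (a m : ℤ) {σ ω : ℝ} (h1 : 0 ≤ σ) (h2 : 0 ≤ ω)
    (h3 : σ + ω ≤ 1) :
    interp Φ (a + σ) (m + ω) = (1 - σ - ω) • Φ (a, m) + σ • Φ (a + 1, m) + ω • Φ (a, m + 1) := by
  rw [interp_cell Φ (a := a) (m := m) (by linarith) (by linarith) (by linarith) (by linarith)]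
  obtain ⟨e1, e2, e3, e4⟩ := hat_lower h1 h2 h3
  simp only [add_sub_cancel_left, e1, e2, e3, e4, zero_smul, add_zero]

lemma interp_upper (Φ : ℤ × ℤ → E) (a m : ℤ) {σ ω : ℝ} (h1 : σ ≤ 1) (h2 : ω ≤ 1)
    (h3 : 1 ≤ σ + ω) :
    interp Φ (a + σ) (m + ω) =
      (σ + ω - 1) • Φ (a + 1, m + 1) + (1 - ω) • Φ (a + 1, m) + (1 - σ) • Φ (a, m + 1) := by
  rw [interp_cell Φ (a := a) (m := m) (by linarith) (by linarith) (by linarith) (by linarith)]
  obtain ⟨e1, e2, e3, e4⟩ := hat_upper h1 h2 h3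
  simp only [add_sub_cancel_left, e1, e2, e3, e4, zero_smul, zero_add]
  abel

lemma exists_cell (s : ℝ) : ∃ (a : ℤ) (σ : ℝ), 0 ≤ σ ∧ σ < 1 ∧ s = a + σ :=
  ⟨⌊s⌋, Int.fract s, Int.fract_nonneg s, Int.fract_lt_one s, (Int.floor_add_fract s).symm⟩

lemma continuous_interp (Φ : ℤ × ℤ → E) : Continuous (fun p : ℝ × ℝ => interp Φ p.1 p.2) := by
  unfold interp
  apply continuous_finsum
  · intro u
    exact (continuous_hat.comp (f := fun p : ℝ × ℝ => (p.1 - u.1, p.2 - u.2))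
      (by fun_prop)).smul continuous_const
  · intro p
    refine ⟨Metric.ball p 1, Metric.ball_mem_nhds p one_pos, ?_⟩
    apply Set.Finite.subset (Finset.finite_toSet
      (Finset.Icc (⌊p.1⌋ - 2) (⌊p.1⌋ + 3) ×ˢ Finset.Icc (⌊p.2⌋ - 2) (⌊p.2⌋ + 3)))
    rintro ⟨b, n⟩ ⟨q, hq1, hq2⟩
    have hq : hat (q.1 - b) (q.2 - n) ≠ 0 := by
      intro h0
      simp [h0] at hq1
    rw [hat_ne_zero_iff] at hq
    rw [Metric.mem_ball, Prod.dist_eq, max_lt_iff, Real.dist_eq, Real.dist_eq] at hq2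
    have key : ∀ (x y : ℝ) (b : ℤ), |y - b| < 1 → |y - x| < 1 → ⌊x⌋ - 2 ≤ b ∧ b ≤ ⌊x⌋ + 3 := by
      intro x y b h1 h2
      rw [abs_lt] at h1 h2
      have f1 := Int.floor_le x
      have f2 := Int.lt_floor_add_one x
      constructor
      · have : ((⌊x⌋ - 2 : ℤ) : ℝ) ≤ b := by push_cast; linarith
        exact_mod_cast this
      · have : (b : ℝ) ≤ ((⌊x⌋ + 3 : ℤ) : ℝ) := by push_cast; linarith
        exact_mod_cast this
    simp only [Finset.coe_product, Finset.coe_Icc, mem_prod, mem_Icc]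
    exact ⟨key _ _ _ hq.1 hq2.1, key _ _ _ hq.2.1 hq2.2⟩

/-- invariance under the glide reflection -/
lemma interp_glide (Φ : ℤ × ℤ → E) (N c : ℤ) (hΦ : ∀ a m, Φ (N - a, m + a - c) = Φ (a, m))
    (s t : ℝ) : interp Φ (N - s) (t + s - c) = interp Φ s t := by
  unfold interp
  let e : ℤ × ℤ ≃ ℤ × ℤ :=
    { toFun := fun u => (N - u.1, u.2 + u.1 - c)
      invFun := fun u => (N - u.1, u.2 - (N - u.1) + c)
      left_inv := fun u => by ext <;> simp; ring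
      right_inv := fun u => by ext <;> simp; ring }
  rw [← finsum_comp_equiv e]
  apply finsum_congr
  rintro ⟨a, m⟩
  show hat (N - s - ((N - a : ℤ) : ℝ)) (t + s - c - ((m + a - c : ℤ) : ℝ)) • Φ (N - a, m + a - c) =
    hat (s - a) (t - m) • Φ (a, m)
  rw [hΦ, ← hat_symm (s - a) (t - m)]
  congr 2 <;> push_cast <;> ring

lemma interp_shift (Φ : ℤ × ℤ → E) (j : ℤ) (hΦ : ∀ a m, Φ (a, m + j) = Φ (a, m))
    (s t : ℝ) : interp Φ s (t + j) = interp Φ s t := by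
  unfold interp
  let e : ℤ × ℤ ≃ ℤ × ℤ :=
    { toFun := fun u => (u.1, u.2 + j)
      invFun := fun u => (u.1, u.2 - j)
      left_inv := fun u => by ext <;> simp
      right_inv := fun u => by ext <;> simp }
  rw [← finsum_comp_equiv e]
  apply finsum_congr
  rintro ⟨a, m⟩
  show hat (s - a) (t + j - ((m + j : ℤ) : ℝ)) • Φ (a, m + j) = hat (s - a) (t - m) • Φ (a, m)
  rw [hΦ]
  congr 2; push_cast; ring

lemma map_interp {F : Type*} [NormedAddCommGroup F] [NormedSpace ℝ F] (L : E →ₗ[ℝ] F)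
    (Φ : ℤ × ℤ → E) (s t : ℝ) : L (interp Φ s t) = interp (fun u => L (Φ u)) s t := by
  rw [interp_cell Φ (Int.floor_le s) (Int.lt_floor_add_one s).le (Int.floor_le t)
    (Int.lt_floor_add_one t).le, interp_cell _ (Int.floor_le s) (Int.lt_floor_add_one s).le
    (Int.floor_le t) (Int.lt_floor_add_one t).le]
  simp only [map_add, map_smul]

lemma interp_congr (Φ Ψ : ℤ × ℤ → E) (s t : ℝ)
    (h : ∀ u : ℤ × ℤ, hat (s - u.1) (t - u.2) ≠ 0 → Φ u = Ψ u) : interp Φ s t = interp Ψ s t := by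
  unfold interp
  apply finsum_congr
  intro u
  by_cases h0 : hat (s - u.1) (t - u.2) = 0
  · simp [h0]
  · rw [h u h0]

lemma interp_affine (α β γ : ℝ) (s t : ℝ) :
    interp (fun u : ℤ × ℤ => α + β * u.1 + γ * u.2) s t = α + β * s + γ * t := by
  obtain ⟨a, σ, h1, h2, rfl⟩ := exists_cell s
  obtain ⟨m, ω, h3, h4, rfl⟩ := exists_cell t
  rcases le_total (σ + ω) 1 with h | h
  · rw [interp_lower _ a m h1 h3 h]; simp only [smul_eq_mul]; push_cast; ring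
  · rw [interp_upper _ a m h2.le h4.le h]; simp only [smul_eq_mul]; push_cast; ring

lemma eq_of_hat_eq {s t s' t' : ℝ}
    (h : ∀ u : ℤ × ℤ, hat (s - u.1) (t - u.2) = hat (s' - u.1) (t' - u.2)) : s = s' ∧ t = t' := by
  have key : ∀ Φ : ℤ × ℤ → ℝ, interp Φ s t = interp Φ s' t' := by
    intro Φ
    unfold interp
    simp only [h]
  have h1 := key (fun u => 0 + 1 * u.1 + 0 * u.2)
  have h2 := key (fun u => 0 + 0 * u.1 + 1 * u.2)
  rw [interp_affine, interp_affine] at h1 h2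
  constructor <;> linarith

/-- a nonnegative interpolation vanishes only if the data vanish on the support -/
lemma interp_eq_zero {Φ : ℤ × ℤ → ℝ} {s t : ℝ}
    (h0 : ∀ u : ℤ × ℤ, hat (s - u.1) (t - u.2) ≠ 0 → 0 ≤ Φ u) (h : interp Φ s t = 0) :
    ∀ u : ℤ × ℤ, hat (s - u.1) (t - u.2) ≠ 0 → Φ u = 0 := by
  intro u hu
  let T : Finset (ℤ × ℤ) := {(⌊s⌋, ⌊t⌋), (⌊s⌋ + 1, ⌊t⌋), (⌊s⌋, ⌊t⌋ + 1), (⌊s⌋ + 1, ⌊t⌋ + 1)}
  have hT : ∀ u : ℤ × ℤ, hat (s - u.1) (t - u.2) ≠ 0 → u ∈ T := by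
    rintro ⟨b, n⟩ hu
    rw [hat_ne_zero_iff] at hu
    rcases int_near (Int.floor_le s) (Int.lt_floor_add_one s).le hu.1 with rfl | rfl <;>
      rcases int_near (Int.floor_le t) (Int.lt_floor_add_one t).le hu.2.1 with rfl | rfl <;>
      simp [T]
  rw [interp_eq_sum Φ s t T hT, Finset.sum_eq_zero_iff_of_nonneg] at h
  · have := h u (hT u hu)
    rw [smul_eq_mul] at this
    exact (mul_eq_zero.1 this).resolve_left hu
  · intro v _
    by_cases hv : hat (s - v.1) (t - v.2) = 0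
    · simp [hv]
    · exact mul_nonneg (hat_nonneg _ _) (h0 v hv)

lemma interp_nonneg {Φ : ℤ × ℤ → ℝ} {s t : ℝ}
    (h0 : ∀ u : ℤ × ℤ, hat (s - u.1) (t - u.2) ≠ 0 → 0 ≤ Φ u) : 0 ≤ interp Φ s t := by
  unfold interp
  apply finsum_nonneg
  intro v
  by_cases hv : hat (s - v.1) (t - v.2) = 0
  · simp [hv]
  · exact mul_nonneg (hat_nonneg _ _) (h0 v hv)

lemma exists_support_floor (s t : ℝ) : ∃ m : ℤ, hat (s - (⌊s⌋ : ℤ)) (t - m) ≠ 0 := by
  obtain ⟨m, ω, h3, h4, rfl⟩ := exists_cell t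
  have h1 : 0 ≤ s - ⌊s⌋ := Int.fract_nonneg s
  have h2 : s - ⌊s⌋ < 1 := Int.fract_lt_one s
  by_cases h : s - ⌊s⌋ + ω < 1
  · refine ⟨m, ?_⟩
    rw [hat_ne_zero_iff, add_sub_cancel_left, abs_lt, abs_lt, abs_lt]
    refine ⟨⟨?_, ?_⟩, ⟨?_, ?_⟩, ?_, ?_⟩ <;> linarith
  · refine ⟨m + 1, ?_⟩
    rw [hat_ne_zero_iff, abs_lt, abs_lt, abs_lt]
    push_cast
    refine ⟨⟨?_, ?_⟩, ⟨?_, ?_⟩, ?_, ?_⟩ <;> linarith

/-- the interpolation stays within `ε` of a point that is within `ε` of all supporting data -/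
lemma norm_interp_sub_le (Φ : ℤ × ℤ → E) (s t : ℝ) (x : E) (ε : ℝ)
    (h : ∀ u : ℤ × ℤ, hat (s - u.1) (t - u.2) ≠ 0 → ‖Φ u - x‖ ≤ ε) : ‖interp Φ s t - x‖ ≤ ε := by
  obtain ⟨m0, hm0⟩ := exists_support_floor s t
  have hε : 0 ≤ ε := (norm_nonneg _).trans (h (⌊s⌋, m0) hm0)
  have h1 := Int.floor_le s
  have h2 := (Int.lt_floor_add_one s).le
  have h3 := Int.floor_le t
  have h4 := (Int.lt_floor_add_one t).le
  have hone := interp_affine 1 0 0 s t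
  rw [interp_cell _ h1 h2 h3 h4] at hone ⊢
  simp only [smul_eq_mul, zero_mul, add_zero, mul_one] at hone
  have key : ∀ (c : ℝ) (u : ℤ × ℤ), c = hat (s - u.1) (t - u.2) → ‖c • (Φ u - x)‖ ≤ c * ε := by
    rintro c u rfl
    rw [norm_smul, Real.norm_of_nonneg (hat_nonneg _ _)]
    by_cases h0 : hat (s - u.1) (t - u.2) = 0
    · simp [h0]
    · exact mul_le_mul_of_nonneg_left (h u h0) (hat_nonneg _ _)
  set c1 := hat (s - ⌊s⌋) (t - ⌊t⌋)
  set c2 := hat (s - ⌊s⌋ - 1) (t - ⌊t⌋)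
  set c3 := hat (s - ⌊s⌋) (t - ⌊t⌋ - 1)
  set c4 := hat (s - ⌊s⌋ - 1) (t - ⌊t⌋ - 1)
  have k1 := key c1 (⌊s⌋, ⌊t⌋) rfl
  have k2 := key c2 (⌊s⌋ + 1, ⌊t⌋) (by simp only [c2, Int.cast_add, Int.cast_one, sub_sub])
  have k3 := key c3 (⌊s⌋, ⌊t⌋ + 1) (by simp only [c3, Int.cast_add, Int.cast_one, sub_sub])
  have k4 := key c4 (⌊s⌋ + 1, ⌊t⌋ + 1) (by simp only [c4, Int.cast_add, Int.cast_one, sub_sub])
  have e : c1 • Φ (⌊s⌋, ⌊t⌋) + c2 • Φ (⌊s⌋ + 1, ⌊t⌋) + c3 • Φ (⌊s⌋, ⌊t⌋ + 1) +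
      c4 • Φ (⌊s⌋ + 1, ⌊t⌋ + 1) - x = c1 • (Φ (⌊s⌋, ⌊t⌋) - x) + c2 • (Φ (⌊s⌋ + 1, ⌊t⌋) - x) +
      c3 • (Φ (⌊s⌋, ⌊t⌋ + 1) - x) + c4 • (Φ (⌊s⌋ + 1, ⌊t⌋ + 1) - x) := by
    have : x = (c1 + c2 + c3 + c4) • x := by rw [hone, one_smul]
    conv_lhs => rw [this]
    module
  rw [e]
  have n1 := norm_add_le (c1 • (Φ (⌊s⌋, ⌊t⌋) - x) + c2 • (Φ (⌊s⌋ + 1, ⌊t⌋) - x) +
      c3 • (Φ (⌊s⌋, ⌊t⌋ + 1) - x)) (c4 • (Φ (⌊s⌋ + 1, ⌊t⌋ + 1) - x))
  have n2 := norm_add_le (c1 • (Φ (⌊s⌋, ⌊t⌋) - x) + c2 • (Φ (⌊s⌋ + 1, ⌊t⌋) - x))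
      (c3 • (Φ (⌊s⌋, ⌊t⌋ + 1) - x))
  have n3 := norm_add_le (c1 • (Φ (⌊s⌋, ⌊t⌋) - x)) (c2 • (Φ (⌊s⌋ + 1, ⌊t⌋) - x))
  have : c1 * ε + c2 * ε + c3 * ε + c4 * ε = ε := by
    rw [← add_mul, ← add_mul, ← add_mul, hone, one_mul]
  linarith

end Pool.Agent.Lib.MP_c8c16f_gt
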