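import Mathlib

set_option autoImplicit false

namespace Pool.Agent.Lib.MP_c8c16f_gt

open Real

/-- coefficient space of real trigonometric polynomials of degree at most two -/
abbrev V := Fin 5 → ℝ

noncomputable def ring (A0 A1 A2 μ : ℝ) : V :=
  ![A0, A1 * cos μ, A1 * sin μ, A2 * cos (2 * μ), A2 * sin (2 * μ)]

noncomputable def evl (t : ℝ) : V →ₗ[ℝ] ℝ where
  toFun p := p 0 - p 1 * cos t - p 2 * sin t + p 3 * cos (2 * t) + p 4 * sin (2 * t)
  map_add' p q := by simp only [Pi.add_apply]; ring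
  map_smul' c p := by simp only [Pi.smul_apply, smul_eq_mul, RingHom.id_apply]; ring

lemma evl_ring (t A0 A1 A2 μ : ℝ) :
    evl t (ring A0 A1 A2 μ) = A0 - A1 * cos (t - μ) + A2 * cos (2 * (t - μ)) := by
  simp only [evl, ring, LinearMap.coe_mk, AddHom.coe_mk, Matrix.cons_val_zero, Matrix.cons_val_one,
    Matrix.cons_val]
  rw [mul_sub, cos_sub, cos_sub]; ring

lemma ring_add_pi (A0 A1 A2 μ : ℝ) : ring A0 (-A1) A2 (μ + π) = ring A0 A1 A2 μ := by
  unfold ring
  rw [cos_add_pi, sin_add_pi, show 2 * (μ + π) = 2 * μ + 2 * π by ring, cos_add_two_pi,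
    sin_add_two_pi]
  simp

lemma ring_add_int (A0 A1 A2 μ : ℝ) (j : ℤ) :
    ring A0 A1 A2 (μ + j * (2 * π)) = ring A0 A1 A2 μ := by
  unfold ring
  rw [cos_add_int_mul_two_pi, sin_add_int_mul_two_pi,
    show 2 * (μ + j * (2 * π)) = 2 * μ + ((2 * j : ℤ) : ℝ) * (2 * π) by push_cast; ring,
    cos_add_int_mul_two_pi, sin_add_int_mul_two_pi]

lemma ring_avg (A0 A1 A2 μ h : ℝ) :
    ring A0 A1 A2 (μ + h) + ring A0 A1 A2 (μ - h) =
      (2 : ℝ) • ring A0 (cos h * A1) (cos (2 * h) * A2) μ := by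
  unfold ring
  rw [mul_add, mul_sub, cos_add, cos_sub, sin_add, sin_sub, cos_add, cos_sub, sin_add, sin_sub]
  ext i
  fin_cases i <;> simp <;> ring

lemma ring_comb (A0 A1 A2 B0 B1 B2 C0 C1 C2 μ p q : ℝ) :
    ring A0 A1 A2 μ + p • ring B0 B1 B2 μ + q • ring C0 C1 C2 μ =
      ring (A0 + p * B0 + q * C0) (A1 + p * B1 + q * C1) (A2 + p * B2 + q * C2) μ := by
  unfold ring
  ext i
  fin_cases i <;> simp <;> ring

lemma ring_smul (A0 A1 A2 μ r : ℝ) : r • ring A0 A1 A2 μ = ring (r * A0) (r * A1) (r * A2) μ := by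
  unfold ring
  ext i
  fin_cases i <;> simp <;> ring

/-- the constant polynomial one -/
def pole : V := ![1, 0, 0, 0, 0]

noncomputable def disc (ρ μ : ℝ) : V := ring (1 + ρ ^ 2 / 2) (2 * ρ) (ρ ^ 2 / 2) μ

noncomputable def mob (h δ μ : ℝ) : V :=
  ring (cos (h / 2) ^ 2 + cos (2 * δ) / 2) (2 * cos (h / 2) * cos δ) (1 / 2) μ

lemma disc_zero (μ : ℝ) : disc 0 μ = pole := by
  unfold disc ring pole; simp

lemma evl_disc (t ρ μ : ℝ) : evl t (disc ρ μ) = (1 - ρ * cos (t - μ)) ^ 2 := by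
  unfold disc
  rw [evl_ring, cos_two_mul]; ring

lemma evl_mob (t h δ μ : ℝ) : evl t (mob h δ μ) =
    (cos (h / 2) - cos (t - μ + δ)) * (cos (h / 2) - cos (t - μ - δ)) := by
  unfold mob
  rw [evl_ring, cos_add (t - μ), cos_sub (t - μ), cos_two_mul, cos_two_mul]
  have h1 := sin_sq_add_cos_sq δ
  have h2 := sin_sq_add_cos_sq (t - μ)
  have : (sin (t - μ) * sin δ) ^ 2 = (1 - cos (t - μ) ^ 2) * (1 - cos δ ^ 2) := by
    rw [mul_pow]; congr 1 <;> linarith
  nlinarith

noncomputable def hh (k : ℤ) : ℝ := 2 * π / k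

def NN (R k : ℤ) : ℤ := 2 * R + k - 4

noncomputable def sh (R k : ℤ) (s : ℝ) : ℝ := (max (s - R) 0 + max (s - (NN R k - R)) 0) / 2

noncomputable def ang (R k : ℤ) (s t : ℝ) : ℝ := (t + sh R k s) * hh k

/-- the vertices -/
noncomputable def Q (R k : ℤ) (u : ℤ × ℤ) : V :=
  if u.1 < R then disc (((max u.1 0 : ℤ) : ℝ) / R) (ang R k u.1 u.2)
  else if u.1 ≤ NN R k - R then mob (hh k) (((u.1 : ℝ) - R + 2) * hh k / 2) (ang R k u.1 u.2)
  else disc (-(((max (NN R k - u.1) 0 : ℤ) : ℝ) / R)) (ang R k u.1 u.2)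

variable {R k : ℤ}

lemma hh_mul (hk : 0 < k) : (k : ℝ) * hh k = 2 * π := by
  unfold hh
  have : (k : ℝ) ≠ 0 := by exact_mod_cast hk.ne'
  field_simp

lemma hh_pos (hk : 0 < k) : 0 < hh k := by
  unfold hh
  have : (0 : ℝ) < k := by exact_mod_cast hk
  positivity

lemma NN_cast : ((NN R k : ℤ) : ℝ) = 2 * R + k - 4 := by unfold NN; push_cast; ring

lemma sh_glide (s : ℝ) : sh R k (NN R k - s) = sh R k s + NN R k / 2 - s := by
  unfold sh
  have key : ∀ x : ℝ, max (-x) 0 = max x 0 - x := by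
    intro x
    rcases le_total x 0 with h | h
    · rw [max_eq_left (by linarith), max_eq_right h]; ring
    · rw [max_eq_right (by linarith), max_eq_left h]; ring
  rw [show (NN R k : ℝ) - s - R = -(s - (NN R k - R)) by ring,
    show (NN R k : ℝ) - s - (NN R k - R) = -(s - R) by ring, key, key]
  ring

lemma ang_glide (hk : 0 < k) (s t : ℝ) :
    ang R k (NN R k - s) (t + s - (R - 2)) = ang R k s t + π := by
  unfold ang
  rw [sh_glide, NN_cast]
  have := hh_mul hk
  linear_combination (1 / 2 : ℝ) * this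

lemma ang_shift (hk : 0 < k) (s t : ℝ) (j : ℤ) :
    ang R k s (t + k * j) = ang R k s t + j * (2 * π) := by
  unfold ang
  rw [← hh_mul hk]; ring

lemma sh_low (hk : 4 ≤ k) {s : ℝ} (hs : s ≤ R) : sh R k s = 0 := by
  unfold sh
  have : (4 : ℝ) ≤ k := by exact_mod_cast hk
  rw [max_eq_right (by linarith), max_eq_right (by rw [NN_cast]; linarith)]; simp

lemma sh_mid {s : ℝ} (h1 : (R : ℝ) ≤ s) (h2 : s ≤ NN R k - R) : sh R k s = (s - R) / 2 := by
  unfold sh
  rw [max_eq_left (by linarith), max_eq_right (by linarith)]; simp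

lemma disc_neg (ρ μ : ℝ) : disc (-ρ) (μ + π) = disc ρ μ := by
  unfold disc
  rw [← ring_add_pi (1 + ρ ^ 2 / 2) (2 * ρ)]
  congr 1 <;> ring

lemma mob_glide (h δ μ : ℝ) : mob h (π - δ) (μ + π) = mob h δ μ := by
  unfold mob
  rw [← ring_add_pi _ (2 * cos (h / 2) * cos δ), cos_pi_sub,
    show 2 * (π - δ) = -(2 * δ) + 2 * π by ring, cos_add_two_pi, cos_neg]
  congr 1; ring

lemma Q_glide (hk : 4 ≤ k) (a m : ℤ) : Q R k (NN R k - a, m + a - (R - 2)) = Q R k (a, m) := by
  have hk0 : 0 < k := by omega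
  have hang : ang R k ((NN R k - a : ℤ) : ℝ) ((m + a - (R - 2) : ℤ) : ℝ) = ang R k a m + π := by
    rw [← ang_glide hk0]; push_cast; rfl
  have hN : NN R k = 2 * R + k - 4 := rfl
  unfold Q
  simp only [hang]
  by_cases h1 : a < R
  · rw [if_neg (by omega), if_neg (by omega), if_pos h1, disc_neg]
    congr 4; ring
  · by_cases h2 : a ≤ NN R k - R
    · rw [if_neg (by omega), if_pos (by omega), if_neg h1, if_pos h2, ← mob_glide _ _ (ang R k a m)]
      congr 1
      have := hh_mul hk0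
      push_cast
      rw [NN_cast]
      linear_combination (1 / 2 : ℝ) * this
    · rw [if_pos (by omega), if_neg h1, if_neg h2, ← disc_neg _ (ang R k a m), neg_neg]

lemma Q_shift (hk : 0 < k) (a m j : ℤ) : Q R k (a, m + k * j) = Q R k (a, m) := by
  have hang : ang R k a ((m + k * j : ℤ) : ℝ) = ang R k a m + j * (2 * π) := by
    rw [← ang_shift hk]; push_cast; rfl
  unfold Q disc mob
  simp only [hang, ring_add_int]

lemma Q_pole (hR : 0 < R) {a : ℤ} (ha : a ≤ 0) (m : ℤ) : Q R k (a, m) = pole := by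
  unfold Q
  rw [if_pos (by simp only; omega), max_eq_right ha]
  simp [disc_zero]

lemma Q_pole' (hR : 0 < R) (hk : 4 ≤ k) {a : ℤ} (ha : NN R k ≤ a) (m : ℤ) :
    Q R k (a, m) = pole := by
  rw [← Q_glide hk]; exact Q_pole hR (by omega) _

noncomputable def node (k l : ℤ) : V →ₗ[ℝ] ℝ := evl (((l : ℝ) - 3 / 2) * hh k)

noncomputable def eps (k n : ℤ) : ℝ := cos (hh k / 2) - cos (((n : ℝ) - 1 / 2) * hh k)

lemma node_mob {a : ℤ} (h1 : R ≤ a) (h2 : a ≤ NN R k - R) (l m : ℤ) :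
    node k l (Q R k (a, m)) = eps k (l - m) * eps k (l - (m + a - R + 2)) := by
  unfold Q node eps ang
  rw [if_neg (by simp only; omega), if_pos h2, evl_mob,
    sh_mid (by exact_mod_cast h1) (by exact_mod_cast h2)]
  congr 3 <;> push_cast <;> ring

lemma eps_zero : eps k 0 = 0 := by
  unfold eps
  rw [← cos_neg]; simp only [Int.cast_zero, sub_eq_zero]; congr 1; ring

lemma eps_one : eps k 1 = 0 := by
  unfold eps
  simp only [Int.cast_one, sub_eq_zero]; congr 1; ring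

lemma eps_shift (hk : 0 < k) (n j : ℤ) : eps k (n + k * j) = eps k n := by
  unfold eps
  rw [← cos_add_int_mul_two_pi (((n : ℝ) - 1 / 2) * hh k) j, ← hh_mul hk]
  congr 2; push_cast; ring

lemma eps_pos {n : ℤ} (h1 : 2 ≤ n) (h2 : n ≤ k - 1) : 0 < eps k n := by
  have hk : 0 < k := by omega
  have e : eps k n = 2 * sin (n * hh k / 2) * sin ((n - 1) * hh k / 2) := by
    unfold eps
    rw [cos_sub_cos, show (hh k / 2 + ((n : ℝ) - 1 / 2) * hh k) / 2 = n * hh k / 2 by ring,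
      show (hh k / 2 - ((n : ℝ) - 1 / 2) * hh k) / 2 = -((n - 1) * hh k / 2) by ring, sin_neg]
    ring
  have hp := hh_pos hk
  have hm := hh_mul hk
  have a1 : (2 : ℝ) ≤ n := by exact_mod_cast h1
  have a2 : (n : ℝ) ≤ k - 1 := by exact_mod_cast h2
  rw [e]
  have s1 : 0 < sin (n * hh k / 2) := sin_pos_of_pos_of_lt_pi (by positivity) (by nlinarith)
  have s2 : 0 < sin ((n - 1) * hh k / 2) :=
    sin_pos_of_pos_of_lt_pi (by have : (0 : ℝ) < n - 1 := by linarith
                                positivity) (by nlinarith)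
  positivity

lemma eps_pos' {n : ℤ} (h1 : 2 - k ≤ n) (h2 : n ≤ -1) : 0 < eps k n := by
  rw [← eps_shift (by omega) n 1]; exact eps_pos (by omega) (by omega)

lemma eps_cases (hk : 0 < k) (n : ℤ) :
    0 < eps k n ∨ (eps k n = 0 ∧ ∃ j, n = k * j ∨ n = k * j + 1) := by
  have h1 := Int.emod_add_mul_ediv n k
  have h2 := Int.emod_nonneg n hk.ne'
  have h3 := Int.emod_lt_of_pos n hk
  have h4 : eps k n = eps k (n % k) := by rw [← eps_shift hk (n % k) (n / k), h1]
  by_cases h5 : 2 ≤ n % k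
  · left; rw [h4]; exact eps_pos h5 (by omega)
  · right
    have : n % k = 0 ∨ n % k = 1 := by omega
    rcases this with h | h
    · exact ⟨by rw [h4, h, eps_zero], n / k, Or.inl (by omega)⟩
    · exact ⟨by rw [h4, h, eps_one], n / k, Or.inr (by omega)⟩

lemma eps_nonneg (hk : 0 < k) (n : ℤ) : 0 ≤ eps k n := by
  rcases eps_cases hk n with h | h
  · exact h.le
  · exact h.1.ge

/-- zeros of `eps` in a window -/
lemma eps_eq_zero (hk : 2 ≤ k) {n : ℤ} (h : eps k n = 0) (h1 : -2 * k + 1 < n) (h2 : n < 2 * k) :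
    n = -k ∨ n = -k + 1 ∨ n = 0 ∨ n = 1 ∨ n = k ∨ n = k + 1 := by
  rcases eps_cases (by omega : 0 < k) n with h3 | ⟨_, j, h3⟩
  · exact absurd h h3.ne'
  · have j1 : j < 2 := by
      by_contra hc
      have : k * 2 ≤ k * j := Int.mul_le_mul_of_nonneg_left (by omega) (by omega)
      omega
    have j2 : -2 < j := by
      by_contra hc
      have : k * j ≤ k * (-2) := Int.mul_le_mul_of_nonneg_left (by omega) (by omega)
      omega
    have : j = -1 ∨ j = 0 ∨ j = 1 := by omega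
    rcases this with rfl | rfl | rfl <;> omega

lemma node_disc_pos {a : ℤ} (hR : 0 < R) (ha : a < R) (l m : ℤ) :
    0 < node k l (Q R k (a, m)) := by
  unfold Q node
  rw [if_pos ha, evl_disc]
  have hR' : (0 : ℝ) < R := by exact_mod_cast hR
  have h1 : ((max a 0 : ℤ) : ℝ) / R < 1 := by
    rw [div_lt_one hR']; exact_mod_cast max_lt ha hR
  have h2 : (0 : ℝ) ≤ ((max a 0 : ℤ) : ℝ) / R :=
    div_nonneg (by exact_mod_cast le_max_right a 0) hR'.le
  apply pow_pos
  have := cos_le_one (((l : ℝ) - 3 / 2) * hh k - ang R k a m)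
  simp only
  nlinarith

lemma node_nonneg (hR : 0 < R) (hk : 4 ≤ k) (l : ℤ) (u : ℤ × ℤ) : 0 ≤ node k l (Q R k u) := by
  obtain ⟨a, m⟩ := u
  by_cases h1 : a < R
  · exact (node_disc_pos hR h1 l m).le
  · by_cases h2 : a ≤ NN R k - R
    · rw [node_mob (by omega) h2]
      exact mul_nonneg (eps_nonneg (by omega) _) (eps_nonneg (by omega) _)
    · rw [← Q_glide hk]
      exact (node_disc_pos hR (by omega) l _).le

/-! ### the northern disc -/

noncomputable def A0 (R : ℤ) (h : ℝ) (a : ℤ) : ℝ :=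
  if a < R then 1 + ((a : ℝ) / R) ^ 2 / 2 else cos (h / 2) ^ 2 + cos (2 * h) / 2

noncomputable def A1 (R : ℤ) (h : ℝ) (a : ℤ) : ℝ :=
  if a < R then 2 * ((a : ℝ) / R) else 2 * cos (h / 2) * cos h

noncomputable def A2 (R : ℤ) (a : ℤ) : ℝ :=
  if a < R then ((a : ℝ) / R) ^ 2 / 2 else 1 / 2

lemma Q_north (hk : 4 ≤ k) {a : ℤ} (h0 : 0 ≤ a) (h1 : a ≤ R) (m : ℤ) :
    Q R k (a, m) = ring (A0 R (hh k) a) (A1 R (hh k) a) (A2 R a) (m * hh k) := by
  have hang : ang R k a m = m * hh k := by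
    unfold ang; rw [sh_low hk (by exact_mod_cast h1), add_zero]
  have hN : NN R k = 2 * R + k - 4 := rfl
  unfold Q A0 A1 A2
  simp only [hang]
  by_cases h2 : a < R
  · simp only [if_pos h2, max_eq_left h0, disc]
  · have : a = R := by omega
    subst this
    simp only [if_neg h2]
    rw [if_pos (by omega), mob, show ((a : ℝ) - a + 2) * hh k / 2 = hh k by ring]

/-- the finitely many inequalities that hold when the angular mesh is fine compared to the
radial mesh -/
structure Good (R : ℤ) (h : ℝ) : Prop where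
  pos : ∀ a, 0 ≤ a → a ≤ R → 0 < A0 R h a
  mono : ∀ a, 0 ≤ a → a < R → A1 R h a / A0 R h a < A1 R h (a + 1) / A0 R h (a + 1)
  comb : ∀ a, 1 ≤ a → a < R → ∃ p q r : ℝ, 0 < p ∧ 0 ≤ q ∧
    r * A0 R h a = A0 R h a + p * A0 R h (a + 1) + q * A0 R h (a - 1) ∧
    r * A1 R h a = cos h * A1 R h a + p * A1 R h (a + 1) + q * A1 R h (a - 1) ∧
    r * A2 R a = cos (2 * h) * A2 R a + p * A2 R (a + 1) + q * A2 R (a - 1)

lemma Q_comb (hk : 4 ≤ k) (hG : Good R (hh k)) {a : ℤ} (h1 : 1 ≤ a) (h2 : a < R) (m : ℤ) :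
    ∃ p q r : ℝ, 0 < p ∧ 0 ≤ q ∧ r • Q R k (a, m) =
      Q R k (a, m + 1) + Q R k (a, m - 1) + p • Q R k (a + 1, m) + q • Q R k (a - 1, m) := by
  obtain ⟨p, q, r, hp, hq, e0, e1, e2⟩ := hG.comb a h1 h2
  refine ⟨2 * p, 2 * q, 2 * r, by positivity, by positivity, ?_⟩
  rw [Q_north hk (by omega) (by omega), Q_north hk (by omega) (by omega),
    Q_north hk (by omega) (by omega), Q_north hk (by omega) (by omega),
    Q_north hk (by omega) (by omega)]
  rw [show ((m + 1 : ℤ) : ℝ) * hh k = m * hh k + hh k by push_cast; ring,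
    show ((m - 1 : ℤ) : ℝ) * hh k = m * hh k - hh k by push_cast; ring, ring_avg,
    mul_smul, mul_smul, mul_smul, ← smul_add, ← smul_add, ring_comb, ring_smul _ _ _ _ r, e0, e1, e2]

lemma pole_comb {k' : ℤ} (hk : k = 4 * k') (hk' : 1 ≤ k') (hR : 1 ≤ R) :
    (4 * A0 R (hh k) 1) • pole =
      Q R k (1, 0) + Q R k (1, k') + Q R k (1, 2 * k') + Q R k (1, 3 * k') := by
  have hm := hh_mul (by omega : 0 < k)
  have hq : (k' : ℝ) * hh k = π / 2 := by
    have : (k : ℝ) = 4 * k' := by exact_mod_cast hk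
    rw [this] at hm; linarith
  rw [Q_north (by omega) (by omega) (by omega), Q_north (by omega) (by omega) (by omega),
    Q_north (by omega) (by omega) (by omega), Q_north (by omega) (by omega) (by omega), hq,
    show ((2 * k' : ℤ) : ℝ) * hh k = π by push_cast; linarith,
    show ((3 * k' : ℤ) : ℝ) * hh k = π / 2 + π by push_cast; linarith]
  unfold ring pole
  rw [show 2 * (π / 2) = π by ring, show 2 * (π / 2 + π) = π + 2 * π by ring,
    cos_add_two_pi, sin_add_two_pi, cos_add_pi, sin_add_pi]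
  ext i
  fin_cases i <;> simp
  ring

end Pool.Agent.Lib.MP_c8c16f_gt
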