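import Mathlib
import Pool.Agent.Lib.MP_c8c16f_gt.Verts
import Pool.Agent.Lib.MP_c8c16f_gt.Hat

set_option autoImplicit false

namespace Pool.Agent.Lib.MP_c8c16f_gt

open Real

noncomputable def cl (R k : ℤ) (s : ℝ) : ℝ := max 1 (min s (NN R k - 1))

noncomputable def ww (R k : ℤ) (s : ℝ) : ℝ := min 1 (min s (NN R k - s))

variable {E : Type*} [NormedAddCommGroup E] [NormedSpace ℝ E]

/-- simplexwise linear extension, over the strip, of data attached to the vertices -/
noncomputable def J (R k : ℤ) (Ψ : V → E) (s t : ℝ) : E :=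
  (1 - ww R k s) • Ψ pole + ww R k s • interp (fun u => Ψ (Q R k u)) (cl R k s) t

noncomputable def rr (R k : ℤ) (s : ℝ) : ℝ := min 1 (min (s / R) ((NN R k - s) / R))

noncomputable def clR (R k : ℤ) (s : ℝ) : ℝ := max R (min s (NN R k - R))

noncomputable def zz (R k : ℤ) (s : ℝ) : ℝ := cos ((clR R k s - R + 2) * hh k / 2)

/-- parametrisation of the boundary of a can by the strip -/
noncomputable def yv (R k : ℤ) (s t : ℝ) : Fin 3 → ℝ :=
  ![rr R k s * cos (ang R k (cl R k s) t), rr R k s * sin (ang R k (cl R k s) t), zz R k s]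

variable {R k : ℤ}

lemma clamp_glide {a N s : ℝ} (h : a ≤ N - a) :
    max a (min (N - s) (N - a)) = N - max a (min s (N - a)) := by
  rcases le_total s a with h1 | h1
  · rw [min_eq_right (by linarith), max_eq_right h, min_eq_left (by linarith), max_eq_left h1]
  · rcases le_total s (N - a) with h2 | h2
    · rw [min_eq_left (by linarith), max_eq_right (by linarith), min_eq_left h2, max_eq_right h1]
    · rw [min_eq_left (by linarith), max_eq_left (by linarith), min_eq_right h2, max_eq_right h]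
      ring

lemma cl_glide (hR : 1 ≤ R) (hk : 4 ≤ k) (s : ℝ) : cl R k (NN R k - s) = NN R k - cl R k s := by
  have a1 : (1 : ℝ) ≤ R := by exact_mod_cast hR
  have a2 : (4 : ℝ) ≤ k := by exact_mod_cast hk
  exact clamp_glide (by rw [NN_cast]; linarith)

lemma clR_glide (hk : 4 ≤ k) (s : ℝ) : clR R k (NN R k - s) = NN R k - clR R k s := by
  have a2 : (4 : ℝ) ≤ k := by exact_mod_cast hk
  exact clamp_glide (by rw [NN_cast]; linarith)

lemma ww_glide (s : ℝ) : ww R k (NN R k - s) = ww R k s := by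
  unfold ww; rw [sub_sub_cancel, min_comm s]

lemma rr_glide (s : ℝ) : rr R k (NN R k - s) = rr R k s := by
  unfold rr; rw [sub_sub_cancel, min_comm (s / R)]

lemma zz_glide (hk : 4 ≤ k) (s : ℝ) : zz R k (NN R k - s) = -zz R k s := by
  unfold zz
  rw [clR_glide hk, ← cos_pi_sub]
  congr 1
  have := hh_mul (by omega : 0 < k)
  rw [NN_cast]
  linear_combination (1 / 2 : ℝ) * this

lemma J_glide (hR : 1 ≤ R) (hk : 4 ≤ k) (Ψ : V → E) (s t : ℝ) :
    J R k Ψ (NN R k - s) (t + cl R k s - (R - 2)) = J R k Ψ s t := by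
  unfold J
  rw [ww_glide, cl_glide hR hk]
  have := interp_glide (fun u => Ψ (Q R k u)) (NN R k) (R - 2)
    (fun a m => by simp only [Q_glide hk]) (cl R k s) t
  push_cast at this
  rw [this]

lemma J_shift (hk : 0 < k) (Ψ : V → E) (s t : ℝ) (j : ℤ) :
    J R k Ψ s (t + k * j) = J R k Ψ s t := by
  unfold J
  have := interp_shift (fun u => Ψ (Q R k u)) (k * j)
    (fun a m => by simp only [Q_shift hk]) (cl R k s) t
  push_cast at this
  rw [this]

lemma yv_glide (hR : 1 ≤ R) (hk : 4 ≤ k) (s t : ℝ) :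
    yv R k (NN R k - s) (t + cl R k s - (R - 2)) = -yv R k s t := by
  unfold yv
  rw [rr_glide, zz_glide hk, cl_glide hR hk, ang_glide (by omega), cos_add_pi, sin_add_pi]
  ext i
  fin_cases i <;> simp

lemma yv_shift (hk : 0 < k) (s t : ℝ) (j : ℤ) : yv R k s (t + k * j) = yv R k s t := by
  unfold yv
  rw [ang_shift hk, cos_add_int_mul_two_pi, sin_add_int_mul_two_pi]

lemma map_J {F : Type*} [NormedAddCommGroup F] [NormedSpace ℝ F] (L : E →ₗ[ℝ] F)
    (Ψ : V → E) (s t : ℝ) : L (J R k Ψ s t) = J R k (fun v => L (Ψ v)) s t := by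
  unfold J
  rw [map_add, map_smul, map_smul, map_interp]

lemma continuous_J (Ψ : V → E) : Continuous (fun p : ℝ × ℝ => J R k Ψ p.1 p.2) := by
  unfold J
  have h1 : Continuous (fun p : ℝ × ℝ => ww R k p.1) := by unfold ww; fun_prop
  have h2 : Continuous (fun p : ℝ × ℝ => interp (fun u => Ψ (Q R k u)) (cl R k p.1) p.2) :=
    (continuous_interp (fun u => Ψ (Q R k u))).comp (f := fun p : ℝ × ℝ => (cl R k p.1, p.2))
      (by unfold cl; fun_prop)
  exact ((continuous_const.sub h1).smul continuous_const).add (h1.smul h2)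

lemma continuous_yv : Continuous (fun p : ℝ × ℝ => yv R k p.1 p.2) := by
  unfold yv rr zz clR ang sh cl
  apply continuous_pi
  intro i
  fin_cases i <;> simp <;> fun_prop

lemma cl_mid {s : ℝ} (h1 : 1 ≤ s) (h2 : s ≤ NN R k - 1) : cl R k s = s := by
  unfold cl; rw [min_eq_left h2, max_eq_right h1]

lemma J_mid (Ψ : V → E) {s : ℝ} (h1 : 1 ≤ s) (h2 : s ≤ NN R k - 1) (t : ℝ) :
    J R k Ψ s t = interp (fun u => Ψ (Q R k u)) s t := by
  unfold J
  have : ww R k s = 1 := by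
    unfold ww; exact min_eq_left (le_min h1 (by linarith))
  rw [this, cl_mid h1 h2]; simp

lemma J_top (hN : 2 ≤ NN R k) (Ψ : V → E) (m : ℤ) {σ ω : ℝ} (h2 : σ ≤ 1)
    (h3 : 0 ≤ ω) (h4 : ω ≤ 1) :
    J R k Ψ σ (m + ω) = (σ * ω) • Ψ (Q R k (1, m + 1)) + (σ * (1 - ω)) • Ψ (Q R k (1, m)) +
      (1 - σ) • Ψ pole := by
  have hN' : (2 : ℝ) ≤ NN R k := by exact_mod_cast hN
  unfold J
  have e1 : ww R k σ = σ := by
    unfold ww; rw [min_eq_left (a := σ) (by linarith), min_eq_right h2]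
  have e2 : cl R k σ = ((1 : ℤ) : ℝ) + 0 := by
    unfold cl; rw [min_eq_left (by linarith), max_eq_left h2]; simp
  rw [e1, e2, interp_lower _ 1 m le_rfl h3 (by linarith)]
  module

/-- description of `J` on a half-open cell -/
lemma J_cell (hR : 0 < R) (Ψ : V → E) {a : ℤ} (m : ℤ) {σ ω : ℝ} (ha : 0 ≤ a)
    (ha2 : a + 2 ≤ NN R k) (h1 : 0 ≤ σ) (h2 : σ < 1) (h3 : 0 ≤ ω) (h4 : ω < 1) :
    ∃ c00 c10 c01 c11 : ℝ, 0 ≤ c00 ∧ 0 ≤ c10 ∧ 0 ≤ c01 ∧ 0 ≤ c11 ∧ c00 * c11 = 0 ∧
      c10 + c11 = σ ∧ c00 + c01 = 1 - σ ∧ (a = 0 → c00 = 0 ∧ c11 = σ * ω) ∧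
      (1 ≤ a → c01 + c11 = ω) ∧
      J R k Ψ (a + σ) (m + ω) = c00 • Ψ (Q R k (a, m)) + c10 • Ψ (Q R k (a + 1, m)) +
        c01 • Ψ (Q R k (a, m + 1)) + c11 • Ψ (Q R k (a + 1, m + 1)) := by
  rcases eq_or_lt_of_le ha with h0 | h0
  · subst h0
    refine ⟨0, σ * (1 - ω), 1 - σ, σ * ω, le_rfl, mul_nonneg h1 (by linarith), by linarith,
      mul_nonneg h1 h3, by ring, by ring, by ring, fun _ => ⟨rfl, rfl⟩, fun h => by omega, ?_⟩
    rw [Int.cast_zero, zero_add, J_top (by omega) Ψ m h2.le h3 h4.le, Q_pole hR le_rfl (m + 1),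
      zero_add]
    module
  · have a1 : (1 : ℝ) ≤ a := by exact_mod_cast h0
    have a2 : (a : ℝ) + 2 ≤ NN R k := by exact_mod_cast ha2
    rw [J_mid Ψ (by linarith) (by linarith)]
    rcases le_total (σ + ω) 1 with h | h
    · refine ⟨1 - σ - ω, σ, ω, 0, by linarith, h1, h3, le_rfl, by ring, by ring, by ring,
        fun h => by omega, fun _ => by ring, ?_⟩
      rw [interp_lower _ a m h1 h3 h]; module
    · refine ⟨0, 1 - ω, 1 - σ, σ + ω - 1, le_rfl, by linarith, by linarith, by linarith, by ring,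
        by ring, by ring, fun h => by omega, fun _ => by ring, ?_⟩
      rw [interp_upper _ a m h2.le h4.le h]; module

end Pool.Agent.Lib.MP_c8c16f_gt
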