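import Mathlib
import Pool.Agent.Lib.MP_c8c16f_gt.Strip

set_option autoImplicit false

namespace Pool.Agent.Lib.MP_c8c16f_gt

open Real

variable {R k : ℤ}

lemma hh_le (hk : 8 ≤ k) : hh k ≤ π / 4 := by
  have hp := hh_pos (by omega : 0 < k)
  have hm := hh_mul (by omega : 0 < k)
  have a2 : (8 : ℝ) ≤ k := by exact_mod_cast hk
  nlinarith

lemma z0_pos (hk : 8 ≤ k) : 1 / 2 ≤ cos (hh k) := by
  rw [← cos_pi_div_three]
  apply cos_le_cos_of_nonneg_of_le_pi (hh_pos (by omega)).le (by linarith [pi_pos])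
  linarith [hh_le hk, pi_pos]

lemma rr_low (hR : 0 < R) (hk : 4 ≤ k) {s : ℝ} (h : s ≤ R) : rr R k s = s / R := by
  have a1 : (0 : ℝ) < R := by exact_mod_cast hR
  have a2 : (4 : ℝ) ≤ k := by exact_mod_cast hk
  unfold rr
  rw [min_eq_left (a := s / R) (by gcongr; rw [NN_cast]; linarith),
    min_eq_right (by rw [div_le_one a1]; exact h)]

lemma rr_mid (hR : 0 < R) {s : ℝ} (h : (R : ℝ) ≤ s) (h2 : s ≤ NN R k - R) : rr R k s = 1 := by
  have a1 : (0 : ℝ) < R := by exact_mod_cast hR
  unfold rr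
  exact min_eq_left (le_min (by rw [le_div_iff₀ a1]; linarith) (by rw [le_div_iff₀ a1]; linarith))

lemma clR_low {s : ℝ} (h : s ≤ R) : clR R k s = R := by
  unfold clR; exact max_eq_left ((min_le_left _ _).trans h)

lemma clR_mid {s : ℝ} (h : (R : ℝ) ≤ s) (h2 : s ≤ NN R k - R) : clR R k s = s := by
  unfold clR; rw [min_eq_left h2, max_eq_right h]

lemma zz_low {s : ℝ} (h : s ≤ R) : zz R k s = cos (hh k) := by
  unfold zz; rw [clR_low h]; congr 1; ring

lemma clR_range (hk : 4 ≤ k) (s : ℝ) : hh k ≤ (clR R k s - R + 2) * hh k / 2 ∧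
    (clR R k s - R + 2) * hh k / 2 ≤ π - hh k := by
  have hp := hh_pos (by omega : 0 < k)
  have hm := hh_mul (by omega : 0 < k)
  have a2 : (4 : ℝ) ≤ k := by exact_mod_cast hk
  have b1 : (R : ℝ) ≤ clR R k s := le_max_left _ _
  have b2 : clR R k s ≤ R + k - 4 :=
    max_le (by linarith) ((min_le_right _ _).trans (by rw [NN_cast]; linarith))
  constructor <;> nlinarith

lemma abs_zz_le (hk : 4 ≤ k) (s : ℝ) : |zz R k s| ≤ cos (hh k) := by
  have hp := hh_pos (by omega : 0 < k)
  obtain ⟨b1, b2⟩ := clR_range (R := R) hk s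
  rw [abs_le, ← cos_pi_sub]
  exact ⟨cos_le_cos_of_nonneg_of_le_pi (by linarith) (by linarith) b2,
    cos_le_cos_of_nonneg_of_le_pi hp.le (by linarith) b1⟩

lemma rr_range (hR : 0 < R) {s : ℝ} (h1 : 0 ≤ s) (h2 : s ≤ NN R k) :
    0 ≤ rr R k s ∧ rr R k s ≤ 1 := by
  have a1 : (0 : ℝ) < R := by exact_mod_cast hR
  exact ⟨le_min zero_le_one (le_min (by positivity) (div_nonneg (by linarith) a1.le)),
    min_le_left _ _⟩

lemma can_boundary (hR : 0 < R) (hk : 8 ≤ k) (s : ℝ) :
    rr R k s = 1 ∨ |zz R k s| = cos (hh k) := by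
  have hz := z0_pos hk
  rcases le_total s R with h | h
  · right; rw [zz_low h, abs_of_pos (by linarith)]
  · rcases le_total s (NN R k - R) with h2 | h2
    · left; exact rr_mid hR h h2
    · right
      rw [← abs_neg, ← zz_glide (by omega), zz_low (by linarith), abs_of_pos (by linarith)]

lemma yv_sq (s t : ℝ) : yv R k s t 0 ^ 2 + yv R k s t 1 ^ 2 = rr R k s ^ 2 := by
  unfold yv
  simp only [Matrix.cons_val_zero, Matrix.cons_val_one]
  linear_combination (rr R k s ^ 2) * cos_sq_add_sin_sq (ang R k (cl R k s) t)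

lemma yv_two (s t : ℝ) : yv R k s t 2 = zz R k s := rfl

lemma yv_scale (hR : 0 < R) (hk : 8 ≤ k) {s t s' t' l : ℝ} (h1 : 0 ≤ s) (h2 : s ≤ NN R k)
    (h1' : 0 ≤ s') (h2' : s' ≤ NN R k) (hl : 0 < l) (h : yv R k s t = l • yv R k s' t') :
    l = 1 := by
  have hz := z0_pos hk
  have e1 : rr R k s = l * rr R k s' := by
    have t1 := yv_sq (R := R) (k := k) s t
    have t2 := yv_sq (R := R) (k := k) s' t'
    rw [h] at t1
    simp only [Pi.smul_apply, smul_eq_mul] at t1
    have t3 : rr R k s ^ 2 = (l * rr R k s') ^ 2 := by rw [← t1, mul_pow l (rr R k s'), ← t2]; ring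
    exact (pow_left_inj₀ (rr_range hR h1 h2).1 (mul_nonneg hl.le (rr_range hR h1' h2').1)
      two_ne_zero).1 t3
  have e2 : |zz R k s| = l * |zz R k s'| := by
    have := congrFun h 2
    rw [Pi.smul_apply, yv_two, yv_two, smul_eq_mul] at this
    rw [this, abs_mul, abs_of_pos hl]
  have b1 := (rr_range hR h1 h2)
  have b2 := (rr_range hR h1' h2')
  have b3 := abs_zz_le (R := R) (by omega : 4 ≤ k) s
  have b4 := abs_zz_le (R := R) (by omega : 4 ≤ k) s'
  have b5 := abs_nonneg (zz R k s')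
  apply le_antisymm
  · rcases can_boundary hR hk s' with c | c
    · rw [c] at e1; linarith [b1.2]
    · rw [c] at e2; nlinarith
  · rcases can_boundary hR hk s with c | c
    · rw [c] at e1; nlinarith [b2.1, b2.2]
    · rw [c] at e2; nlinarith

lemma yv_ne_zero (hR : 0 < R) (hk : 8 ≤ k) (s t : ℝ) : yv R k s t ≠ 0 := by
  intro h
  have hz := z0_pos hk
  have t1 := yv_sq (R := R) (k := k) s t
  have t2 := yv_two (R := R) (k := k) s t
  rw [h] at t1 t2
  simp only [Pi.zero_apply] at t1 t2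
  rcases can_boundary hR hk s with c | c
  · rw [c] at t1; norm_num at t1
  · rw [← t2] at c; simp at c; linarith

lemma level_inj (hR : 0 < R) (hk : 8 ≤ k) {s s' : ℝ} (h1 : rr R k s = rr R k s')
    (h2 : zz R k s = zz R k s') : s = s' := by
  have hp := hh_pos (by omega : 0 < k)
  have a1 : (0 : ℝ) < R := by exact_mod_cast hR
  have a2 : (8 : ℝ) ≤ k := by exact_mod_cast hk
  have hN : (NN R k : ℝ) = 2 * R + k - 4 := NN_cast
  obtain ⟨b1, b2⟩ := clR_range (R := R) (by omega : 4 ≤ k) s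
  obtain ⟨b3, b4⟩ := clR_range (R := R) (by omega : 4 ≤ k) s'
  have e := injOn_cos ⟨by linarith, by linarith⟩ ⟨by linarith, by linarith⟩ h2
  have e2 : clR R k s = clR R k s' := by
    have : (clR R k s - clR R k s') * hh k = 0 := by linarith
    have := (mul_eq_zero.1 this).resolve_right hp.ne'
    linarith
  have low : ∀ {s s' : ℝ}, s ≤ R → rr R k s = rr R k s' → clR R k s = clR R k s' → s = s' := by
    intro s s' hs h1 e2
    rw [clR_low hs] at e2
    have c : s' ≤ R := by
      by_contra hc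
      have : (R : ℝ) < clR R k s' := lt_max_of_lt_right (lt_min (not_le.1 hc) (by linarith))
      linarith
    rw [rr_low hR (by omega) hs, rr_low hR (by omega) c] at h1
    field_simp at h1; exact h1
  rcases le_total s R with c | c
  · exact low c h1 e2
  · rcases le_total s' R with c' | c'
    · exact (low c' h1.symm e2.symm).symm
    · rcases le_total (NN R k - R : ℝ) s with d | d
      · have := low (s := NN R k - s) (s' := NN R k - s') (by linarith)
          (by rw [rr_glide, rr_glide, h1]) (by rw [clR_glide (by omega), clR_glide (by omega), e2])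
        linarith
      · rcases le_total (NN R k - R : ℝ) s' with d' | d'
        · have := low (s := NN R k - s') (s' := NN R k - s) (by linarith)
            (by rw [rr_glide, rr_glide, h1])
            (by rw [clR_glide (by omega), clR_glide (by omega), e2])
          linarith
        · rwa [clR_mid c d, clR_mid c' d'] at e2

variable {E : Type*} [NormedAddCommGroup E] [NormedSpace ℝ E]

lemma J_eq_of_yv_eq (hR : 0 < R) (hk : 8 ≤ k) (Ψ : V → E) {s t s' t' : ℝ} (h1 : 0 ≤ s)
    (h2 : s ≤ NN R k) (h1' : 0 ≤ s') (h2' : s' ≤ NN R k) (h : yv R k s t = yv R k s' t') :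
    J R k Ψ s t = J R k Ψ s' t' := by
  have a1 : (0 : ℝ) < R := by exact_mod_cast hR
  have e1 : rr R k s = rr R k s' := by
    have t1 := yv_sq (R := R) (k := k) s t
    rw [h, yv_sq] at t1
    exact (pow_left_inj₀ (rr_range hR h1 h2).1 (rr_range hR h1' h2').1 two_ne_zero).1 t1.symm
  have e2 : zz R k s = zz R k s' := congrFun h 2
  obtain rfl := level_inj hR hk e1 e2
  by_cases hr : rr R k s = 0
  · have : ww R k s = 0 := by
      unfold rr at hr
      unfold ww
      rcases min_eq_iff.1 hr with ⟨c, _⟩ | ⟨c, _⟩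
      · norm_num at c
      · rcases min_eq_iff.1 c with ⟨d, _⟩ | ⟨d, _⟩
        · have : s = 0 := by simpa [a1.ne'] using d
          rw [min_eq_left (a := s) (by linarith), this, min_eq_right zero_le_one]
        · have : NN R k - s = 0 := by simpa [a1.ne'] using d
          rw [this, min_eq_right h1, min_eq_right zero_le_one]
    unfold J
    rw [this]; simp
  · have c0 : cos (ang R k (cl R k s) t) = cos (ang R k (cl R k s) t') :=
      mul_left_cancel₀ hr (congrFun h 0)
    have c1 : sin (ang R k (cl R k s) t) = sin (ang R k (cl R k s) t') :=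
      mul_left_cancel₀ hr (congrFun h 1)
    have c2 : cos (ang R k (cl R k s) t' - ang R k (cl R k s) t) = 1 := by
      rw [cos_sub, ← c0, ← c1]
      linear_combination cos_sq_add_sin_sq (ang R k (cl R k s) t)
    obtain ⟨j, hj⟩ := (cos_eq_one_iff _).1 c2
    have hp := hh_pos (by omega : 0 < k)
    have hm := hh_mul (by omega : 0 < k)
    have : t' = t + k * j := by
      unfold ang at hj
      rw [← hm] at hj
      have : (t' - (t + k * j)) * hh k = 0 := by linarith
      have := (mul_eq_zero.1 this).resolve_right hp.ne'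
      linarith
    rw [this, J_shift (by omega)]

lemma yv_surj (hR : 0 < R) (hk : 8 ≤ k) (y : Fin 3 → ℝ) (hy : y ≠ 0) :
    ∃ l s t : ℝ, 0 < l ∧ 0 ≤ s ∧ s ≤ NN R k ∧ 0 ≤ t ∧ t ≤ k ∧ yv R k s t = l • y := by
  have hp := hh_pos (by omega : 0 < k)
  have hz := z0_pos hk
  have a1 : (0 : ℝ) < R := by exact_mod_cast hR
  have a2 : (8 : ℝ) ≤ k := by exact_mod_cast hk
  have hN : (NN R k : ℝ) = 2 * R + k - 4 := NN_cast
  obtain ⟨ρ, θ, hρ, y0, y1⟩ : ∃ ρ θ : ℝ, 0 ≤ ρ ∧ y 0 = ρ * cos θ ∧ y 1 = ρ * sin θ :=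
    ⟨‖(⟨y 0, y 1⟩ : ℂ)‖, Complex.arg ⟨y 0, y 1⟩, norm_nonneg _,
      (Complex.norm_mul_cos_arg ⟨y 0, y 1⟩).symm, (Complex.norm_mul_sin_arg ⟨y 0, y 1⟩).symm⟩
  -- choose the level
  obtain ⟨l, s, hl, s1, s2, s3, s4⟩ : ∃ l s : ℝ, 0 < l ∧ 0 ≤ s ∧ s ≤ NN R k ∧
      rr R k s = l * ρ ∧ zz R k s = l * y 2 := by
    have cap : ∀ w : ℝ, 0 < w → ρ * cos (hh k) ≤ w → ∃ l s : ℝ, 0 < l ∧ 0 ≤ s ∧ s ≤ R ∧
        rr R k s = l * ρ ∧ zz R k s = l * w := by
      intro w hw hc
      have b : R * (cos (hh k) / w * ρ) ≤ R := by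
        have : cos (hh k) / w * ρ ≤ 1 := by
          rw [div_mul_eq_mul_div, div_le_one hw]; linarith
        nlinarith
      have hz' : 0 < cos (hh k) := by linarith
      refine ⟨cos (hh k) / w, R * (cos (hh k) / w * ρ), by positivity, by positivity, b, ?_, ?_⟩
      · rw [rr_low hR (by omega) b]; field_simp
      · rw [zz_low b]; field_simp
    by_cases c1 : ρ * cos (hh k) ≤ |y 2|
    · have y2 : y 2 ≠ 0 := by
        intro h0
        rw [h0, abs_zero] at c1
        have : ρ = 0 := by nlinarith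
        apply hy
        ext i
        fin_cases i
        · simp [y0, this]
        · simp [y1, this]
        · simp [h0]
      rcases lt_or_gt_of_ne y2 with c2 | c2
      · rw [abs_of_neg c2] at c1
        obtain ⟨l, s, b1, b2, b3, b4, b5⟩ := cap (-y 2) (by linarith) c1
        exact ⟨l, NN R k - s, b1, by linarith, by linarith, by rw [rr_glide, b4],
          by rw [zz_glide (by omega), b5]; ring⟩
      · rw [abs_of_pos c2] at c1
        obtain ⟨l, s, b1, b2, b3, b4, b5⟩ := cap (y 2) c2 c1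
        exact ⟨l, s, b1, b2, by linarith, b4, b5⟩
    · have c2 := not_le.1 c1
      have hρ0 : 0 < ρ := by
        rcases eq_or_lt_of_le hρ with h0 | h0
        · rw [← h0, zero_mul] at c2; exact absurd c2 (not_lt.2 (abs_nonneg _))
        · exact h0
      have hcont : ContinuousOn (zz R k) (Set.Icc (R : ℝ) (NN R k - R)) := by
        unfold zz clR; fun_prop
      have hmem : y 2 / ρ ∈ Set.Icc (zz R k (NN R k - R)) (zz R k R) := by
        rw [zz_glide (by omega), zz_low le_rfl]
        rw [abs_lt] at c2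
        constructor
        · rw [le_div_iff₀ hρ0]; linarith
        · rw [div_le_iff₀ hρ0]; linarith
      obtain ⟨s, ⟨s1, s2⟩, s3⟩ := intermediate_value_Icc' (by linarith) hcont hmem
      exact ⟨1 / ρ, s, by positivity, by linarith, by linarith,
        by rw [rr_mid hR s1 s2]; field_simp, by rw [s3]; ring⟩
  have hk0 : (0 : ℝ) < k := by linarith
  obtain ⟨t0, ht0⟩ : ∃ t0, t0 = θ / hh k - sh R k (cl R k s) := ⟨_, rfl⟩
  have f1 := Int.floor_le (t0 / k)
  have f2 := Int.lt_floor_add_one (t0 / k)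
  rw [le_div_iff₀ hk0] at f1
  rw [div_lt_iff₀ hk0] at f2
  refine ⟨l, s, t0 + k * ((-⌊t0 / k⌋ : ℤ) : ℝ), hl, s1, s2, by push_cast; linarith,
    by push_cast; linarith, ?_⟩
  rw [yv_shift (by omega)]
  have : ang R k (cl R k s) t0 = θ := by
    unfold ang; rw [ht0]; field_simp; ring
  unfold yv
  rw [this, s3, s4]
  ext i
  fin_cases i
  · simp [y0]; ring
  · simp [y1]; ring
  · simp

end Pool.Agent.Lib.MP_c8c16f_gt
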