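import Mathlib
import Pool.Agent.Lib.MP_c8c16f_gt.Can

set_option autoImplicit false

namespace Pool.Agent.Lib.MP_c8c16f_gt

open Real

variable {R k : ℤ}

/-- the model Veronese map: coefficients of the square of a degree one polynomial -/
noncomputable def G (y : Fin 3 → ℝ) : V :=
  ![y 2 ^ 2 + (y 0 ^ 2 + y 1 ^ 2) / 2, 2 * y 0 * y 2, 2 * y 1 * y 2, (y 0 ^ 2 - y 1 ^ 2) / 2,
    y 0 * y 1]

lemma G_neg (y : Fin 3 → ℝ) : G (-y) = G y := by
  unfold G; simp

lemma G_yv (s t : ℝ) : G (yv R k s t) = ring (zz R k s ^ 2 + rr R k s ^ 2 / 2)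
    (2 * rr R k s * zz R k s) (rr R k s ^ 2 / 2) (ang R k (cl R k s) t) := by
  unfold G ring
  rw [yv_sq, yv_two, cos_two_mul', sin_two_mul]
  unfold yv
  ext i
  fin_cases i <;> simp <;> ring

lemma norm_ring_sub_le {A0 A1 A2 B0 B1 B2 μ ν ε : ℝ} (h0 : |A0 - B0| ≤ ε)
    (h1 : |A1 - B1| + |B1| * |μ - ν| ≤ ε) (h2 : |A2 - B2| + |B2| * (2 * |μ - ν|) ≤ ε) :
    ‖ring A0 A1 A2 μ - ring B0 B1 B2 ν‖ ≤ ε := by
  have hε : 0 ≤ ε := (abs_nonneg _).trans h0
  have key : ∀ (A B x y d : ℝ), |x| ≤ 1 → |x - y| ≤ d → |A * x - B * y| ≤ |A - B| + |B| * d := by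
    intro A B x y d hx hd
    calc |A * x - B * y| = |(A - B) * x + B * (x - y)| := by congr 1; ring
      _ ≤ |(A - B) * x| + |B * (x - y)| := abs_add_le _ _
      _ = |A - B| * |x| + |B| * |x - y| := by rw [abs_mul, abs_mul]
      _ ≤ |A - B| * 1 + |B| * d := by gcongr
      _ = _ := by ring
  have e2 : |2 * μ - 2 * ν| = 2 * |μ - ν| := by rw [← mul_sub, abs_mul]; simp
  rw [pi_norm_le_iff_of_nonneg hε]
  intro i
  fin_cases i
  · simpa [ring] using h0
  · simpa [ring] using (key A1 B1 _ _ _ (abs_cos_le_one μ) (abs_cos_sub_cos_le μ ν)).trans h1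
  · simpa [ring] using (key A1 B1 _ _ _ (abs_sin_le_one μ) (abs_sin_sub_sin_le μ ν)).trans h1
  · simpa [ring] using (key A2 B2 _ _ _ (abs_cos_le_one (2 * μ))
      ((abs_cos_sub_cos_le (2 * μ) (2 * ν)).trans e2.le)).trans h2
  · simpa [ring] using (key A2 B2 _ _ _ (abs_sin_le_one (2 * μ))
      ((abs_sin_sub_sin_le (2 * μ) (2 * ν)).trans e2.le)).trans h2

lemma one_sub_cos_le {x : ℝ} (hx : 0 ≤ x) : 1 - cos x ≤ x := by
  have := abs_cos_sub_cos_le 0 x
  rw [cos_zero, zero_sub, abs_neg, abs_of_nonneg hx] at this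
  exact (le_abs_self _).trans this

lemma vertex_approx (hR : 0 < R) (hk : 8 ≤ k) {a : ℤ} (h1 : 1 ≤ a) (h2 : a ≤ NN R k - 1) (m : ℤ) :
    ‖Q R k (a, m) - G (yv R k a m)‖ ≤ 2 * hh k := by
  have hp := hh_pos (by omega : 0 < k)
  have hN : NN R k = 2 * R + k - 4 := rfl
  have a1 : (0 : ℝ) < R := by exact_mod_cast hR
  have north : ∀ (a m : ℤ), 1 ≤ a → a ≤ NN R k - R →
      ‖Q R k (a, m) - G (yv R k a m)‖ ≤ 2 * hh k := by
    intro a m h1 h2
    have hcl : cl R k a = a := cl_mid (by exact_mod_cast h1) (by exact_mod_cast (by omega))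
    rw [G_yv, hcl]
    unfold Q
    by_cases h3 : a < R
    · have h4 : (a : ℝ) ≤ R := by exact_mod_cast h3.le
      have h5 : (0 : ℝ) ≤ a := by exact_mod_cast (by omega)
      simp only [if_pos h3, disc]
      rw [max_eq_left (by omega), rr_low hR (by omega) h4, zz_low h4]
      have b1 := one_sub_cos_le hp.le
      have b2 := cos_le_one (hh k)
      have b3 := z0_pos hk
      have b4 : (a : ℝ) / R ≤ 1 := by rw [div_le_one a1]; exact h4
      have b5 : 0 ≤ (a : ℝ) / R := by positivity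
      apply norm_ring_sub_le
      · rw [abs_le]; constructor <;> nlinarith
      · rw [sub_self, abs_zero, mul_zero, add_zero, abs_le]; constructor <;> nlinarith
      · simp; linarith
    · have h4 : (R : ℝ) ≤ a := by exact_mod_cast (by omega)
      have h5 : (a : ℝ) ≤ NN R k - R := by exact_mod_cast h2
      simp only [if_neg h3, if_pos h2, mob]
      unfold zz
      rw [rr_mid hR h4 h5, clR_mid h4 h5, cos_two_mul]
      have b1 := one_sub_cos_le (by linarith : 0 ≤ hh k / 2)
      have b2 := cos_le_one (hh k / 2)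
      have b3 := cos_le_one (((a : ℝ) - R + 2) * hh k / 2)
      have b4 := neg_one_le_cos (((a : ℝ) - R + 2) * hh k / 2)
      have b5 := neg_one_le_cos (hh k / 2)
      apply norm_ring_sub_le
      · rw [abs_le]; constructor <;> nlinarith
      · rw [sub_self, abs_zero, mul_zero, add_zero, abs_le]; constructor <;> nlinarith
      · simp; linarith
  by_cases h3 : a ≤ NN R k - R
  · exact north a m h1 h3
  · have := north (NN R k - a) (m + a - (R - 2)) (by omega) (by omega)
    have hcl : cl R k a = a := cl_mid (by exact_mod_cast h1) (by exact_mod_cast h2)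
    have e := yv_glide hR (by omega : 4 ≤ k) a m
    rw [hcl] at e
    rw [Q_glide (by omega)] at this
    push_cast at this
    rwa [e, G_neg] at this

lemma lip_clamp (a b s s' : ℝ) : |max a (min s b) - max a (min s' b)| ≤ |s - s'| := by
  refine (abs_max_sub_max_le_max _ _ _ _).trans (max_le (by simp) ?_)
  exact (abs_min_sub_min_le_max _ _ _ _).trans (max_le le_rfl (by simp))

lemma lip_rr (hR : 0 < R) (s s' : ℝ) : |rr R k s - rr R k s'| ≤ |s - s'| / R := by
  have a1 : (0 : ℝ) < R := by exact_mod_cast hR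
  unfold rr
  refine (abs_min_sub_min_le_max _ _ _ _).trans (max_le (by simp; positivity) ?_)
  refine (abs_min_sub_min_le_max _ _ _ _).trans (max_le ?_ ?_)
  · rw [← sub_div, abs_div, abs_of_pos a1]
  · rw [← sub_div, abs_div, abs_of_pos a1, sub_sub_sub_cancel_left, abs_sub_comm]

lemma lip_zz (hk : 0 < k) (s s' : ℝ) : |zz R k s - zz R k s'| ≤ |s - s'| * (hh k / 2) := by
  have hp := hh_pos hk
  unfold zz
  refine (abs_cos_sub_cos_le _ _).trans ?_
  rw [show (clR R k s - R + 2) * hh k / 2 - (clR R k s' - R + 2) * hh k / 2 =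
    (clR R k s - clR R k s') * (hh k / 2) by ring, abs_mul, abs_of_pos (by linarith : 0 < hh k / 2)]
  exact mul_le_mul_of_nonneg_right (lip_clamp _ _ _ _) (by linarith)

lemma lip_sh (s s' : ℝ) : |sh R k s - sh R k s'| ≤ |s - s'| := by
  unfold sh
  have t1 := abs_max_sub_max_le_abs (s - R) (s' - R) 0
  have t2 := abs_max_sub_max_le_abs (s - (NN R k - R)) (s' - (NN R k - R)) 0
  rw [sub_sub_sub_cancel_right] at t1 t2
  rw [abs_le] at t1 t2 ⊢
  constructor <;> linarith [t1.1, t1.2, t2.1, t2.2]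

lemma G_lip (hR : 0 < R) (hk : 8 ≤ k) {s t s' t' : ℝ} (h1 : 0 ≤ s) (h2 : s ≤ NN R k)
    (h1' : 0 ≤ s') (h2' : s' ≤ NN R k) (hs : |s - s'| ≤ 2) (hc : |cl R k s - cl R k s'| ≤ 1)
    (ht : |t - t'| ≤ 1) : ‖G (yv R k s t) - G (yv R k s' t')‖ ≤ 4 / R + 6 * hh k := by
  have hp := hh_pos (by omega : 0 < k)
  have a1 : (0 : ℝ) < R := by exact_mod_cast hR
  rw [G_yv, G_yv]
  have r1 : |rr R k s - rr R k s'| ≤ 2 / R := (lip_rr hR s s').trans (by gcongr)
  have r2 : |zz R k s - zz R k s'| ≤ hh k := (lip_zz (by omega) s s').trans (by nlinarith)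
  have r3 : |ang R k (cl R k s) t - ang R k (cl R k s') t'| ≤ 2 * hh k := by
    unfold ang
    rw [← sub_mul, abs_mul, abs_of_pos hp]
    apply mul_le_mul_of_nonneg_right _ hp.le
    have := (lip_sh (R := R) (k := k) (cl R k s) (cl R k s')).trans hc
    rw [abs_le] at this ht ⊢
    constructor <;> linarith [this.1, this.2, ht.1, ht.2]
  obtain ⟨b1, b2⟩ := rr_range hR h1 h2
  obtain ⟨b3, b4⟩ := rr_range hR h1' h2'
  have b5 := abs_le.1 ((abs_zz_le (R := R) (by omega : 4 ≤ k) s).trans (cos_le_one _))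
  have b6 := abs_le.1 ((abs_zz_le (R := R) (by omega : 4 ≤ k) s').trans (cos_le_one _))
  have e4 : (4 : ℝ) / R = 2 * (2 / R) := by ring
  have e0 : (0 : ℝ) < 2 / R := by positivity
  rw [e4]
  generalize (2 : ℝ) / R = η at *
  generalize rr R k s = r at *
  generalize rr R k s' = r' at *
  generalize zz R k s = z at *
  generalize zz R k s' = z' at *
  have q1 : |r ^ 2 / 2 - r' ^ 2 / 2| ≤ η := by
    rw [show r ^ 2 / 2 - r' ^ 2 / 2 = (r - r') * ((r + r') / 2) by ring, abs_mul,
      abs_of_nonneg (by linarith : 0 ≤ (r + r') / 2)]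
    nlinarith [abs_nonneg (r - r')]
  have q2 : |z ^ 2 - z' ^ 2| ≤ 2 * hh k := by
    rw [show z ^ 2 - z' ^ 2 = (z - z') * (z + z') by ring, abs_mul]
    have : |z + z'| ≤ 2 := by rw [abs_le]; constructor <;> linarith [b5.1, b5.2, b6.1, b6.2]
    nlinarith [abs_nonneg (z - z'), abs_nonneg (z + z')]
  have q3 : |2 * r * z - 2 * r' * z'| ≤ 2 * η + 2 * hh k := by
    rw [show 2 * r * z - 2 * r' * z' = 2 * ((r - r') * z) + 2 * (r' * (z - z')) by ring]
    refine (abs_add_le _ _).trans ?_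
    rw [abs_mul, abs_mul, abs_mul, abs_mul, abs_two, abs_of_nonneg b3]
    have : |z| ≤ 1 := abs_le.2 b5
    nlinarith [abs_nonneg (r - r'), abs_nonneg (z - z'), abs_nonneg z]
  have q4 : |2 * r' * z'| ≤ 2 := by
    rw [abs_mul, abs_mul, abs_two, abs_of_nonneg b3]
    have : |z'| ≤ 1 := abs_le.2 b6
    nlinarith [abs_nonneg z']
  have q5 : |r' ^ 2 / 2| ≤ 1 / 2 := by
    rw [abs_of_nonneg (by positivity)]; nlinarith
  apply norm_ring_sub_le
  · rw [abs_le] at q1 q2 ⊢
    constructor <;> linarith [q1.1, q1.2, q2.1, q2.2]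
  · have := mul_le_mul q4 r3 (abs_nonneg _) (by norm_num)
    linarith
  · have := mul_le_mul q5 r3 (abs_nonneg _) (by norm_num)
    nlinarith

lemma pole_approx (hR : 0 < R) (hk : 8 ≤ k) {s : ℝ} (t : ℝ) (h1 : 0 ≤ s) (h2 : s ≤ NN R k)
    (hw : ww R k s ≠ 1) : ‖pole - G (yv R k s t)‖ ≤ 4 / R + 6 * hh k := by
  have hp := hh_pos (by omega : 0 < k)
  have a1 : (1 : ℝ) ≤ R := by exact_mod_cast hR
  have north : ∀ s t : ℝ, 0 ≤ s → s ≤ 1 → ‖pole - G (yv R k s t)‖ ≤ 4 / R + 6 * hh k := by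
    intro s t h1 h2
    rw [G_yv, rr_low hR (by omega) (by linarith), zz_low (by linarith),
      ← disc_zero (ang R k (cl R k s) t), disc]
    have b1 := one_sub_cos_le hp.le
    have b2 := cos_le_one (hh k)
    have b3 := z0_pos hk
    have b4 : s / R ≤ 1 / R := by gcongr
    have b5 : 0 ≤ s / R := by positivity
    have b6 : (1 : ℝ) / R ≤ 1 := by rw [div_le_one (by linarith)]; exact a1
    have e4 : (4 : ℝ) / R = 4 * (1 / R) := by ring
    rw [e4]
    apply norm_ring_sub_le
    · rw [abs_le]; constructor <;> nlinarith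
    · simp only [sub_self, abs_zero, mul_zero, add_zero]
      rw [abs_le]; constructor <;> nlinarith
    · simp only [sub_self, abs_zero, mul_zero, add_zero]
      rw [abs_le]; constructor <;> nlinarith
  by_cases c : s ≤ 1
  · exact north s t h1 c
  · have c2 : NN R k - s ≤ 1 := by
      by_contra c2
      exact hw (min_eq_left (le_min (not_le.1 c).le (not_le.1 c2).le))
    rw [← G_neg, ← yv_glide hR (by omega)]
    exact north _ _ (by linarith) c2

variable {E : Type*} [NormedAddCommGroup E] [NormedSpace ℝ E]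

theorem J_approx (hR : 0 < R) (hk : 8 ≤ k) (Ψ : V → E) {s : ℝ} (t : ℝ) (h1 : 0 ≤ s)
    (h2 : s ≤ NN R k) (x : E) (ε : ℝ)
    (h : ∀ v, ‖v - G (yv R k s t)‖ ≤ 4 / R + 8 * hh k → ‖Ψ v - x‖ ≤ ε) :
    ‖J R k Ψ s t - x‖ ≤ ε := by
  have hp := hh_pos (by omega : 0 < k)
  have a1 : (1 : ℝ) ≤ R := by exact_mod_cast hR
  have a2 : (8 : ℝ) ≤ k := by exact_mod_cast hk
  have hN : (NN R k : ℝ) = 2 * R + k - 4 := NN_cast
  have c1 : ((1 : ℤ) : ℝ) ≤ cl R k s := by simp [cl]
  have c2 : cl R k s ≤ ((NN R k - 1 : ℤ) : ℝ) := by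
    push_cast; exact max_le (by linarith) (min_le_right _ _)
  have c3 : |cl R k s - s| ≤ 1 := by
    unfold cl
    rcases le_total s 1 with d | d
    · rw [min_eq_left (by linarith), max_eq_left d, abs_le]; constructor <;> linarith
    · rcases le_total s (NN R k - 1) with d2 | d2
      · rw [min_eq_left d2, max_eq_right d]; simp
      · rw [min_eq_right d2, max_eq_right (by linarith), abs_le]; constructor <;> linarith
  have t1 : ‖interp (fun u => Ψ (Q R k u)) (cl R k s) t - x‖ ≤ ε := by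
    apply norm_interp_sub_le
    rintro ⟨a, m⟩ hu
    obtain ⟨u1, u2, _⟩ := hat_ne_zero_iff.1 hu
    simp only at u1 u2
    have r1 : 1 ≤ a := by
      rw [abs_lt] at u1
      have : (0 : ℝ) < a := by push_cast at c1; linarith
      have : 0 < a := by exact_mod_cast this
      omega
    have r2 : a ≤ NN R k - 1 := by
      rw [abs_lt] at u1
      have : (a : ℝ) < NN R k := by push_cast at c2; linarith
      have : a < NN R k := by exact_mod_cast this
      omega
    have r1' : (1 : ℝ) ≤ a := by exact_mod_cast r1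
    have r2' : (a : ℝ) ≤ NN R k - 1 := by exact_mod_cast r2
    apply h
    have v1 := vertex_approx hR hk r1 r2 m
    have v2 := G_lip hR hk (s := a) (t := m) (s' := s) (t' := t) (by linarith) (by linarith) h1 h2
      (by rw [abs_lt] at u1; rw [abs_le] at c3 ⊢; constructor <;> linarith [c3.1, c3.2])
      (by rw [cl_mid r1' r2', abs_sub_comm]; exact u1.le) (by rw [abs_sub_comm]; exact u2.le)
    have v3 := norm_sub_le_norm_sub_add_norm_sub (Q R k (a, m)) (G (yv R k a m)) (G (yv R k s t))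
    linarith
  have w1 : 0 ≤ ww R k s := le_min zero_le_one (le_min h1 (by linarith))
  have w2 : ww R k s ≤ 1 := min_le_left _ _
  unfold J
  by_cases hw : ww R k s = 1
  · rw [hw]; simpa using t1
  · have t2 : ‖Ψ pole - x‖ ≤ ε := h _ ((pole_approx hR hk t h1 h2 hw).trans (by linarith))
    have e : (1 - ww R k s) • Ψ pole + ww R k s • interp (fun u => Ψ (Q R k u)) (cl R k s) t - x =
        (1 - ww R k s) • (Ψ pole - x) +
          ww R k s • (interp (fun u => Ψ (Q R k u)) (cl R k s) t - x) := by module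
    rw [e]
    refine (norm_add_le _ _).trans ?_
    rw [norm_smul, norm_smul, Real.norm_of_nonneg (by linarith), Real.norm_of_nonneg w1]
    nlinarith

end Pool.Agent.Lib.MP_c8c16f_gt
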