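import Mathlib

set_option autoImplicit false

namespace Pool.Agent.Lib.MP_c8c16f_gt

open Set

/-- standard basis vector -/
noncomputable def dl {m : ℕ} (j : Fin m) : Fin m → ℝ := Pi.single j 1

/-- the closed triangle spanned by three points -/
def tri {E : Type*} [AddCommGroup E] [Module ℝ E] (a b c : E) : Set E :=
  {y | ∃ x₁ x₂ x₃ : ℝ, 0 ≤ x₁ ∧ 0 ≤ x₂ ∧ 0 ≤ x₃ ∧ x₁ + x₂ + x₃ = 1 ∧ y = x₁ • a + x₂ • b + x₃ • c}

lemma convex_tri {E : Type*} [AddCommGroup E] [Module ℝ E] (a b c : E) : Convex ℝ (tri a b c) := by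
  rintro y ⟨x₁, x₂, x₃, h1, h2, h3, h4, rfl⟩ z ⟨y₁, y₂, y₃, k1, k2, k3, k4, rfl⟩ s t hs ht hst
  refine ⟨s * x₁ + t * y₁, s * x₂ + t * y₂, s * x₃ + t * y₃, by positivity, by positivity,
    by positivity, ?_, ?_⟩
  · have : s * x₁ + t * y₁ + (s * x₂ + t * y₂) + (s * x₃ + t * y₃) =
        s * (x₁ + x₂ + x₃) + t * (y₁ + y₂ + y₃) := by ring
    rw [this, h4, k4]; linarith
  · module

lemma left_mem_tri {E : Type*} [AddCommGroup E] [Module ℝ E] (a b c : E) : a ∈ tri a b c :=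
  ⟨1, 0, 0, by norm_num, by norm_num, by norm_num, by norm_num, by simp⟩

lemma mid_mem_tri {E : Type*} [AddCommGroup E] [Module ℝ E] (a b c : E) : b ∈ tri a b c :=
  ⟨0, 1, 0, by norm_num, by norm_num, by norm_num, by norm_num, by simp⟩

lemma right_mem_tri {E : Type*} [AddCommGroup E] [Module ℝ E] (a b c : E) : c ∈ tri a b c :=
  ⟨0, 0, 1, by norm_num, by norm_num, by norm_num, by norm_num, by simp⟩

lemma convexHull_eq_tri {E : Type*} [AddCommGroup E] [Module ℝ E] (a b c : E) :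
    convexHull ℝ ({a, b, c} : Set E) = tri a b c := by
  apply Subset.antisymm
  · apply convexHull_min _ (convex_tri a b c)
    intro y hy
    rcases hy with rfl | rfl | rfl
    · exact left_mem_tri _ _ _
    · exact mid_mem_tri _ _ _
    · exact right_mem_tri _ _ _
  · rintro y ⟨x₁, x₂, x₃, h1, h2, h3, h4, rfl⟩
    have := (convex_convexHull ℝ ({a, b, c} : Set E)).sum_mem (t := (Finset.univ : Finset (Fin 3)))
      (w := ![x₁, x₂, x₃]) (z := ![a, b, c]) ?_ ?_ ?_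
    · simpa [Fin.sum_univ_three] using this
    · intro i _; fin_cases i <;> simpa
    · simpa [Fin.sum_univ_three] using h4
    · intro i _
      apply subset_convexHull
      fin_cases i <;> simp

/-- the union of the coordinate triangles listed in `T` -/
def triSet {m : ℕ} (T : Set (Fin m × Fin m × Fin m)) : Set (Fin m → ℝ) :=
  {y | ∃ t ∈ T, y ∈ tri (dl t.1) (dl t.2.1) (dl t.2.2)}

theorem exists_complex {m : ℕ} (T : Set (Fin m × Fin m × Fin m)) :
    ∃ K : Geometry.SimplicialComplex ℝ (Fin m → ℝ), K.faces.Finite ∧ K.space = triSet T := by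
  classical
  let ab : PreAbstractSimplicialComplex (Fin m → ℝ) :=
    { faces := {s | s.Nonempty ∧ ∃ t ∈ T, s ⊆ {dl t.1, dl t.2.1, dl t.2.2}}
      isRelLowerSet_faces := by
        rintro s ⟨hs, t, ht, hst⟩
        exact ⟨hs, fun b hb hbn => ⟨hbn, t, ht, Finset.Subset.trans hb hst⟩⟩ }
  have hind : AffineIndependent ℝ
      (Subtype.val : (⋃ s ∈ ab.faces, (s : Set (Fin m → ℝ))) → (Fin m → ℝ)) := by
    have h1 : LinearIndependent ℝ (fun j : Fin m => dl j) := by
      have := (Pi.basisFun ℝ (Fin m)).linearIndependent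
      convert this using 1
      ext j i
      simp [dl]
    refine h1.affineIndependent.range.mono fun x hx => ?_
    simp only [Set.mem_iUnion, Finset.mem_coe] at hx
    obtain ⟨s, ⟨_, t, _, hst⟩, hx⟩ := hx
    have := hst hx
    simp only [Finset.mem_insert, Finset.mem_singleton] at this
    rcases this with rfl | rfl | rfl <;> exact ⟨_, rfl⟩
  refine ⟨Geometry.SimplicialComplex.ofAffineIndependent ab hind, ?_, ?_⟩
  · apply Set.Finite.subset
      (Finset.finite_toSet ((Finset.univ.image (fun j : Fin m => dl j)).powerset))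
    rintro s ⟨_, t, _, hst⟩
    simp only [Finset.coe_powerset, mem_preimage, mem_powerset_iff]
    intro x hx
    have := hst hx
    simp only [Finset.mem_insert, Finset.mem_singleton] at this
    rcases this with rfl | rfl | rfl <;> simp
  · ext y
    rw [Geometry.SimplicialComplex.mem_space_iff]
    constructor
    · rintro ⟨s, ⟨_, t, ht, hst⟩, hy⟩
      refine ⟨t, ht, ?_⟩
      rw [← convexHull_eq_tri]
      refine convexHull_mono ?_ hy
      intro x hx
      have := hst hx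
      simpa using this
    · rintro ⟨t, ht, hy⟩
      refine ⟨{dl t.1, dl t.2.1, dl t.2.2}, ⟨by simp, t, ht, Finset.Subset.refl _⟩, ?_⟩
      rw [← convexHull_eq_tri] at hy
      simpa using hy

/-- `j` is a vertex of the triangle `t` -/
def mem3 {α : Type*} (j : α) (t : α × α × α) : Prop := j = t.1 ∨ j = t.2.1 ∨ j = t.2.2

lemma dl_mem_tri {m : ℕ} {j : Fin m} {t : Fin m × Fin m × Fin m} (h : mem3 j t) :
    dl j ∈ tri (dl t.1) (dl t.2.1) (dl t.2.2) := by
  rcases h with rfl | rfl | rfl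
  · exact left_mem_tri _ _ _
  · exact mid_mem_tri _ _ _
  · exact right_mem_tri _ _ _

/-- Two-piece property from the absence of non-global local minima among the vertices. -/
theorem tpp {m : ℕ} {E : Type*} [AddCommGroup E] [Module ℝ E]
    (T : Set (Fin m × Fin m × Fin m)) (A : (Fin m → ℝ) →ₗ[ℝ] E)
    (hinj : ∀ i j, (∃ t ∈ T, mem3 i t) → (∃ t ∈ T, mem3 j t) → A (dl i) = A (dl j) → i = j)
    (hloc : ∀ ψ : E →ₗ[ℝ] ℝ, ∀ v, (∃ t ∈ T, mem3 v t) →
      (∀ n, (∃ t ∈ T, mem3 v t ∧ mem3 n t) → n ≠ v → ψ (A (dl v)) < ψ (A (dl n))) →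
      ∀ u, (∃ t ∈ T, mem3 u t) → ψ (A (dl v)) ≤ ψ (A (dl u)))
    (φ : E →ₗ[ℝ] ℝ) (c : ℝ) : IsPreconnected {y | y ∈ triSet T ∧ φ (A y) ≤ c} := by
  classical
  set S := {y | y ∈ triSet T ∧ φ (A y) ≤ c} with hS
  rcases S.eq_empty_or_nonempty with hE | ⟨y0, hy0⟩
  · rw [hE]; exact isPreconnected_empty
  let used : Fin m → Prop := fun j => ∃ t ∈ T, mem3 j t
  obtain ⟨ψ0, hψ0⟩ := Module.exists_dual_forall_apply_ne_zero (K := ℝ)
    (fun p : {p : Fin m × Fin m // used p.1 ∧ used p.2 ∧ p.1 ≠ p.2} =>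
      A (dl p.1.1) - A (dl p.1.2))
    (fun p h => p.2.2.2 (hinj _ _ p.2.1 p.2.2.1 (sub_eq_zero.1 h)))
  obtain ⟨ε, hε, hε2⟩ : ∃ ε : ℝ, 0 < ε ∧ ∀ i j : Fin m, φ (A (dl i)) < φ (A (dl j)) →
      φ (A (dl i)) + ε * ψ0 (A (dl i)) < φ (A (dl j)) + ε * ψ0 (A (dl j)) := by
    have hev : ∀ᶠ ε in nhds (0 : ℝ), ∀ p : Fin m × Fin m, φ (A (dl p.1)) < φ (A (dl p.2)) →
        φ (A (dl p.1)) + ε * ψ0 (A (dl p.1)) < φ (A (dl p.2)) + ε * ψ0 (A (dl p.2)) := by
      rw [Filter.eventually_all]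
      intro p
      by_cases hp : φ (A (dl p.1)) < φ (A (dl p.2))
      · have : ∀ᶠ ε in nhds (0 : ℝ), φ (A (dl p.1)) + ε * ψ0 (A (dl p.1)) <
            φ (A (dl p.2)) + ε * ψ0 (A (dl p.2)) := by
          apply ContinuousAt.eventually_lt (by fun_prop) (by fun_prop)
          simpa using hp
        exact this.mono fun _ h _ => h
      · exact Filter.Eventually.of_forall fun _ h => absurd h hp
    have hev2 : ∀ᶠ ε in nhdsWithin (0 : ℝ) (Ioi 0), _ ∧ ε ∈ Ioi (0 : ℝ) :=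
      (hev.filter_mono nhdsWithin_le_nhds).and self_mem_nhdsWithin
    obtain ⟨ε, h1, h2⟩ := hev2.exists
    exact ⟨ε, h2, fun i j => h1 (i, j)⟩
  let ψ : E →ₗ[ℝ] ℝ := φ + ε • ψ0
  have hψ : ∀ x, ψ x = φ x + ε * ψ0 x := fun x => rfl
  have hne : ∀ i j, used i → used j → i ≠ j → ψ (A (dl i)) ≠ ψ (A (dl j)) := by
    intro i j hi hj hij h
    rw [hψ, hψ] at h
    rcases lt_trichotomy (φ (A (dl i))) (φ (A (dl j))) with h1 | h1 | h1
    · exact absurd h (hε2 i j h1).ne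
    · have h2 := hψ0 ⟨(i, j), hi, hj, hij⟩
      simp only [map_sub] at h2
      apply h2
      have : ε * (ψ0 (A (dl i)) - ψ0 (A (dl j))) = 0 := by linarith
      exact (mul_eq_zero.1 this).resolve_left hε.ne'
    · exact absurd h.symm (hε2 j i h1).ne
  have hle : ∀ i j, ψ (A (dl i)) ≤ ψ (A (dl j)) → φ (A (dl i)) ≤ φ (A (dl j)) := by
    intro i j h
    by_contra hcon
    have := hε2 j i (not_le.1 hcon)
    rw [hψ, hψ] at h
    linarith
  -- each sublevel piece of a triangle is convex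
  have hconv : ∀ t ∈ T, ∀ y z, y ∈ tri (dl t.1) (dl t.2.1) (dl t.2.2) → φ (A y) ≤ c →
      z ∈ tri (dl t.1) (dl t.2.1) (dl t.2.2) → φ (A z) ≤ c → JoinedIn S y z := by
    intro t ht y z hy hyc hz hzc
    have hc : Convex ℝ (tri (dl t.1) (dl t.2.1) (dl t.2.2) ∩ {w | (φ ∘ₗ A) w ≤ c}) :=
      (convex_tri _ _ _).inter (convex_halfSpace_le (φ ∘ₗ A).isLinear c)
    have := (hc.isPathConnected ⟨y, hy, hyc⟩).joinedIn y ⟨hy, hyc⟩ z ⟨hz, hzc⟩
    exact this.mono fun w hw => ⟨⟨t, ht, hw.1⟩, hw.2⟩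
  obtain ⟨t0, ht0, _⟩ := hy0.1
  obtain ⟨v0, hv0, hmin⟩ := (Finset.univ.filter used).exists_min_image (fun j => ψ (A (dl j)))
    ⟨t0.1, Finset.mem_filter.2 ⟨Finset.mem_univ _, t0, ht0, Or.inl rfl⟩⟩
  have hv0u : used v0 := (Finset.mem_filter.1 hv0).2
  have hwf : WellFounded (fun i j : Fin m => ψ (A (dl i)) < ψ (A (dl j))) := by
    have : IsTrans (Fin m) (fun i j : Fin m => ψ (A (dl i)) < ψ (A (dl j))) :=
      ⟨fun _ _ _ => lt_trans⟩
    have : Std.Irrefl (fun i j : Fin m => ψ (A (dl i)) < ψ (A (dl j))) := ⟨fun _ => lt_irrefl _⟩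
    exact Finite.wellFounded_of_trans_of_irrefl _
  have hvert : ∀ v, used v → φ (A (dl v)) ≤ c → JoinedIn S (dl v) (dl v0) := by
    intro v
    induction v using hwf.induction with
    | _ v ih =>
      intro hv hvc
      by_cases hvv : v = v0
      · subst hvv
        obtain ⟨t, ht, hm⟩ := hv
        exact JoinedIn.refl ⟨⟨t, ht, dl_mem_tri hm⟩, hvc⟩
      · have : ∃ n, (∃ t ∈ T, mem3 v t ∧ mem3 n t) ∧ n ≠ v ∧ ψ (A (dl n)) ≤ ψ (A (dl v)) := by
          by_contra hcon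
          push Not at hcon
          have h1 := hloc ψ v hv (fun n hn hnv => hcon n hn hnv) v0 hv0u
          have h2 := hmin v (Finset.mem_filter.2 ⟨Finset.mem_univ _, hv⟩)
          exact hne v v0 hv hv0u hvv (le_antisymm h1 h2)
        obtain ⟨n, ⟨t, ht, hm1, hm2⟩, hnv, hn⟩ := this
        have hnu : used n := ⟨t, ht, hm2⟩
        have hnc : φ (A (dl n)) ≤ c := (hle n v hn).trans hvc
        exact (hconv t ht _ _ (dl_mem_tri hm1) hvc (dl_mem_tri hm2) hnc).trans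
          (ih n (lt_of_le_of_ne hn (hne n v hnu hv hnv)) hnu hnc)
  have hall : ∀ y ∈ S, JoinedIn S y (dl v0) := by
    rintro y ⟨⟨t, ht, hy⟩, hyc⟩
    have : ∃ v, mem3 v t ∧ φ (A (dl v)) ≤ c := by
      by_contra hcon
      push Not at hcon
      have h1 := hcon t.1 (Or.inl rfl)
      have h2 := hcon t.2.1 (Or.inr (Or.inl rfl))
      have h3 := hcon t.2.2 (Or.inr (Or.inr rfl))
      have hc : Convex ℝ {w | c < (φ ∘ₗ A) w} := convex_halfSpace_gt (φ ∘ₗ A).isLinear c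
      have hsub : tri (dl t.1) (dl t.2.1) (dl t.2.2) ⊆ {w | c < (φ ∘ₗ A) w} := by
        rw [← convexHull_eq_tri]
        apply convexHull_min _ hc
        rintro w (rfl | rfl | rfl)
        · exact h1
        · exact h2
        · exact h3
      exact absurd (hsub hy) (not_lt.2 hyc)
    obtain ⟨v, hv, hvc⟩ := this
    exact (hconv t ht _ _ hy hyc (dl_mem_tri hv) hvc).trans (hvert v ⟨t, ht, hv⟩ hvc)
  have hpc : IsPathConnected S :=
    ⟨y0, hy0, fun y hy => (hall y0 hy0).trans (hall y hy).symm⟩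
  exact hpc.isConnected.isPreconnected

end Pool.Agent.Lib.MP_c8c16f_gt
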