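import Mathlib
import Pool.Agent.Lib.MP_c8c16f_gt.Verts
import Pool.Agent.Lib.MP_c8c16f_gt.Complex

set_option autoImplicit false

namespace Pool.Agent.Lib.MP_c8c16f_gt

open Real

variable {R k : ℤ}

lemma dual_cone (L : Fin 4 → V →ₗ[ℝ] ℝ) (n : Fin 4 → V) (v : V) (hv0 : v ≠ 0)
    (hv : ∀ r, L r v = 0) (hd : ∀ r, 0 < L r (n r)) (ho : ∀ r r', r ≠ r' → L r (n r') = 0)
    (φ : V →ₗ[ℝ] ℝ) (hφv : φ v = 0) (hφn : ∀ r, 0 ≤ φ (n r)) (u : V) (hu : ∀ r, 0 ≤ L r u) :
    0 ≤ φ u := by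
  let Ev : V →ₗ[ℝ] (Fin 4 → ℝ) := LinearMap.pi L
  have hsec : ∀ x : Fin 4 → ℝ, Ev (∑ r, (x r / L r (n r)) • n r) = x := by
    intro x
    ext r
    simp only [Ev, LinearMap.pi_apply, map_sum, map_smul, smul_eq_mul]
    rw [Finset.sum_eq_single r]
    · field_simp [(hd r).ne']
    · intro b _ hb; rw [ho r b (Ne.symm hb), mul_zero]
    · simp
  have hsurj : LinearMap.range Ev = ⊤ := LinearMap.range_eq_top.2 fun x => ⟨_, hsec x⟩
  have hker : Module.finrank ℝ (LinearMap.ker Ev) = 1 := by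
    have := LinearMap.finrank_range_add_finrank_ker Ev
    rw [hsurj, finrank_top] at this
    simp only [Module.finrank_fintype_fun_eq_card, Fintype.card_fin] at this
    omega
  have hvk : v ∈ LinearMap.ker Ev := by
    rw [LinearMap.mem_ker]; ext r; exact hv r
  have hw : u - ∑ r, (Ev u r / L r (n r)) • n r ∈ LinearMap.ker Ev := by
    rw [LinearMap.mem_ker, map_sub, hsec, sub_self]
  obtain ⟨c, hc⟩ := (finrank_eq_one_iff_of_nonzero' (⟨v, hvk⟩ : LinearMap.ker Ev)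
    (fun h => hv0 (congrArg Subtype.val h))).1 hker ⟨_, hw⟩
  have hc' : c • v = u - ∑ r, (Ev u r / L r (n r)) • n r := congrArg Subtype.val hc
  have := congrArg φ hc'
  rw [map_smul, hφv, smul_zero, map_sub, map_sum] at this
  have h2 : 0 ≤ ∑ r, φ ((Ev u r / L r (n r)) • n r) := by
    apply Finset.sum_nonneg
    intro r _
    rw [map_smul, smul_eq_mul]
    exact mul_nonneg (div_nonneg (hu r) (hd r).le) (hφn r)
  linarith

/-- the triangles of the triangulation, as triples of vertex vectors -/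
def Tri (R k : ℤ) : Set (V × V × V) :=
  {t | ∃ a m : ℤ, 0 ≤ a ∧ a ≤ NN R k - 2 ∧
    t = (Q R k (a + 1, m + 1), Q R k (a + 1, m), Q R k (a, m + 1))}

def Adj (R k : ℤ) (x y : V) : Prop := ∃ t ∈ Tri R k, mem3 x t ∧ mem3 y t

lemma Adj.symm {x y : V} (h : Adj R k x y) : Adj R k y x := by
  obtain ⟨t, ht, h1, h2⟩ := h; exact ⟨t, ht, h2, h1⟩

lemma adj_up {a : ℤ} (h1 : 0 ≤ a) (h2 : a ≤ NN R k - 2) (m : ℤ) :
    Adj R k (Q R k (a, m)) (Q R k (a + 1, m)) :=
  ⟨_, ⟨a, m - 1, h1, h2, rfl⟩, Or.inr (Or.inr (by simp)), Or.inl (by simp)⟩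

lemma adj_up' {a : ℤ} (h1 : 0 ≤ a) (h2 : a ≤ NN R k - 2) (m : ℤ) :
    Adj R k (Q R k (a, m)) (Q R k (a + 1, m - 1)) :=
  ⟨_, ⟨a, m - 1, h1, h2, rfl⟩, Or.inr (Or.inr (by simp)), Or.inr (Or.inl rfl)⟩

lemma adj_right {a : ℤ} (h1 : 1 ≤ a) (h2 : a ≤ NN R k - 1) (m : ℤ) :
    Adj R k (Q R k (a, m)) (Q R k (a, m + 1)) :=
  ⟨_, ⟨a - 1, m, by omega, by omega, rfl⟩, Or.inr (Or.inl (by simp)), Or.inl (by simp)⟩

lemma adj_left {a : ℤ} (h1 : 1 ≤ a) (h2 : a ≤ NN R k - 1) (m : ℤ) :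
    Adj R k (Q R k (a, m)) (Q R k (a, m - 1)) := by
  have := (adj_right h1 h2 (m - 1)).symm
  rwa [sub_add_cancel] at this

lemma adj_down {a : ℤ} (h1 : 1 ≤ a) (h2 : a ≤ NN R k - 1) (m : ℤ) :
    Adj R k (Q R k (a, m)) (Q R k (a - 1, m)) := by
  have := (adj_up (R := R) (k := k) (a := a - 1) (by omega) (by omega) m).symm
  rwa [sub_add_cancel] at this

lemma adj_down' {a : ℤ} (h1 : 1 ≤ a) (h2 : a ≤ NN R k - 1) (m : ℤ) :
    Adj R k (Q R k (a, m)) (Q R k (a - 1, m + 1)) :=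
  ⟨_, ⟨a - 1, m, by omega, by omega, rfl⟩, Or.inr (Or.inl (by simp)), Or.inr (Or.inr rfl)⟩

lemma node_zero {a m l : ℤ} (h1 : R ≤ a) (h2 : a ≤ NN R k - R)
    (h : l - m = 0 ∨ l - m = 1 ∨ l - (m + a - R + 2) = 0 ∨ l - (m + a - R + 2) = 1) :
    node k l (Q R k (a, m)) = 0 := by
  rw [node_mob h1 h2]
  rcases h with h | h | h | h <;> rw [h] <;> simp [eps_zero, eps_one]

lemma node_pos {a m l : ℤ} (h1 : R ≤ a) (h2 : a ≤ NN R k - R)
    (h : (2 ≤ l - m ∧ l - m ≤ k - 1) ∨ (2 - k ≤ l - m ∧ l - m ≤ -1))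
    (h' : (2 ≤ l - (m + a - R + 2) ∧ l - (m + a - R + 2) ≤ k - 1) ∨
      (2 - k ≤ l - (m + a - R + 2) ∧ l - (m + a - R + 2) ≤ -1)) :
    0 < node k l (Q R k (a, m)) := by
  rw [node_mob h1 h2]
  apply mul_pos
  · rcases h with h | h
    · exact eps_pos h.1 h.2
    · exact eps_pos' h.1 h.2
  · rcases h' with h | h
    · exact eps_pos h.1 h.2
    · exact eps_pos' h.1 h.2

lemma Q_up_ne (hk : 4 ≤ k) (hG : Good R (hh k)) {a : ℤ} (h1 : 0 ≤ a) (h2 : a < R) (m : ℤ) :
    Q R k (a + 1, m) ≠ Q R k (a, m) := by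
  rw [Q_north hk (by omega) (by omega), Q_north hk h1 h2.le]
  intro h
  have e0 : A0 R (hh k) (a + 1) = A0 R (hh k) a := congrFun h 0
  have e1 : A1 R (hh k) (a + 1) * cos (m * hh k) = A1 R (hh k) a * cos (m * hh k) := congrFun h 1
  have e2 : A1 R (hh k) (a + 1) * sin (m * hh k) = A1 R (hh k) a * sin (m * hh k) := congrFun h 2
  have e3 : A1 R (hh k) (a + 1) = A1 R (hh k) a := by
    linear_combination (cos (m * hh k)) * e1 + (sin (m * hh k)) * e2 -
      (A1 R (hh k) (a + 1) - A1 R (hh k) a) * cos_sq_add_sin_sq (m * hh k)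
  have := hG.mono a h1 h2
  rw [e0, e3] at this
  exact lt_irrefl _ this

theorem locmin {k' : ℤ} (hR : 0 < R) (hk : k = 4 * k') (hk' : 2 ≤ k') (hG : Good R (hh k))
    (φ : V →ₗ[ℝ] ℝ) {a : ℤ} (m : ℤ) (h1 : 0 ≤ a) (h2 : 2 * a ≤ NN R k)
    (hv : φ (Q R k (a, m)) = 0)
    (hn : ∀ y, Adj R k (Q R k (a, m)) y → y ≠ Q R k (a, m) → 0 < φ y) (u : ℤ × ℤ) :
    0 ≤ φ (Q R k u) := by
  have hN : NN R k = 2 * R + k - 4 := rfl
  have hn' : ∀ y, Adj R k (Q R k (a, m)) y → 0 ≤ φ y := by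
    intro y hy
    by_cases h : y = Q R k (a, m)
    · rw [h, hv]
    · exact (hn y hy h).le
  rcases eq_or_lt_of_le h1 with h0 | h0
  · exfalso
    subst h0
    have hp : ∀ n, 0 < φ (Q R k (1, n)) := by
      intro n
      have e : Q R k (0, m) = Q R k (0, n) := by rw [Q_pole hR le_rfl, Q_pole hR le_rfl]
      rw [e] at hn
      exact hn _ (adj_up le_rfl (by omega) n) (Q_up_ne (by omega) hG le_rfl hR n)
    have := congrArg φ (pole_comb (R := R) hk (by omega) hR)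
    rw [Q_pole hR le_rfl] at hv
    rw [map_smul, hv, map_add, map_add, map_add, smul_zero] at this
    linarith [hp 0, hp k', hp (2 * k'), hp (3 * k')]
  by_cases h3 : a < R
  · exfalso
    obtain ⟨p, q, r, hp, hq, e⟩ := Q_comb (by omega) hG h0 h3 m
    have := congrArg φ e
    simp only [map_smul, map_add, hv, smul_eq_mul, mul_zero] at this
    have t1 := hn' _ (adj_right h0 (by omega) m)
    have t2 := hn' _ (adj_left h0 (by omega) m)
    have t3 := mul_pos hp (hn _ (adj_up h1 (by omega) m) (Q_up_ne (by omega) hG h1 h3 m))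
    have t4 := mul_nonneg hq (hn' _ (adj_down h0 (by omega) m))
    linarith
  have hv0 : Q R k (a, m) ≠ 0 := by
    intro h
    have := node_pos (R := R) (k := k) (a := a) (m := m) (l := m - 1) (by omega) (by omega)
      (by omega) (by omega)
    rw [h, map_zero] at this
    exact lt_irrefl _ this
  have hL : ∀ r : Fin 4, ∃ l, (![node k m, node k (m + 1), node k (m + a - R + 2),
      node k (m + a - R + 2 + 1)] : Fin 4 → V →ₗ[ℝ] ℝ) r = node k l := by
    intro r; fin_cases r <;> exact ⟨_, rfl⟩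
  by_cases h4 : a = R
  · refine dual_cone ![node k m, node k (m + 1), node k (m + a - R + 2), node k (m + a - R + 2 + 1)]
      ![Q R k (a, m + 1), Q R k (a + 1, m - 1), Q R k (a + 1, m), Q R k (a, m - 1)] _ hv0
      ?_ ?_ ?_ φ hv ?_ _ ?_
    · intro r; fin_cases r <;> exact node_zero (by omega) (by omega) (by omega)
    · intro r; fin_cases r <;> exact node_pos (by omega) (by omega) (by omega) (by omega)
    · intro r r' hr
      fin_cases r <;> fin_cases r' <;>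
        first | exact absurd rfl hr | exact node_zero (by omega) (by omega) (by omega)
    · intro r; fin_cases r
      · exact hn' _ (adj_right h0 (by omega) m)
      · exact hn' _ (adj_up' h1 (by omega) m)
      · exact hn' _ (adj_up h1 (by omega) m)
      · exact hn' _ (adj_left h0 (by omega) m)
    · intro r
      obtain ⟨l, hl⟩ := hL r
      rw [hl]; exact node_nonneg hR (by omega) l u
  · refine dual_cone ![node k m, node k (m + 1), node k (m + a - R + 2), node k (m + a - R + 2 + 1)]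
      ![Q R k (a - 1, m + 1), Q R k (a + 1, m - 1), Q R k (a + 1, m), Q R k (a - 1, m)] _ hv0
      ?_ ?_ ?_ φ hv ?_ _ ?_
    · intro r; fin_cases r <;> exact node_zero (by omega) (by omega) (by omega)
    · intro r; fin_cases r <;> exact node_pos (by omega) (by omega) (by omega) (by omega)
    · intro r r' hr
      fin_cases r <;> fin_cases r' <;>
        first | exact absurd rfl hr | exact node_zero (by omega) (by omega) (by omega)
    · intro r; fin_cases r
      · exact hn' _ (adj_down' h0 (by omega) m)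
      · exact hn' _ (adj_up' h1 (by omega) m)
      · exact hn' _ (adj_up h1 (by omega) m)
      · exact hn' _ (adj_down h0 (by omega) m)
    · intro r
      obtain ⟨l, hl⟩ := hL r
      rw [hl]; exact node_nonneg hR (by omega) l u

/-- the same for any vertex of the strip -/
theorem locmin' {k' : ℤ} (hR : 0 < R) (hk : k = 4 * k') (hk' : 2 ≤ k') (hG : Good R (hh k))
    (φ : V →ₗ[ℝ] ℝ) {a : ℤ} (m : ℤ) (h1 : 0 ≤ a) (h2 : a ≤ NN R k)
    (hv : φ (Q R k (a, m)) = 0)
    (hn : ∀ y, Adj R k (Q R k (a, m)) y → y ≠ Q R k (a, m) → 0 < φ y) (u : ℤ × ℤ) :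
    0 ≤ φ (Q R k u) := by
  by_cases h : 2 * a ≤ NN R k
  · exact locmin hR hk hk' hG φ m h1 h hv hn u
  · rw [← Q_glide (by omega)] at hv hn
    exact locmin hR hk hk' hG φ _ (by omega) (by omega) hv hn u

end Pool.Agent.Lib.MP_c8c16f_gt
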