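import Mathlib
import Pool.Agent.Lib.MP_c8c16f_gt.LocMin
import Pool.Agent.Lib.MP_c8c16f_gt.Strip

set_option autoImplicit false

namespace Pool.Agent.Lib.MP_c8c16f_gt

open Real

variable {R k : ℤ}
variable {E : Type*} [NormedAddCommGroup E] [NormedSpace ℝ E]

lemma J_congr (hR : 0 < R) (Ψ Ψ' : V → E) (h : ∀ u, Ψ (Q R k u) = Ψ' (Q R k u)) (s t : ℝ) :
    J R k Ψ s t = J R k Ψ' s t := by
  unfold J
  have := h (0, 0)
  rw [Q_pole hR le_rfl] at this
  simp only [h, this]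

lemma J_one (s t : ℝ) : J R k (fun _ => (1 : ℝ)) s t = 1 := by
  unfold J
  have := interp_affine 1 0 0 (cl R k s) t
  simp only [zero_mul, add_zero] at this
  rw [this]; simp

lemma J_mem_tri (hR : 0 < R) (hk : 8 ≤ k) (Ψ : V → E) {s : ℝ} (t : ℝ) (h1 : 0 ≤ s)
    (h2 : s ≤ NN R k) : ∃ T ∈ Tri R k, J R k Ψ s t ∈ tri (Ψ T.1) (Ψ T.2.1) (Ψ T.2.2) := by
  have hN : NN R k = 2 * R + k - 4 := rfl
  have hNr : (NN R k : ℝ) = 2 * R + k - 4 := NN_cast
  have hRr : (1 : ℝ) ≤ R := by exact_mod_cast hR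
  have hkr : (8 : ℝ) ≤ k := by exact_mod_cast hk
  have half : ∀ s t : ℝ, 0 ≤ s → 2 * s ≤ NN R k →
      ∃ T ∈ Tri R k, J R k Ψ s t ∈ tri (Ψ T.1) (Ψ T.2.1) (Ψ T.2.2) := by
    intro s t h1 h2
    obtain ⟨a, σ, p1, p2, rfl⟩ := exists_cell s
    obtain ⟨m, ω, p3, p4, rfl⟩ := exists_cell t
    have ha : 0 ≤ a := by
      have : (-1 : ℝ) < a := by linarith
      have : (-1 : ℤ) < a := by exact_mod_cast this
      omega
    have ha2 : 2 * a ≤ NN R k := by
      have : 2 * (a : ℝ) ≤ NN R k := by linarith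
      exact_mod_cast this
    rcases eq_or_lt_of_le ha with h0 | h0
    · subst h0
      refine ⟨_, ⟨0, m, le_rfl, by omega, rfl⟩, σ * ω, σ * (1 - ω), 1 - σ, mul_nonneg p1 p3,
        mul_nonneg p1 (by linarith), by linarith, by ring, ?_⟩
      rw [Int.cast_zero, zero_add, J_top (by omega) Ψ m p2.le p3 p4.le, Q_pole hR le_rfl (m + 1),
        zero_add]
    · have a1 : (1 : ℝ) ≤ a := by exact_mod_cast h0
      rw [J_mid Ψ (by linarith) (by linarith)]
      rcases le_total (σ + ω) 1 with h | h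
      · refine ⟨_, ⟨NN R k - a - 1, m + a - (R - 2), by omega, by omega, rfl⟩, ω, 1 - σ - ω, σ,
          p3, by linarith, p1, by ring, ?_⟩
        rw [interp_lower _ a m p1 p3 h, ← Q_glide (by omega) a m, ← Q_glide (by omega) (a + 1) m,
          ← Q_glide (by omega) a (m + 1)]
        simp only [sub_add_cancel]
        rw [show m + 1 + a - (R - 2) = m + a - (R - 2) + 1 by ring,
          show m + (a + 1) - (R - 2) = m + a - (R - 2) + 1 by ring,
          show NN R k - (a + 1) = NN R k - a - 1 by ring]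
        module
      · exact ⟨_, ⟨a, m, ha, by omega, rfl⟩, σ + ω - 1, 1 - ω, 1 - σ, by linarith, by linarith,
          by linarith, by ring, interp_upper _ a m p2.le p4.le h⟩
  by_cases hc : 2 * s ≤ NN R k
  · exact half s t h1 hc
  · rw [← J_glide hR (by omega)]
    exact half _ _ (by linarith) (by linarith)

lemma tri_subset_J (hR : 0 < R) (hk : 8 ≤ k) (Ψ : V → E) {T : V × V × V} (hT : T ∈ Tri R k)
    {y : E} (hy : y ∈ tri (Ψ T.1) (Ψ T.2.1) (Ψ T.2.2)) :
    ∃ s t : ℝ, 0 ≤ s ∧ s ≤ NN R k ∧ 0 ≤ t ∧ t ≤ k ∧ J R k Ψ s t = y := by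
  have hN : NN R k = 2 * R + k - 4 := rfl
  obtain ⟨a, m, ha, ha2, rfl⟩ := hT
  obtain ⟨x1, x2, x3, p1, p2, p3, p4, rfl⟩ := hy
  have a0 : (0 : ℝ) ≤ a := by exact_mod_cast ha
  have a2 : (a : ℝ) ≤ NN R k - 2 := by exact_mod_cast ha2
  suffices h : ∃ s t : ℝ, 0 ≤ s ∧ s ≤ NN R k ∧ J R k Ψ s t =
      x1 • Ψ (Q R k (a + 1, m + 1)) + x2 • Ψ (Q R k (a + 1, m)) + x3 • Ψ (Q R k (a, m + 1)) by
    obtain ⟨s, t0, h1, h2, h3⟩ := h
    have hk0 : (0 : ℝ) < k := by exact_mod_cast (by omega : 0 < k)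
    have f1 := Int.floor_le (t0 / k)
    have f2 := Int.lt_floor_add_one (t0 / k)
    rw [le_div_iff₀ hk0] at f1
    rw [div_lt_iff₀ hk0] at f2
    exact ⟨s, t0 + k * ((-⌊t0 / k⌋ : ℤ) : ℝ), h1, h2, by push_cast; linarith,
      by push_cast; linarith, by rw [J_shift (by omega), h3]⟩
  rcases eq_or_lt_of_le ha with h0 | h0
  · subst h0
    have q1 : 0 ≤ x1 / (x1 + x2) := by positivity
    have q2 : x1 / (x1 + x2) ≤ 1 := div_le_one_of_le₀ (by linarith) (by linarith)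
    have q3 : (x1 + x2) * (x1 / (x1 + x2)) = x1 := by
      rcases eq_or_lt_of_le (add_nonneg p1 p2) with h | h
      · rw [← h, zero_mul]; linarith
      · field_simp
    refine ⟨x1 + x2, m + x1 / (x1 + x2), by linarith, by simp at a2; linarith, ?_⟩
    rw [J_top (by omega) Ψ m (by linarith) q1 q2, Q_pole hR le_rfl (m + 1), zero_add, mul_sub, q3]
    congr 3 <;> linarith
  · have a1 : (1 : ℝ) ≤ a := by exact_mod_cast h0
    refine ⟨a + (x1 + x2), m + (x1 + x3), by linarith, by linarith, ?_⟩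
    rw [J_mid Ψ (by linarith) (by linarith),
      interp_upper _ a m (by linarith) (by linarith) (by linarith)]
    congr 3 <;> linarith

lemma exists_index (hR : 0 < R) (hk : 4 ≤ k) :
    ∃ (m : ℕ) (ι : V → Fin m) (ρ : Fin m → V), ∀ u, ρ (ι (Q R k u)) = Q R k u := by
  classical
  let S : Finset V := (Finset.Icc 0 (NN R k) ×ˢ Finset.Icc 0 k).image (Q R k)
  have hN : NN R k = 2 * R + k - 4 := rfl
  have h0 : pole ∈ S := Finset.mem_image.2 ⟨(0, 0), by simp; omega, Q_pole hR le_rfl 0⟩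
  have hS : ∀ u, Q R k u ∈ S := by
    rintro ⟨a, m⟩
    by_cases h1 : a ≤ 0
    · rw [Q_pole hR h1]; exact h0
    by_cases h2 : NN R k ≤ a
    · rw [Q_pole' hR hk h2]; exact h0
    have e1 := Int.emod_add_mul_ediv m k
    have e2 := Int.emod_nonneg m (by omega : k ≠ 0)
    have e3 := Int.emod_lt_of_pos m (by omega : 0 < k)
    refine Finset.mem_image.2 ⟨(a, m % k), by simp; omega, ?_⟩
    rw [← Q_shift (by omega) a (m % k) (m / k), e1]
  refine ⟨S.card, fun v => if h : v ∈ S then S.equivFin ⟨v, h⟩ else S.equivFin ⟨pole, h0⟩,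
    fun j => (S.equivFin.symm j : V), fun u => ?_⟩
  simp [hS u]

end Pool.Agent.Lib.MP_c8c16f_gt
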