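import Pool.Agent.Lib.MP_c8c16f_gt.Main

set_option autoImplicit false

namespace Pool.Agent.Lib.MP_c8c16f_gt

open Real Filter Topology

variable {u : Fin 4 → Fin 6 → ℝ}

theorem step_emb (M : Model u) {ε : ℝ} (hε : 0 < ε) :
    ∃ g : RP → (Fin 4 → ℝ), (Continuous g ∧
        (∃ (m : ℕ) (K : Geometry.SimplicialComplex ℝ (Fin m → ℝ)) (h : K.space ≃ₜ RP),
          K.faces.Finite ∧
          ∀ s ∈ K.faces, ∃ A : (Fin m → ℝ) →ᵃ[ℝ] (Fin 4 → ℝ),
            ∀ (y : Fin m → ℝ) (hy : y ∈ K.space),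
              y ∈ convexHull ℝ (s : Set (Fin m → ℝ)) → g (h ⟨y, hy⟩) = A y) ∧
        Function.Injective g ∧
        (∀ (a : Fin 4 → ℝ) (c : ℝ), IsPreconnected (g ⁻¹' {z | ∑ i, a i * z i ≤ c}))) ∧
      ∀ x : Sph, ‖g (Quot.mk _ x) - proj u (sym x.1 x.1)‖ ≤ ε := by
  obtain ⟨δ, hδ, hΞ⟩ := exists_delta M hε
  obtain ⟨R, k, k', hR, hkk, hk', hG, hsmall⟩ := exists_params hδ
  have hk : 8 ≤ k := by omega
  have hN : NN R k = 2 * R + k - 4 := rfl
  have hp := hh_pos (by omega : 0 < k)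
  have hRr : (0 : ℝ) < R := by exact_mod_cast hR
  have hτQ : ∀ w, 0 < M.τ (Q R k w) := by
    have hpole : 0 < M.τ pole := by
      have : G ![0, 0, 1] = pole := by
        ext i; fin_cases i <;> simp [G, pole]
      rw [← this]
      refine tau_pos M fun h => ?_
      simpa using congrFun h 2
    rintro ⟨a, m⟩
    by_cases h1 : a ≤ 0
    · rw [Q_pole hR h1]; exact hpole
    by_cases h2 : NN R k ≤ a
    · rw [Q_pole' hR (by omega) h2]; exact hpole
    obtain ⟨b1, b2⟩ := yv_bounds hR hk (s := a) m (by exact_mod_cast (by omega))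
      (by exact_mod_cast (by omega))
    refine (hΞ _ b1 b2 _ ((vertex_approx hR hk (by omega) (by omega) m).trans ?_)).1
    have : 0 < 4 / (R : ℝ) := by positivity
    linarith
  obtain ⟨m, ι, ρ, hρ⟩ := exists_index hR (by omega : 4 ≤ k)
  let κ : V → ℝ := fun v => (M.τ v)⁻¹
  have hκ : ∀ w, 0 < κ (Q R k w) := fun w => inv_pos.2 (hτQ w)
  let A' : (Fin m → ℝ) →ₗ[ℝ] V := (Pi.basisFun ℝ (Fin m)).constr ℝ (fun j => κ (ρ j) • ρ j)
  have hA' : ∀ w, A' (dl (ι (Q R k w))) = κ (Q R k w) • Q R k w := by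
    intro w
    have := (Pi.basisFun ℝ (Fin m)).constr_basis ℝ (fun j => κ (ρ j) • ρ j) (ι (Q R k w))
    rw [Pi.basisFun_apply, hρ] at this
    exact this
  let A : (Fin m → ℝ) →ₗ[ℝ] (Fin 4 → ℝ) := M.Λ ∘ₗ A'
  have hA : ∀ w, A (dl (ι (Q R k w))) = Xi M (Q R k w) := by
    intro w
    show M.Λ (A' _) = _
    rw [hA', map_smul]; rfl
  let B : ℝ → ℝ → (Fin m → ℝ) := J R k (fun v => dl (ι v))
  have hA'B : ∀ s t, A' (B s t) = J R k (fun v => κ v • v) s t := fun s t => by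
    rw [map_J]; exact J_congr hR _ _ hA' s t
  have hAB : ∀ s t, A (B s t) = J R k (Xi M) s t := fun s t => by
    rw [map_J]; exact J_congr hR _ _ hA s t
  have hτB : ∀ s t, M.τ (A' (B s t)) = 1 := fun s t => by
    rw [hA'B, map_J, ← J_one (R := R) (k := k) s t]
    apply J_congr hR
    intro w
    rw [map_smul, smul_eq_mul]
    exact inv_mul_cancel₀ (hτQ w).ne'
  let T : Set (Fin m × Fin m × Fin m) := (fun t : V × V × V => (ι t.1, ι t.2.1, ι t.2.2)) '' Tri R k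
  obtain ⟨K, hKfin, hK⟩ := exists_complex T
  -- the compact parameter domain
  let D := Set.Icc (0 : ℝ) (NN R k) × Set.Icc (0 : ℝ) k
  have hNl : ∀ s t, M.Nl (yv R k s t) ≠ 0 := fun s t h =>
    yv_ne_zero hR hk s t (M.inj (by rw [h, map_zero]))
  let P : D → Sph := fun ξ => ⟨nrm (M.Nl (yv R k ξ.1 ξ.2)), nrm_sq (hNl _ _)⟩
  have hDc : Continuous (fun ξ : D => ((ξ.1 : ℝ), (ξ.2 : ℝ))) :=
    (continuous_subtype_val.comp continuous_fst).prodMk (continuous_subtype_val.comp continuous_snd)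
  have hcy : Continuous (fun ξ : D => M.Nl (yv R k ξ.1 ξ.2)) :=
    M.Nl.continuous_of_finiteDimensional.comp
      (continuous_yv.comp (f := fun ξ : D => ((ξ.1 : ℝ), (ξ.2 : ℝ))) hDc)
  have hP : Continuous P := by
    apply Continuous.subtype_mk
    unfold nrm
    refine Continuous.smul (Continuous.inv₀ ?_ fun ξ => (sqrt_pos.2 (dot_self_pos (hNl _ _))).ne')
      hcy
    unfold dot
    fun_prop
  have hPs : Function.Surjective P := by
    rintro ⟨x, hx⟩
    obtain ⟨y, rfl⟩ := LinearMap.injective_iff_surjective.1 M.inj x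
    have hy : y ≠ 0 := by
      rintro rfl
      simp at hx
    obtain ⟨l, s, t, hl, s1, s2, t1, t2, e⟩ := yv_surj hR hk y hy
    refine ⟨(⟨s, s1, s2⟩, ⟨t, t1, t2⟩), Subtype.ext ?_⟩
    show nrm (M.Nl (yv R k s t)) = M.Nl y
    rw [e, map_smul, nrm_smul (by rw [dot_self, hx]) hl]
  have hBc : Continuous (fun ξ : D => B ξ.1 ξ.2) :=
    (continuous_J (fun v => dl (ι v))).comp (f := fun ξ : D => ((ξ.1 : ℝ), (ξ.2 : ℝ))) hDc
  have hsame : ∀ s t s' t' : ℝ, 0 ≤ s → s ≤ NN R k → 0 ≤ s' → s' ≤ NN R k →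
      nrm (M.Nl (yv R k s t)) = nrm (M.Nl (yv R k s' t')) → B s t = B s' t' := by
    intro s t s' t' h1 h2 h1' h2' h
    obtain ⟨l, hl, e⟩ := exists_of_nrm_eq (hNl _ _) (hNl _ _) h
    rw [← map_smul] at e
    have e2 := M.inj e
    rw [yv_scale hR hk h1 h2 h1' h2' hl e2, one_smul] at e2
    exact J_eq_of_yv_eq hR hk _ h1 h2 h1' h2' e2
  obtain ⟨b, hbc, hb⟩ := descend P hP hPs (fun ξ : D => B ξ.1 ξ.2) hBc (by
    rintro ⟨⟨s, s1, s2⟩, ⟨t, _⟩⟩ ⟨⟨s', s1', s2'⟩, ⟨t', _⟩⟩ (h | h)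
    · exact hsame s t s' t' s1 s2 s1' s2' h
    · have h' : nrm (M.Nl (yv R k s t)) = -nrm (M.Nl (yv R k s' t')) := h
      rw [← nrm_neg, ← map_neg, ← yv_glide hR (by omega)] at h'
      exact (hsame _ _ _ _ s1 s2 (by linarith) (by linarith) h').trans
        (J_glide hR (by omega) _ s' t'))
  have hsurjRP : ∀ x : RP, ∃ ξ : D, Quot.mk _ (P ξ) = x := by
    intro x
    obtain ⟨x, rfl⟩ := Quot.mk_surjective x
    obtain ⟨ξ, rfl⟩ := hPs x
    exact ⟨ξ, rfl⟩
  have hginj : Function.Injective (fun x => A (b x)) := by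
    intro x y hxy
    obtain ⟨⟨⟨s, s1, s2⟩, ⟨t, t1⟩⟩, rfl⟩ := hsurjRP x
    obtain ⟨⟨⟨s', s1', s2'⟩, ⟨t', t1'⟩⟩, rfl⟩ := hsurjRP y
    simp only [hb] at hxy
    have e : A' (B s t) = A' (B s' t') := by
      rw [← sub_eq_zero]
      apply M.ker
      · rw [map_sub, sub_eq_zero]; exact hxy
      · rw [map_sub, hτB, hτB, sub_self]
    rw [hA'B, hA'B] at e
    apply Quot.sound
    rcases inj_J hR hk hG κ hκ s1 s2 s1' s2' e with h | h
    · left
      show nrm (M.Nl (yv R k s t)) = nrm (M.Nl (yv R k s' t'))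
      rw [h]
    · right
      show nrm (M.Nl (yv R k s t)) = -nrm (M.Nl (yv R k s' t'))
      rw [h, map_neg, nrm_neg]
  have hbmem : ∀ x, b x ∈ K.space := by
    intro x
    obtain ⟨⟨⟨s, s1, s2⟩, ⟨t, t1⟩⟩, rfl⟩ := hsurjRP x
    rw [hb, hK]
    obtain ⟨T0, hT0, hm⟩ := J_mem_tri hR hk (fun v => dl (ι v)) t s1 s2
    exact ⟨_, ⟨T0, hT0, rfl⟩, hm⟩
  have hbsurj : ∀ y ∈ triSet T, ∃ x, b x = y := by
    rintro y ⟨_, ⟨T0, hT0, rfl⟩, hy⟩
    obtain ⟨s, t, s1, s2, t1, t2, e⟩ := tri_subset_J hR hk (fun v => dl (ι v)) hT0 hy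
    exact ⟨Quot.mk _ (P (⟨s, s1, s2⟩, ⟨t, t1, t2⟩)), (hb _).trans e⟩
  have hbinj : Function.Injective b := fun x y h => hginj (congrArg A h)
  have : CompactSpace RP := by
    constructor
    have : IsCompact (Set.range (fun ξ : D => (Quot.mk _ (P ξ) : RP))) :=
      isCompact_range (continuous_quot_mk.comp hP)
    rwa [Set.range_eq_univ.2 hsurjRP] at this
  let eqv : RP ≃ K.space := Equiv.ofBijective (fun x => ⟨b x, hbmem x⟩)
    ⟨fun x y h => hbinj (congrArg Subtype.val h), fun y => by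
      obtain ⟨x, hx⟩ := hbsurj y.1 (hK ▸ y.2)
      exact ⟨x, Subtype.ext hx⟩⟩
  have heqv : Continuous eqv := hbc.subtype_mk _
  let H : RP ≃ₜ K.space := heqv.homeoOfEquivCompactToT2
  refine ⟨fun x => A (b x), ⟨A.continuous_of_finiteDimensional.comp hbc,
    ⟨m, K, H.symm, hKfin, fun s _ => ⟨A.toAffineMap, fun y hy _ => ?_⟩⟩,
    hginj, ?_⟩, ?_⟩
  · have := congrArg Subtype.val (H.apply_symm_apply ⟨y, hy⟩)
    exact congrArg A this
  · intro a c
    let φ : (Fin 4 → ℝ) →ₗ[ℝ] ℝ :=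
      { toFun := fun z => ∑ i, a i * z i
        map_add' := fun p q => by simp [mul_add, Finset.sum_add_distrib]
        map_smul' := fun c p => by
          simp only [Pi.smul_apply, smul_eq_mul, RingHom.id_apply, Finset.mul_sum]
          apply Finset.sum_congr rfl; intro k _; ring }
    have hused : ∀ j, (∃ t ∈ T, mem3 j t) → ∃ a m : ℤ, 0 ≤ a ∧ a ≤ NN R k ∧
        j = ι (Q R k (a, m)) := by
      rintro j ⟨_, ⟨_, ⟨a, m, h1, h2, rfl⟩, rfl⟩, h | h | h⟩
      · exact ⟨a + 1, m + 1, by omega, by omega, h⟩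
      · exact ⟨a + 1, m, by omega, by omega, h⟩
      · exact ⟨a, m + 1, by omega, by omega, h⟩
    have hT := tpp T A ?_ ?_ φ c
    · have hind : IsInducing b := IsInducing.subtypeVal.comp H.isInducing
      rw [← hind.isPreconnected_image]
      convert hT using 1
      ext y
      constructor
      · rintro ⟨x, hx, rfl⟩
        exact ⟨hK ▸ hbmem x, hx⟩
      · rintro ⟨hy1, hy2⟩
        obtain ⟨x, rfl⟩ := hbsurj y hy1
        exact ⟨x, hy2, rfl⟩
    · rintro i j ⟨t, ht, hi⟩ ⟨t', ht', hj⟩ h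
      obtain ⟨x, hx⟩ := hbsurj (dl i) ⟨t, ht, dl_mem_tri hi⟩
      obtain ⟨y, hy⟩ := hbsurj (dl j) ⟨t', ht', dl_mem_tri hj⟩
      have e : x = y := hginj (by simp only [hx, hy, h])
      rw [e, hy] at hx
      by_contra hne
      have := congrFun hx i
      simp [dl, hne] at this
    · intro ψ v hv hn w hw
      obtain ⟨a, n, a1, a2, rfl⟩ := hused v hv
      obtain ⟨a', n', _, _, rfl⟩ := hused w hw
      obtain ⟨Hv, hHv⟩ : ∃ Hv, Hv = ψ (A (dl (ι (Q R k (a, n))))) := ⟨_, rfl⟩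
      let lam : V →ₗ[ℝ] ℝ := ψ ∘ₗ M.Λ - Hv • M.τ
      have hlam : ∀ w, lam (Q R k w) = M.τ (Q R k w) * (ψ (A (dl (ι (Q R k w)))) - Hv) := by
        intro w
        rw [hA, Xi, map_smul, smul_eq_mul]
        have := (hτQ w).ne'
        show ψ (M.Λ _) - Hv * M.τ _ = _
        field_simp
      have key := locmin' hR hkk hk' hG lam n a1 a2 (by rw [hlam, hHv, sub_self, mul_zero]) (by
        rintro y ⟨t, ht, m1, m2⟩ hne
        obtain ⟨w, rfl⟩ : ∃ w, y = Q R k w := by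
          obtain ⟨a, m, _, _, rfl⟩ := ht
          rcases m2 with h | h | h <;> exact ⟨_, h⟩
        rw [hlam, hHv]
        refine mul_pos (hτQ w) (sub_pos.2 (hn _ ⟨_, ⟨t, ht, rfl⟩, ?_, ?_⟩ ?_))
        · rcases m1 with h | h | h
          · exact Or.inl (congrArg ι h)
          · exact Or.inr (Or.inl (congrArg ι h))
          · exact Or.inr (Or.inr (congrArg ι h))
        · rcases m2 with h | h | h
          · exact Or.inl (congrArg ι h)
          · exact Or.inr (Or.inl (congrArg ι h))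
          · exact Or.inr (Or.inr (congrArg ι h))
        · intro h
          apply hne
          rw [← hρ w, h, hρ]) (a', n')
      rw [hlam] at key
      have := (mul_nonneg_iff_of_pos_left (hτQ (a', n'))).1 key
      linarith
  · intro x
    obtain ⟨⟨⟨s, s1, s2⟩, ⟨t, t1⟩⟩, rfl⟩ := hPs x
    show ‖A (b _) - proj u (sym (nrm (M.Nl (yv R k s t))) (nrm (M.Nl (yv R k s t))))‖ ≤ ε
    rw [hb, proj_nrm M (yv_ne_zero hR hk s t)]
    show ‖A (B s t) - _‖ ≤ ε
    rw [hAB]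
    obtain ⟨b1, b2⟩ := yv_bounds hR hk t s1 s2
    exact J_approx hR hk _ t s1 s2 _ _ fun v hv => (hΞ _ b1 b2 v (hv.trans hsmall)).2

end Pool.Agent.Lib.MP_c8c16f_gt
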