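import Mathlib
import Pool.Agent.Lib.MP_c8c16f_gt.Verts

set_option autoImplicit false

namespace Pool.Agent.Lib.MP_c8c16f_gt

open Real Filter Topology

lemma comb_alg (ρ η κ c B0 B1 B2 : ℝ) (hη : 0 < η) (hc : 0 < c)
    (h1 : 0 < 2 * B2 - (2 * ρ - η) * (B1 / 2) + ρ * (ρ - η) * (B0 - B2))
    (h2 : 0 < κ * ρ ^ 2 * (1 - ρ * (ρ - η) / 2) - ρ * (2 * ρ - η))
    (h3 : 0 < (κ * ρ ^ 2 * (1 - ρ * (ρ - η) / 2) - ρ * (2 * ρ - η)) * (B1 / 2 - ρ * (B0 - B2)) -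
      (ρ + κ * ρ ^ 3 / 2) * (2 * B2 - (2 * ρ - η) * (B1 / 2) + ρ * (ρ - η) * (B0 - B2))) :
    ∃ p q r : ℝ, 0 < p ∧ 0 ≤ q ∧
      r * (1 + ρ ^ 2 / 2) = (1 + ρ ^ 2 / 2) + p * B0 + q * (1 + (ρ - η) ^ 2 / 2) ∧
      r * (2 * ρ) = (1 - c) * (2 * ρ) + p * B1 + q * (2 * (ρ - η)) ∧
      r * (ρ ^ 2 / 2) = (1 - κ * c) * (ρ ^ 2 / 2) + p * B2 + q * ((ρ - η) ^ 2 / 2) := by
  set fU := 2 * B2 - (2 * ρ - η) * (B1 / 2) + ρ * (ρ - η) * (B0 - B2) with hfU
  set fN := κ * ρ ^ 2 * (1 - ρ * (ρ - η) / 2) - ρ * (2 * ρ - η) with hfN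
  set gU := B1 / 2 - ρ * (B0 - B2) with hgU
  set gN := ρ + κ * ρ ^ 3 / 2 with hgN
  obtain ⟨p, hp⟩ : ∃ p, p = fN / fU := ⟨_, rfl⟩
  have hp1 : p * fU = fN := by rw [hp]; field_simp
  have hp0 : 0 < p := by rw [hp]; positivity
  obtain ⟨q, hq⟩ : ∃ q, q = (p * gU - gN) / η := ⟨_, rfl⟩
  have hq1 : q * η = p * gU - gN := by rw [hq]; field_simp
  have hq0 : 0 ≤ q := by
    rw [hq]
    apply div_nonneg _ hη.le
    have : (p * gU - gN) * fU = fN * gU - gN * fU := by rw [← hp1]; ring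
    by_contra hc
    have : (p * gU - gN) * fU < 0 := mul_neg_of_neg_of_pos (not_le.1 hc) h1
    linarith
  have m1 : ρ = p * (B1 / 2) + q * (ρ - η) - (p * (B0 - B2) + q + κ * ρ ^ 2 / 2) * ρ := by
    rw [hgU, hgN] at hq1; linear_combination hq1
  have m2 : κ * ρ ^ 2 = p * (2 * B2) + q * (ρ - η) ^ 2 -
      (p * (B0 - B2) + q + κ * ρ ^ 2 / 2) * ρ ^ 2 := by
    rw [hfU, hfN] at hp1
    linear_combination (2 * ρ - η) * m1 - hp1
  refine ⟨c * p, c * q, 1 + c * (p * (B0 - B2) + q + κ * ρ ^ 2 / 2), by positivity, by positivity,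
    ?_, ?_, ?_⟩
  · linear_combination (c / 2) * m2
  · linear_combination (2 * c) * m1
  · linear_combination (c / 2) * m2

lemma continuous_A0 (R a : ℤ) : Continuous (fun h => A0 R h a) := by
  unfold A0; split_ifs <;> fun_prop

lemma continuous_A1 (R a : ℤ) : Continuous (fun h => A1 R h a) := by
  unfold A1; split_ifs <;> fun_prop

lemma A0_zero {R a : ℤ} (hR : 0 < R) (ha : a ≤ R) : A0 R 0 a = 1 + ((a : ℝ) / R) ^ 2 / 2 := by
  unfold A0
  split_ifs with h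
  · rfl
  · have : a = R := by omega
    subst this
    have : (a : ℝ) ≠ 0 := by exact_mod_cast hR.ne'
    rw [div_self this]; simp

lemma A1_zero {R a : ℤ} (hR : 0 < R) (ha : a ≤ R) : A1 R 0 a = 2 * ((a : ℝ) / R) := by
  unfold A1
  split_ifs with h
  · rfl
  · have : a = R := by omega
    subst this
    have : (a : ℝ) ≠ 0 := by exact_mod_cast hR.ne'
    rw [div_self this]; simp

lemma A2_eq {R a : ℤ} (hR : 0 < R) (ha : a ≤ R) : A2 R a = ((a : ℝ) / R) ^ 2 / 2 := by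
  unfold A2
  split_ifs with h
  · rfl
  · have : a = R := by omega
    subst this
    have : (a : ℝ) ≠ 0 := by exact_mod_cast hR.ne'
    rw [div_self this]; simp

lemma eventually_forall_Icc {p : ℝ → ℤ → Prop} {l : Filter ℝ} (lo hi : ℤ)
    (h : ∀ a, lo ≤ a → a ≤ hi → ∀ᶠ x in l, p x a) :
    ∀ᶠ x in l, ∀ a, lo ≤ a → a ≤ hi → p x a := by
  have := (Filter.eventually_all_finset (Finset.Icc lo hi) (l := l) (p := fun a x => p x a)).2
    (fun a ha => h a (Finset.mem_Icc.1 ha).1 (Finset.mem_Icc.1 ha).2)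
  exact this.mono fun x hx a h1 h2 => hx a (Finset.mem_Icc.2 ⟨h1, h2⟩)

theorem eventually_good {R : ℤ} (hR : 3 ≤ R) : ∀ᶠ h in 𝓝[>] (0 : ℝ), Good R h := by
  have hR0 : 0 < R := by omega
  have hRr : (3 : ℝ) ≤ R := by exact_mod_cast hR
  have e1 : ∀ᶠ h in 𝓝 (0 : ℝ), ∀ a, 0 ≤ a → a ≤ R → 0 < A0 R h a := by
    apply eventually_forall_Icc
    intro a _ h2
    apply (continuous_A0 R a).continuousAt.eventually (lt_mem_nhds _)
    show 0 < A0 R 0 a
    rw [A0_zero hR0 h2]; positivity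
  have e2 : ∀ᶠ h in 𝓝 (0 : ℝ), ∀ a, 0 ≤ a → a ≤ R - 1 →
      A1 R h a / A0 R h a < A1 R h (a + 1) / A0 R h (a + 1) := by
    apply eventually_forall_Icc
    intro a h1 h2
    have p1 : A0 R 0 a ≠ 0 := by rw [A0_zero hR0 (by omega)]; positivity
    have p2 : A0 R 0 (a + 1) ≠ 0 := by rw [A0_zero hR0 (by omega)]; positivity
    apply ContinuousAt.eventually_lt
      ((continuous_A1 R a).continuousAt.div (continuous_A0 R a).continuousAt p1)
      ((continuous_A1 R (a + 1)).continuousAt.div (continuous_A0 R (a + 1)).continuousAt p2)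
    simp only [Pi.div_apply]
    rw [A0_zero hR0 (by omega), A0_zero hR0 (by omega), A1_zero hR0 (by omega),
      A1_zero hR0 (by omega)]
    have a1 : (0 : ℝ) ≤ a := by exact_mod_cast h1
    have a2 : (a : ℝ) ≤ R - 1 := by exact_mod_cast h2
    have x0 : 0 ≤ (a : ℝ) / R := by positivity
    have x1 : (a : ℝ) / R < ((a + 1 : ℤ) : ℝ) / R := by
      push_cast; gcongr; linarith
    have x2 : ((a + 1 : ℤ) : ℝ) / R ≤ 1 := by
      push_cast; rw [div_le_one (by linarith)]; linarith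
    generalize (a : ℝ) / R = x at *
    generalize ((a + 1 : ℤ) : ℝ) / R = y at *
    rw [div_lt_div_iff₀ (by positivity) (by positivity)]
    have : 0 < (y - x) * (2 - x * y) := mul_pos (by linarith) (by nlinarith)
    nlinarith
  have e3 : ∀ᶠ h in 𝓝 (0 : ℝ), ∀ a, 1 ≤ a → a ≤ R - 1 → 0 < 1 - cos h →
      ∃ p q r : ℝ, 0 < p ∧ 0 ≤ q ∧
      r * A0 R h a = A0 R h a + p * A0 R h (a + 1) + q * A0 R h (a - 1) ∧
      r * A1 R h a = cos h * A1 R h a + p * A1 R h (a + 1) + q * A1 R h (a - 1) ∧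
      r * A2 R a = cos (2 * h) * A2 R a + p * A2 R (a + 1) + q * A2 R (a - 1) := by
    apply eventually_forall_Icc
    intro a h1 h2
    have a1 : (1 : ℝ) ≤ a := by exact_mod_cast h1
    have a2 : (a : ℝ) ≤ R - 1 := by exact_mod_cast h2
    set ρ : ℝ := (a : ℝ) / R with hρ
    set η : ℝ := 1 / (R : ℝ) with hη
    have hη0 : 0 < η := by positivity
    have hρ0 : 0 < ρ := by positivity
    have hp : ((a + 1 : ℤ) : ℝ) / R = ρ + η := by rw [hρ, hη]; push_cast; ring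
    have hm : ((a - 1 : ℤ) : ℝ) / R = ρ - η := by rw [hρ, hη]; push_cast; ring
    have c0 := (continuous_A0 R (a + 1))
    have c1 := (continuous_A1 R (a + 1))
    have z0 : A0 R 0 (a + 1) = 1 + (ρ + η) ^ 2 / 2 := by rw [A0_zero hR0 (by omega), hp]
    have z1 : A1 R 0 (a + 1) = 2 * (ρ + η) := by rw [A1_zero hR0 (by omega), hp]
    have z2 : A2 R (a + 1) = (ρ + η) ^ 2 / 2 := by rw [A2_eq hR0 (by omega), hp]
    have key : (ρ + η) * (1 + 2 * ρ ^ 2) < 3 * ρ := by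
      have : (ρ + η) * (1 + 2 * ρ ^ 2) - 3 * ρ =
          ((a + 1) * (R ^ 2 + 2 * a ^ 2) - 3 * a * R ^ 2) / (R : ℝ) ^ 3 := by
        rw [hρ, hη]; field_simp
      have h5 : ((a : ℝ) + 1) * (R ^ 2 + 2 * a ^ 2) - 3 * a * R ^ 2 < 0 := by
        rcases eq_or_lt_of_le h1 with h6 | h6
        · have : (a : ℝ) = 1 := by exact_mod_cast h6.symm
          rw [this]; nlinarith
        · have a3 : (2 : ℝ) ≤ a := by exact_mod_cast h6
          have h7 : ((a : ℝ) + 1) ^ 2 ≤ R ^ 2 := by nlinarith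
          have h8 : (2 * (a : ℝ) - 1) * (a + 1) ^ 2 ≤ (2 * a - 1) * R ^ 2 := by nlinarith
          nlinarith
      have h6 := div_neg_of_neg_of_pos h5 (by positivity : 0 < (R : ℝ) ^ 3)
      linarith
    have t1 : ∀ᶠ h in 𝓝 (0 : ℝ), 0 < 2 * A2 R (a + 1) - (2 * ρ - η) * (A1 R h (a + 1) / 2) +
        ρ * (ρ - η) * (A0 R h (a + 1) - A2 R (a + 1)) := by
      apply ContinuousAt.eventually_lt continuousAt_const (by fun_prop)
      rw [z0, z1, z2]; nlinarith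
    have t2 : ∀ᶠ h in 𝓝 (0 : ℝ),
        0 < 2 * (1 + cos h) * ρ ^ 2 * (1 - ρ * (ρ - η) / 2) - ρ * (2 * ρ - η) := by
      apply ContinuousAt.eventually_lt continuousAt_const (by fun_prop)
      rw [cos_zero]
      have : 2 * (1 + 1) * ρ ^ 2 * (1 - ρ * (ρ - η) / 2) - ρ * (2 * ρ - η) =
          ρ * (3 * ρ - (ρ + η) * (1 + 2 * ρ ^ 2) + 2 * η * (1 + 2 * ρ ^ 2)) := by ring
      rw [this]
      have : 0 < 2 * η * (1 + 2 * ρ ^ 2) := by positivity
      exact mul_pos hρ0 (by linarith)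
    have t3 : ∀ᶠ h in 𝓝 (0 : ℝ),
        0 < (2 * (1 + cos h) * ρ ^ 2 * (1 - ρ * (ρ - η) / 2) - ρ * (2 * ρ - η)) *
          (A1 R h (a + 1) / 2 - ρ * (A0 R h (a + 1) - A2 R (a + 1))) -
        (ρ + 2 * (1 + cos h) * ρ ^ 3 / 2) * (2 * A2 R (a + 1) - (2 * ρ - η) * (A1 R h (a + 1) / 2) +
          ρ * (ρ - η) * (A0 R h (a + 1) - A2 R (a + 1))) := by
      apply ContinuousAt.eventually_lt continuousAt_const (by fun_prop)
      rw [z0, z1, z2, cos_zero]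
      have : (2 * (1 + 1) * ρ ^ 2 * (1 - ρ * (ρ - η) / 2) - ρ * (2 * ρ - η)) *
          (2 * (ρ + η) / 2 - ρ * (1 + (ρ + η) ^ 2 / 2 - (ρ + η) ^ 2 / 2)) -
        (ρ + 2 * (1 + 1) * ρ ^ 3 / 2) * (2 * ((ρ + η) ^ 2 / 2) - (2 * ρ - η) * (2 * (ρ + η) / 2) +
          ρ * (ρ - η) * (1 + (ρ + η) ^ 2 / 2 - (ρ + η) ^ 2 / 2)) =
          η * ρ * (3 * ρ - (ρ + η) * (1 + 2 * ρ ^ 2)) := by ring
      rw [this]
      exact mul_pos (mul_pos hη0 hρ0) (by linarith)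
    filter_upwards [t1, t2, t3] with h u1 u2 u3 hc
    obtain ⟨p, q, r, hp0, hq0, k0, k1, k2⟩ := comb_alg ρ η (2 * (1 + cos h)) (1 - cos h)
      (A0 R h (a + 1)) (A1 R h (a + 1)) (A2 R (a + 1)) hη0 hc u1 u2 u3
    refine ⟨p, q, r, hp0, hq0, ?_, ?_, ?_⟩
    · have b1 : A0 R h a = 1 + ρ ^ 2 / 2 := by unfold A0; rw [if_pos (by omega)]
      have b2 : A0 R h (a - 1) = 1 + (ρ - η) ^ 2 / 2 := by unfold A0; rw [if_pos (by omega), hm]
      rw [b1, b2, k0]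
    · have b1 : A1 R h a = 2 * ρ := by unfold A1; rw [if_pos (by omega)]
      have b2 : A1 R h (a - 1) = 2 * (ρ - η) := by unfold A1; rw [if_pos (by omega), hm]
      rw [b1, b2, k1]; ring
    · have b1 : A2 R a = ρ ^ 2 / 2 := by unfold A2; rw [if_pos (by omega)]
      have b2 : A2 R (a - 1) = (ρ - η) ^ 2 / 2 := by unfold A2; rw [if_pos (by omega), hm]
      have b3 : cos (2 * h) = 1 - 2 * (1 + cos h) * (1 - cos h) := by rw [cos_two_mul]; ring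
      rw [b1, b2, k2, b3]
  have e4 : ∀ᶠ h in 𝓝[>] (0 : ℝ), 0 < 1 - cos h := by
    filter_upwards [Ioo_mem_nhdsGT pi_pos] with h hh
    have := cos_lt_cos_of_nonneg_of_le_pi le_rfl hh.2.le hh.1
    rw [cos_zero] at this
    linarith
  filter_upwards [e1.filter_mono nhdsWithin_le_nhds, e2.filter_mono nhdsWithin_le_nhds,
    e3.filter_mono nhdsWithin_le_nhds, e4] with h u1 u2 u3 u4
  exact ⟨u1, fun a h1 h2 => u2 a h1 (by omega), fun a h1 h2 => u3 a h1 (by omega) u4⟩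

end Pool.Agent.Lib.MP_c8c16f_gt
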