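import Mathlib
import Pool.Agent.Lib.MP_c8c16f_gt.Strip

set_option autoImplicit false

namespace Pool.Agent.Lib.MP_c8c16f_gt

open Real

variable {R k : ℤ}

noncomputable def SS (k n : ℤ) : ℝ := sin (n * hh k)

lemma SS_shift (hk : 0 < k) (n j : ℤ) : SS k (n + k * j) = SS k n := by
  unfold SS
  rw [← sin_add_int_mul_two_pi (n * hh k) j, ← hh_mul hk]
  congr 1; push_cast; ring

lemma SS_nonneg (hk : 0 < k) {n : ℤ} (h1 : 0 ≤ n) (h2 : 2 * n ≤ k) : 0 ≤ SS k n := by
  have hp := hh_pos hk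
  have hm := hh_mul hk
  have a1 : (0 : ℝ) ≤ n := by exact_mod_cast h1
  have a2 : 2 * (n : ℝ) ≤ k := by exact_mod_cast h2
  exact sin_nonneg_of_nonneg_of_le_pi (by positivity) (by nlinarith)

lemma SS_one_pos (hk : 3 ≤ k) : 0 < SS k 1 := by
  have hp := hh_pos (by omega : 0 < k)
  have hm := hh_mul (by omega : 0 < k)
  have a2 : (3 : ℝ) ≤ k := by exact_mod_cast hk
  unfold SS
  rw [Int.cast_one, one_mul]
  exact sin_pos_of_pos_of_lt_pi hp (by nlinarith [pi_pos])

lemma SS_neg_one : SS k (-1) = -SS k 1 := by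
  unfold SS; rw [← sin_neg]; congr 1; push_cast; ring

lemma SS_zero : SS k 0 = 0 := by unfold SS; simp

lemma fan_id {α β α' β' : ℝ} {m m' : ℤ}
    (hc : α * cos (m * hh k) + β * cos (((m + 1 : ℤ) : ℝ) * hh k) =
      α' * cos (m' * hh k) + β' * cos (((m' + 1 : ℤ) : ℝ) * hh k))
    (hs : α * sin (m * hh k) + β * sin (((m + 1 : ℤ) : ℝ) * hh k) =
      α' * sin (m' * hh k) + β' * sin (((m' + 1 : ℤ) : ℝ) * hh k)) (l : ℤ) :
    α * SS k (m - l) + β * SS k (m + 1 - l) = α' * SS k (m' - l) + β' * SS k (m' + 1 - l) := by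
  have e : ∀ n : ℤ, SS k (n - l) = sin (n * hh k) * cos (l * hh k) -
      cos (n * hh k) * sin (l * hh k) := by
    intro n
    unfold SS
    rw [← sin_sub]; congr 1; push_cast; ring
  rw [e, e, e, e]
  linear_combination (cos (l * hh k)) * hs - (sin (l * hh k)) * hc

lemma fan (hk : 3 ≤ k) {α β α' β' : ℝ} {m m' : ℤ} (h1 : 0 < α) (h2 : 0 ≤ β) (h3 : 0 < α')
    (h4 : 0 ≤ β')
    (h : ∀ l : ℤ,
      α * SS k (m - l) + β * SS k (m + 1 - l) = α' * SS k (m' - l) + β' * SS k (m' + 1 - l)) :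
    (∃ j, m' = m + k * j) ∧ α = α' ∧ β = β' := by
  have hk0 : 0 < k := by omega
  have hS := SS_one_pos hk
  have e1 := Int.emod_add_mul_ediv (m' - m) k
  have e2 := Int.emod_nonneg (m' - m) hk0.ne'
  have e3 := Int.emod_lt_of_pos (m' - m) hk0
  set d := (m' - m) % k
  set j := (m' - m) / k
  have hm' : m' = m + d + k * j := by omega
  by_cases hd : d = 0
  · refine ⟨⟨j, by omega⟩, ?_, ?_⟩
    · have := h (m + 1)
      rw [show m - (m + 1) = -1 by ring, show m + 1 - (m + 1) = 0 by ring,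
        show m' - (m + 1) = -1 + k * j by omega, show m' + 1 - (m + 1) = 0 + k * j by omega,
        SS_shift hk0, SS_shift hk0, SS_zero, SS_neg_one] at this
      have h5 : (α - α') * SS k 1 = 0 := by linarith
      have := (mul_eq_zero.1 h5).resolve_right hS.ne'
      linarith
    · have := h m
      rw [show m - m = 0 by ring, show m + 1 - m = 1 by ring,
        show m' - m = 0 + k * j by omega, show m' + 1 - m = 1 + k * j by omega,
        SS_shift hk0, SS_shift hk0, SS_zero] at this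
      have h5 : (β - β') * SS k 1 = 0 := by linarith
      have := (mul_eq_zero.1 h5).resolve_right hS.ne'
      linarith
  · exfalso
    by_cases hd2 : 2 * d ≤ k
    · have := h (m + 1)
      rw [show m - (m + 1) = -1 by ring, show m + 1 - (m + 1) = 0 by ring,
        show m' - (m + 1) = (d - 1) + k * j by omega, show m' + 1 - (m + 1) = d + k * j by omega,
        SS_shift hk0, SS_shift hk0, SS_zero, SS_neg_one] at this
      have t1 := mul_nonneg h3.le (SS_nonneg hk0 (n := d - 1) (by omega) (by omega))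
      have t2 := mul_nonneg h4 (SS_nonneg hk0 (n := d) (by omega) (by omega))
      have t3 := mul_pos h1 hS
      linarith
    · have := h (m' + 1)
      rw [show m' - (m' + 1) = -1 by ring, show m' + 1 - (m' + 1) = 0 by ring,
        show m - (m' + 1) = (k - d - 1) + k * (-j - 1) by rw [hm']; ring,
        show m + 1 - (m' + 1) = (k - d) + k * (-j - 1) by rw [hm']; ring,
        SS_shift hk0, SS_shift hk0, SS_zero, SS_neg_one] at this
      have t1 := mul_nonneg h1.le (SS_nonneg hk0 (n := k - d - 1) (by omega) (by omega))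
      have t2 := mul_nonneg h2 (SS_nonneg hk0 (n := k - d) (by omega) (by omega))
      have t3 := mul_pos h3 hS
      linarith

lemma cell_alg {A B x00 x10 x01 x11 y00 y10 y01 y11 : ℝ} (hA : 0 ≤ A) (hAB : A < B)
    (p1 : 0 ≤ x00) (p4 : 0 ≤ x11) (q1 : 0 ≤ y00) (q4 : 0 ≤ y11)
    (hx : x00 * x11 = 0) (hy : y00 * y11 = 0) (h0 : A = 0 → x00 = 0 ∧ y00 = 0)
    (e0 : x00 + x10 + x01 + x11 = y00 + y10 + y01 + y11)
    (e1 : x00 * A + x10 * B = y00 * A + y10 * B) (e2 : x01 * A + x11 * B = y01 * A + y11 * B) :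
    x00 = y00 ∧ x10 = y10 ∧ x01 = y01 ∧ x11 = y11 := by
  have hB : 0 < B := by linarith
  have k1 : ((x00 - y00) + (x01 - y01)) * (B - A) = 0 := by linear_combination B * e0 - e1 - e2
  have k2 : (x00 - y00) + (x01 - y01) = 0 := (mul_eq_zero.1 k1).resolve_right (by linarith)
  have k3 : (x11 - y11) * B = (x00 - y00) * A := by linear_combination e2 - A * k2
  have k4 : x00 = y00 := by
    rcases eq_or_lt_of_le hA with hA0 | hA0
    · obtain ⟨a, b⟩ := h0 hA0.symm; rw [a, b]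
    · rcases lt_trichotomy x00 y00 with h | h | h
      · exfalso
        have t1 : (x11 - y11) * B < 0 := by rw [k3]; exact mul_neg_of_neg_of_pos (by linarith) hA0
        have t2 : x11 - y11 < 0 := by
          by_contra hc
          have := mul_nonneg (not_lt.1 hc) hB.le
          linarith
        have := mul_pos (show 0 < y00 by linarith) (show 0 < y11 by linarith)
        linarith
      · exact h
      · exfalso
        have t1 : 0 < (x11 - y11) * B := by rw [k3]; exact mul_pos (by linarith) hA0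
        have t2 : 0 < x11 - y11 := (mul_pos_iff_of_pos_right hB).1 t1
        have := mul_pos (show 0 < x00 by linarith) (show 0 < x11 by linarith)
        linarith
  have k5 : x11 = y11 := by
    have : (x11 - y11) * B = 0 := by rw [k3, k4]; ring
    have := (mul_eq_zero.1 this).resolve_right hB.ne'
    linarith
  exact ⟨k4, by linarith, by linarith, k5⟩

noncomputable def rho (R : ℤ) (h : ℝ) (a : ℤ) : ℝ := A1 R h a / A0 R h a

lemma rho_zero (hR : 0 < R) (h : ℝ) : rho R h 0 = 0 := by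
  unfold rho A1; rw [if_pos hR]; simp

lemma rho_mono {h : ℝ} (hG : Good R h) {a b : ℤ} (ha : 0 ≤ a) (hab : a ≤ b) (hb : b ≤ R) :
    rho R h a ≤ rho R h b := by
  induction b, hab using Int.leInduction with
  | base => exact le_rfl
  | succ b hab ih => exact (ih (by omega)).trans (hG.mono b (by omega) (by omega)).le

/-- coordinates of a point of the northern disc -/
lemma disc_coords (hR : 0 < R) (hk : 4 ≤ k) (hG : Good R (hh k)) (κ : V → ℝ)
    {a : ℤ} (m : ℤ) {σ ω : ℝ} (ha : 0 ≤ a) (ha2 : a < R)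
    (h1 : 0 ≤ σ) (h2 : σ < 1) (h3 : 0 ≤ ω) (h4 : ω < 1) :
    ∃ c00 c10 c01 c11 : ℝ, 0 ≤ c00 ∧ 0 ≤ c10 ∧ 0 ≤ c01 ∧ 0 ≤ c11 ∧ c00 * c11 = 0 ∧
      c10 + c11 = σ ∧ c00 + c01 = 1 - σ ∧ (a = 0 → c00 = 0 ∧ c11 = σ * ω) ∧
      (1 ≤ a → c01 + c11 = ω) ∧
      ∀ x00 x10 x01 x11 : ℝ, x00 = c00 * (κ (Q R k (a, m)) * A0 R (hh k) a) →
        x10 = c10 * (κ (Q R k (a + 1, m)) * A0 R (hh k) (a + 1)) →
        x01 = c01 * (κ (Q R k (a, m + 1)) * A0 R (hh k) a) →
        x11 = c11 * (κ (Q R k (a + 1, m + 1)) * A0 R (hh k) (a + 1)) →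
        J R k (fun v => κ v • v) (a + σ) (m + ω) 0 = x00 + x10 + x01 + x11 ∧
        J R k (fun v => κ v • v) (a + σ) (m + ω) 1 =
          (x00 * rho R (hh k) a + x10 * rho R (hh k) (a + 1)) * cos (m * hh k) +
          (x01 * rho R (hh k) a + x11 * rho R (hh k) (a + 1)) * cos (((m + 1 : ℤ) : ℝ) * hh k) ∧
        J R k (fun v => κ v • v) (a + σ) (m + ω) 2 =
          (x00 * rho R (hh k) a + x10 * rho R (hh k) (a + 1)) * sin (m * hh k) +
          (x01 * rho R (hh k) a + x11 * rho R (hh k) (a + 1)) * sin (((m + 1 : ℤ) : ℝ) * hh k) := by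
  have hN : NN R k = 2 * R + k - 4 := rfl
  obtain ⟨c00, c10, c01, c11, p1, p2, p3, p4, p5, p6, p7, p8, p9, hJ⟩ :=
    J_cell (k := k) hR (fun v => κ v • v) m ha (by omega) h1 h2 h3 h4
  refine ⟨c00, c10, c01, c11, p1, p2, p3, p4, p5, p6, p7, p8, p9, ?_⟩
  rintro x00 x10 x01 x11 rfl rfl rfl rfl
  rw [hJ]
  have n0 := (hG.pos a ha ha2.le).ne'
  have n1 := (hG.pos (a + 1) (by omega) (by omega)).ne'
  generalize κ (Q R k (a, m)) = k1
  generalize κ (Q R k (a + 1, m)) = k2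
  generalize κ (Q R k (a, m + 1)) = k3
  generalize κ (Q R k (a + 1, m + 1)) = k4
  rw [Q_north hk ha ha2.le, Q_north hk ha ha2.le, Q_north hk (by omega) (by omega),
    Q_north hk (by omega) (by omega)]
  unfold rho ring
  simp only [Pi.add_apply, Pi.smul_apply, smul_eq_mul, Matrix.cons_val_zero, Matrix.cons_val_one,
    Matrix.cons_val]
  refine ⟨trivial, ?_, ?_⟩ <;> field_simp <;> ring

theorem inj_disc (hR : 0 < R) (hk : 4 ≤ k) (hG : Good R (hh k)) (κ : V → ℝ)
    (hκ : ∀ u, 0 < κ (Q R k u)) {s t s' t' : ℝ} (hs : 0 ≤ s) (hs2 : s < R) (hs' : 0 ≤ s')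
    (hs2' : s' < R)
    (h : J R k (fun v => κ v • v) s t = J R k (fun v => κ v • v) s' t') :
    (s = 0 ∧ s' = 0) ∨ (s = s' ∧ ∃ j : ℤ, t' = t + k * j) := by
  have hlev : ∀ {a : ℤ} {σ : ℝ}, 0 ≤ σ → σ < 1 → 0 ≤ (a : ℝ) + σ → (a : ℝ) + σ < R →
      0 ≤ a ∧ a < R := by
    intro a σ h1 h2 h3 h4
    constructor
    · have : (-1 : ℝ) < a := by linarith
      have : (-1 : ℤ) < a := by exact_mod_cast this
      omega
    · have : (a : ℝ) < R := by linarith
      exact_mod_cast this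
  obtain ⟨a, σ, h1, h2, rfl⟩ := exists_cell s
  obtain ⟨m, ω, h3, h4, rfl⟩ := exists_cell t
  obtain ⟨a', σ', h1', h2', rfl⟩ := exists_cell s'
  obtain ⟨m', ω', h3', h4', rfl⟩ := exists_cell t'
  obtain ⟨ha, ha2⟩ := hlev h1 h2 hs hs2
  obtain ⟨ha', ha2'⟩ := hlev h1' h2' hs' hs2'
  obtain ⟨c00, c10, c01, c11, p1, p2, p3, p4, p5, p6, p7, p8, p9, hJ⟩ :=
    disc_coords hR hk hG κ m ha ha2 h1 h2 h3 h4
  obtain ⟨d00, d10, d01, d11, q1, q2, q3, q4, q5, q6, q7, q8, q9, hJ'⟩ :=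
    disc_coords hR hk hG κ m' ha' ha2' h1' h2' h3' h4'
  obtain ⟨u0, u1, u2⟩ := hJ _ _ _ _ rfl rfl rfl rfl
  obtain ⟨v0, v1, v2⟩ := hJ' _ _ _ _ rfl rfl rfl rfl
  rw [h] at u0 u1 u2
  have hpos : ∀ (b n : ℤ), 0 ≤ b → b ≤ R → 0 < κ (Q R k (b, n)) * A0 R (hh k) b :=
    fun b n hb hb2 => mul_pos (hκ _) (hG.pos b hb hb2)
  have hrho : ∀ b, 0 ≤ b → b < R → 0 ≤ rho R (hh k) b ∧ rho R (hh k) b < rho R (hh k) (b + 1) ∧
      (1 ≤ b → 0 < rho R (hh k) b) := by
    intro b hb hb2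
    refine ⟨?_, hG.mono b hb hb2, fun h => ?_⟩
    · rw [← rho_zero hR (hh k)]; exact rho_mono hG le_rfl hb hb2.le
    · have t1 : rho R (hh k) 0 < rho R (hh k) (0 + 1) := hG.mono 0 le_rfl hR
      rw [rho_zero hR] at t1
      exact lt_of_lt_of_le t1 (rho_mono hG (by omega) (by omega) hb2.le)
  have hid := fan_id (u1.symm.trans v1) (u2.symm.trans v2)
  have e0 := u0.symm.trans v0
  clear u0 u1 u2 v0 v1 v2 hJ hJ' h
  -- positivity of the leading fan coefficient away from the pole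
  have hα : ∀ (a : ℤ) (σ ω c00 c10 c01 c11 k1 k2 : ℝ), 0 ≤ a → a < R → 0 < k1 → 0 < k2 → ω < 1 →
      0 ≤ σ → 0 ≤ c00 → 0 ≤ c10 → c10 + c11 = σ → c00 + c01 = 1 - σ →
      (a = 0 → c00 = 0 ∧ c11 = σ * ω) → (1 ≤ a → c01 + c11 = ω) → (a : ℝ) + σ ≠ 0 →
      0 < c00 * k1 * rho R (hh k) a + c10 * k2 * rho R (hh k) (a + 1) := by
    intro a σ ω c00 c10 c01 c11 k1 k2 ha ha2 hk1 hk2 hω hσ p1 p2 p6 p7 p8 p9 hne
    obtain ⟨r1, r2, r3⟩ := hrho a ha ha2
    have r4 : 0 < rho R (hh k) (a + 1) := by linarith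
    rcases eq_or_lt_of_le ha with h0 | h0
    · obtain ⟨b1, b2⟩ := p8 h0.symm
      have hσ0 : 0 < σ := by
        rw [← h0] at hne
        exact lt_of_le_of_ne hσ (by simpa using hne.symm)
      have : 0 < c10 := by nlinarith
      rw [b1]
      have := mul_pos (mul_pos this hk2) r4
      linarith
    · have b1 := p9 h0
      have r5 := r3 h0
      have t1 : 0 ≤ c00 * k1 * rho R (hh k) a := by positivity
      have t2 : 0 ≤ c10 * k2 * rho R (hh k) (a + 1) := by positivity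
      rcases eq_or_lt_of_le p1 with b2 | b2
      · have : 0 < c10 := by linarith
        have := mul_pos (mul_pos this hk2) r4
        linarith
      · have := mul_pos (mul_pos b2 hk1) r5
        linarith
  have hS := SS_one_pos (by omega : 3 ≤ k)
  obtain ⟨r1, r2, r3⟩ := hrho a ha ha2
  obtain ⟨r1', r2', r3'⟩ := hrho a' ha' ha2'
  have w1 := hpos a m ha ha2.le
  have w2 := hpos (a + 1) m (by omega) (by omega)
  have w3 := hpos a (m + 1) ha ha2.le
  have w4 := hpos (a + 1) (m + 1) (by omega) (by omega)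
  have w1' := hpos a' m' ha' ha2'.le
  have w2' := hpos (a' + 1) m' (by omega) (by omega)
  have w3' := hpos a' (m' + 1) ha' ha2'.le
  have w4' := hpos (a' + 1) (m' + 1) (by omega) (by omega)
  have hβ : 0 ≤ c01 * (κ (Q R k (a, m + 1)) * A0 R (hh k) a) * rho R (hh k) a +
      c11 * (κ (Q R k (a + 1, m + 1)) * A0 R (hh k) (a + 1)) * rho R (hh k) (a + 1) := by
    have : 0 ≤ rho R (hh k) (a + 1) := by linarith
    positivity
  have hβ' : 0 ≤ d01 * (κ (Q R k (a', m' + 1)) * A0 R (hh k) a') * rho R (hh k) a' +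
      d11 * (κ (Q R k (a' + 1, m' + 1)) * A0 R (hh k) (a' + 1)) * rho R (hh k) (a' + 1) := by
    have : 0 ≤ rho R (hh k) (a' + 1) := by linarith
    positivity
  -- a point of level zero is the pole
  have hzero : ∀ (a : ℤ) (σ c00 c10 c11 ω : ℝ), 0 ≤ a → 0 ≤ σ → (a : ℝ) + σ = 0 → 0 ≤ c10 →
      0 ≤ c11 → c10 + c11 = σ → (a = 0 → c00 = 0 ∧ c11 = σ * ω) →
      rho R (hh k) a = 0 ∧ c10 = 0 ∧ c11 = 0 := by
    intro a σ c00 c10 c11 ω ha hσ h0 p2 p4 p6 _
    have a1 : (0 : ℝ) ≤ a := by exact_mod_cast ha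
    have a2 : (a : ℝ) = 0 := by linarith
    have a3 : a = 0 := by exact_mod_cast a2
    exact ⟨by rw [a3, rho_zero hR], by linarith, by linarith⟩
  by_cases hz : (a : ℝ) + σ = 0
  · left
    refine ⟨hz, ?_⟩
    by_contra hz'
    obtain ⟨b1, b2, b3⟩ := hzero a σ c00 c10 c11 ω ha h1 hz p2 p4 p6 p8
    have t1 := hα a' σ' ω' d00 d10 d01 d11 _ _ ha' ha2' w1' w2' h4' h1' q1 q2 q6 q7 q8 q9 hz'
    have t2 := hid (m' + 1)
    rw [b1, b2, b3, show m' - (m' + 1) = -1 by ring, show m' + 1 - (m' + 1) = 0 by ring,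
      SS_zero, SS_neg_one] at t2
    have := mul_pos t1 hS
    linarith
  by_cases hz' : (a' : ℝ) + σ' = 0
  · exfalso
    obtain ⟨b1, b2, b3⟩ := hzero a' σ' d00 d10 d11 ω' ha' h1' hz' q2 q4 q6 q8
    have t1 := hα a σ ω c00 c10 c01 c11 _ _ ha ha2 w1 w2 h4 h1 p1 p2 p6 p7 p8 p9 hz
    have t2 := hid (m + 1)
    rw [b1, b2, b3, show m - (m + 1) = -1 by ring, show m + 1 - (m + 1) = 0 by ring,
      SS_zero, SS_neg_one] at t2
    have := mul_pos t1 hS
    linarith
  right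
  obtain ⟨⟨j, hj⟩, eα, eβ⟩ := fan (by omega)
    (hα a σ ω c00 c10 c01 c11 _ _ ha ha2 w1 w2 h4 h1 p1 p2 p6 p7 p8 p9 hz) hβ
    (hα a' σ' ω' d00 d10 d01 d11 _ _ ha' ha2' w1' w2' h4' h1' q1 q2 q6 q7 q8 q9 hz') hβ' hid
  -- the level agrees
  have hlevel : ∀ (A B A' B' x00 x10 x01 x11 y00 y10 y01 y11 : ℝ), A < B → B ≤ A' → A' < B' →
      0 ≤ x00 → 0 ≤ x01 → 0 < x00 + x01 → 0 ≤ y10 → 0 ≤ y11 → 0 ≤ x10 → 0 ≤ x11 →
      x00 + x10 + x01 + x11 = y00 + y10 + y01 + y11 →
      x00 * A + x10 * B = y00 * A' + y10 * B' → x01 * A + x11 * B = y01 * A' + y11 * B' →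
      False := by
    intro A B A' B' x00 x10 x01 x11 y00 y10 y01 y11 l1 l2 l3 n1 n2 n3 n4 n5 n6 n7 e0 e1 e2
    have t1 := mul_pos n3 (sub_pos.2 l1)
    have t2 := mul_nonneg (add_nonneg n4 n5) (sub_pos.2 l3).le
    have t3 := mul_nonneg (show 0 ≤ x00 + x10 + x01 + x11 by linarith) (sub_nonneg.2 l2)
    have : (x00 + x01) * (B - A) + (y10 + y11) * (B' - A') +
        (x00 + x10 + x01 + x11) * (A' - B) = 0 := by
      linear_combination A' * e0 - e1 - e2
    linarith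
  have hsum : ∀ c00 c01 k1 k3 σ : ℝ, 0 ≤ c00 → 0 ≤ c01 → 0 < k1 → 0 < k3 → c00 + c01 = 1 - σ →
      σ < 1 → 0 < c00 * k1 + c01 * k3 := by
    intro c00 c01 k1 k3 σ p1 p3 w1 w3 p7 h2
    rcases eq_or_lt_of_le p1 with b | b
    · have : 0 < c01 := by linarith
      positivity
    · positivity
  have haa : a = a' := by
    rcases lt_trichotomy a a' with hlt | heq | hlt
    · exact (hlevel _ _ _ _ _ _ _ _ _ _ _ _ r2 (rho_mono hG (by omega) (by omega) ha2'.le) r2'
        (by positivity) (by positivity) (hsum _ _ _ _ _ p1 p3 w1 w3 p7 h2) (by positivity)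
        (by positivity) (by positivity) (by positivity) e0 eα eβ).elim
    · exact heq
    · exact (hlevel _ _ _ _ _ _ _ _ _ _ _ _ r2' (rho_mono hG (by omega) (by omega) ha2.le) r2
        (by positivity) (by positivity) (hsum _ _ _ _ _ q1 q3 w1' w3' q7 h2') (by positivity)
        (by positivity) (by positivity) (by positivity) e0.symm eα.symm eβ.symm).elim
  subst haa
  subst hj
  have s1 : Q R k (a, m + k * j + 1) = Q R k (a, m + 1) := by
    rw [← Q_shift (by omega) a (m + 1) j]; congr 2; ring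
  have s2 : Q R k (a + 1, m + k * j + 1) = Q R k (a + 1, m + 1) := by
    rw [← Q_shift (by omega) (a + 1) (m + 1) j]; congr 2; ring
  rw [s1, s2] at eβ e0
  rw [Q_shift (by omega), Q_shift (by omega)] at eα e0
  obtain ⟨f1, f2, f3, f4⟩ := cell_alg r1 r2 (by positivity) (by positivity) (by positivity)
    (by positivity) (by linear_combination (κ (Q R k (a, m)) * A0 R (hh k) a *
      (κ (Q R k (a + 1, m + 1)) * A0 R (hh k) (a + 1))) * p5)
    (by linear_combination (κ (Q R k (a, m)) * A0 R (hh k) a *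
      (κ (Q R k (a + 1, m + 1)) * A0 R (hh k) (a + 1))) * q5)
    (fun h0 => by
      have : a = 0 := by
        by_contra hc
        exact (r3 (by omega)).ne' h0
      rw [(p8 this).1, (q8 this).1]; simp) e0 eα eβ
  have g1 := mul_right_cancel₀ w1.ne' f1
  have g2 := mul_right_cancel₀ w2.ne' f2
  have g3 := mul_right_cancel₀ w3.ne' f3
  have g4 := mul_right_cancel₀ w4.ne' f4
  have hσ : σ = σ' := by linarith
  refine ⟨by rw [hσ], j, ?_⟩
  have hω : ω = ω' := by
    rcases eq_or_lt_of_le ha with h0 | h0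
    · have b1 := (p8 h0.symm).2
      have b2 := (q8 h0.symm).2
      have hσ0 : σ ≠ 0 := by
        rw [← h0] at hz; simpa using hz
      apply mul_left_cancel₀ hσ0
      rw [← b1, g4, b2, hσ]
    · have b1 := p9 h0
      have b2 := q9 h0
      linarith
  rw [hω]; push_cast; ring

end Pool.Agent.Lib.MP_c8c16f_gt
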