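import Mathlib
import Pool.Agent.Lib.MP_c8c16f_gt.InjDisc

set_option autoImplicit false

namespace Pool.Agent.Lib.MP_c8c16f_gt

open Real

variable {R k : ℤ}

lemma corner1 (hk : 8 ≤ k) {i j p q : ℤ} (h1 : 2 ≤ j - i) (h2 : j - i ≤ k - 3) (h3 : 2 ≤ q - p)
    (h4 : q - p ≤ k - 2) (h5 : p = i - 1 ∨ p = i) (h : eps k (j - p) * eps k (j - q) = 0) :
    q = j - 1 ∨ q = j := by
  rcases mul_eq_zero.1 h with h | h
  · have := eps_eq_zero (by omega) h (by omega) (by omega); omega
  · have := eps_eq_zero (by omega) h (by omega) (by omega); omega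

lemma corner2 (hk : 8 ≤ k) {i p q : ℤ} (h1 : i + 1 ≤ p) (h2 : p ≤ i + k - 2) (h3 : 2 ≤ q - p)
    (h4 : q - p ≤ k - 2) (h : eps k (i - p) * eps k (i - q) = 0) :
    q - k = i - 1 ∨ q - k = i := by
  rcases mul_eq_zero.1 h with h | h
  · have := eps_eq_zero (by omega) h (by omega) (by omega); omega
  · have := eps_eq_zero (by omega) h (by omega) (by omega); omega

lemma corner3 (hk : 8 ≤ k) {i j p q : ℤ} (h1 : 2 ≤ j - i) (h2 : j - i ≤ k - 3) (h3 : 2 ≤ q - p)
    (h4 : q - p ≤ k - 2) (h5 : i - 2 ≤ p) (h6 : p ≤ i + 1) (h7 : j - 2 ≤ q) (h8 : q ≤ j + 1)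
    (h : eps k (i - p) * eps k (i - q) = 0) (h' : eps k (j - p) * eps k (j - q) = 0) :
    (p = i - 1 ∨ p = i) ∧ (q = j - 1 ∨ q = j) := by
  rcases mul_eq_zero.1 h with h | h <;> rcases mul_eq_zero.1 h' with h' | h' <;>
  · have t1 := eps_eq_zero (by omega) h (by omega) (by omega)
    have t2 := eps_eq_zero (by omega) h' (by omega) (by omega)
    omega

lemma supp_range {s : ℝ} {a lo hi : ℤ} (h1 : (lo : ℝ) ≤ s) (h2 : s ≤ hi) (h : |s - a| < 1) :
    lo ≤ a ∧ a ≤ hi := by
  rw [abs_lt] at h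
  have t1 : (lo : ℝ) - 1 < a := by linarith
  have t2 : (a : ℝ) < hi + 1 := by linarith
  have t3 : lo - 1 < a := by exact_mod_cast t1
  have t4 : a < hi + 1 := by exact_mod_cast t2
  omega

lemma supp_close {x : ℝ} {a b : ℤ} (h1 : |x - a| < 1) (h2 : |x - b| < 1) :
    a - 1 ≤ b ∧ b ≤ a + 1 := by
  rw [abs_lt] at h1 h2
  have t1 : (a : ℝ) - 2 < b := by linarith
  have t2 : (b : ℝ) < a + 2 := by linarith
  have t3 : a - 2 < b := by exact_mod_cast t1
  have t4 : b < a + 2 := by exact_mod_cast t2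
  omega

lemma node_supp (hR : 0 < R) (hk : 4 ≤ k) (κ : V → ℝ) (hκ : ∀ u, 0 < κ (Q R k u)) {s t : ℝ}
    {l : ℤ} (h : node k l (interp (fun u => κ (Q R k u) • Q R k u) s t) = 0) :
    ∀ u : ℤ × ℤ, hat (s - u.1) (t - u.2) ≠ 0 → node k l (Q R k u) = 0 := by
  rw [map_interp] at h
  intro u hu
  have := interp_eq_zero (fun u _ => by
    rw [map_smul, smul_eq_mul]; exact mul_nonneg (hκ u).le (node_nonneg hR hk l u)) h u hu
  rw [map_smul, smul_eq_mul] at this
  exact (mul_eq_zero.1 this).resolve_left (hκ u).ne'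

/-- all supporting vertices are corners of the quadrilateral face `i, j` -/
def Corn (R i j : ℤ) (s t : ℝ) : Prop :=
  ∀ u : ℤ × ℤ, hat (s - u.1) (t - u.2) ≠ 0 →
    R ≤ u.1 ∧ (u.2 = i - 1 ∨ u.2 = i) ∧ (u.2 + u.1 - R + 2 = j - 1 ∨ u.2 + u.1 - R + 2 = j)

lemma quad_inj (hk : 8 ≤ k) (κ : V → ℝ) (hκ : ∀ u, 0 < κ (Q R k u)) {i j : ℤ}
    (h1 : 2 ≤ j - i) (h2 : j - i ≤ k - 3) {s t s' t' : ℝ} (c1 : Corn R i j s t)
    (c2 : Corn R i j s' t')
    (h : interp (fun u => κ (Q R k u) • Q R k u) s t =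
      interp (fun u => κ (Q R k u) • Q R k u) s' t') : s = s' ∧ t = t' := by
  have hN : NN R k = 2 * R + k - 4 := rfl
  obtain ⟨a, ha⟩ : ∃ a, a = R - 2 + (j - i) := ⟨_, rfl⟩
  let T : Finset (ℤ × ℤ) := {(a, i - 1), (a, i), (a + 1, i - 1), (a - 1, i)}
  have hT : ∀ {s t : ℝ}, Corn R i j s t → ∀ u : ℤ × ℤ, hat (s - u.1) (t - u.2) ≠ 0 → u ∈ T := by
    rintro s t c ⟨b, n⟩ hu
    obtain ⟨_, e1, e2⟩ := c _ hu
    simp only [T, Finset.mem_insert, Finset.mem_singleton, Prod.mk.injEq] at *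
    omega
  have hsum : ∀ {s t : ℝ}, Corn R i j s t → interp (fun u => κ (Q R k u) • Q R k u) s t =
      hat (s - a) (t - (i - 1 : ℤ)) • κ (Q R k (a, i - 1)) • Q R k (a, i - 1) +
      hat (s - a) (t - i) • κ (Q R k (a, i)) • Q R k (a, i) +
      hat (s - (a + 1 : ℤ)) (t - (i - 1 : ℤ)) • κ (Q R k (a + 1, i - 1)) • Q R k (a + 1, i - 1) +
      hat (s - (a - 1 : ℤ)) (t - i) • κ (Q R k (a - 1, i)) • Q R k (a - 1, i) := by
    intro s t c
    rw [interp_eq_sum _ s t T (hT c),
      Finset.sum_insert (by simp only [Finset.mem_insert, Finset.mem_singleton, Prod.mk.injEq]; omega),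
      Finset.sum_insert (by simp only [Finset.mem_insert, Finset.mem_singleton, Prod.mk.injEq]; omega),
      Finset.sum_insert (by simp only [Finset.mem_singleton, Prod.mk.injEq]; omega),
      Finset.sum_singleton]
    simp only [add_assoc]
  have hud : ∀ s t : ℝ, hat (s - (a + 1 : ℤ)) (t - (i - 1 : ℤ)) = 0 ∨
      hat (s - (a - 1 : ℤ)) (t - i) = 0 := by
    intro s t
    by_contra hc
    push Not at hc
    have := supp_close (hat_ne_zero_iff.1 hc.1).1 (hat_ne_zero_iff.1 hc.2).1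
    omega
  rw [hsum c1, hsum c2] at h
  set bL := hat (s - a) (t - (i - 1 : ℤ)) with hbL
  set bR := hat (s - a) (t - i) with hbR
  set bU := hat (s - (a + 1 : ℤ)) (t - (i - 1 : ℤ)) with hbU
  set bD := hat (s - (a - 1 : ℤ)) (t - i) with hbD
  set bL' := hat (s' - a) (t' - (i - 1 : ℤ)) with hbL'
  set bR' := hat (s' - a) (t' - i) with hbR'
  set bU' := hat (s' - (a + 1 : ℤ)) (t' - (i - 1 : ℤ)) with hbU'
  set bD' := hat (s' - (a - 1 : ℤ)) (t' - i) with hbD'
  have hn : ∀ l, (bL - bL') * (κ (Q R k (a, i - 1)) * node k l (Q R k (a, i - 1))) +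
      (bR - bR') * (κ (Q R k (a, i)) * node k l (Q R k (a, i))) +
      (bU - bU') * (κ (Q R k (a + 1, i - 1)) * node k l (Q R k (a + 1, i - 1))) +
      (bD - bD') * (κ (Q R k (a - 1, i)) * node k l (Q R k (a - 1, i))) = 0 := by
    intro l
    have := congrArg (node k l) h
    simp only [map_add, map_smul, smul_eq_mul] at this
    linear_combination this
  have nL : ∀ l, node k l (Q R k (a, i - 1)) = eps k (l - i + 1) * eps k (l - j + 1) := by
    intro l; rw [node_mob (by omega) (by omega)]; congr 2 <;> omega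
  have nR : ∀ l, node k l (Q R k (a, i)) = eps k (l - i) * eps k (l - j) := by
    intro l; rw [node_mob (by omega) (by omega)]; congr 2; omega
  have nU : ∀ l, node k l (Q R k (a + 1, i - 1)) = eps k (l - i + 1) * eps k (l - j) := by
    intro l; rw [node_mob (by omega) (by omega)]; congr 2 <;> omega
  have E1 := hn (i - 1)
  have E2 := hn (j - 1)
  have E3 := hn (j + 1)
  rw [nL, nR, nU, show i - 1 - i + 1 = 0 by ring, eps_zero] at E1
  rw [nL, nR, nU, show j - 1 - j + 1 = 0 by ring, eps_zero] at E2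
  rw [nL, nR, nU, show j + 1 - j = 1 by ring, eps_one] at E3
  simp only [zero_mul, mul_zero, zero_add, add_zero] at E1 E2 E3
  have P1 : 0 < κ (Q R k (a, i)) * (eps k (i - 1 - i) * eps k (i - 1 - j)) :=
    mul_pos (hκ _) (mul_pos (eps_pos' (by omega) (by omega)) (eps_pos' (by omega) (by omega)))
  have P4 : 0 < κ (Q R k (a + 1, i - 1)) * (eps k (j - 1 - i + 1) * eps k (j - 1 - j)) :=
    mul_pos (hκ _) (mul_pos (eps_pos (by omega) (by omega)) (eps_pos' (by omega) (by omega)))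
  have P5 : 0 < κ (Q R k (a, i - 1)) * (eps k (j + 1 - i + 1) * eps k (1 + 1)) :=
    mul_pos (hκ _) (mul_pos (eps_pos (by omega) (by omega)) (eps_pos (by omega) (by omega)))
  have key : bR = bR' ∧ bD = bD' := by
    rcases eq_or_lt_of_le h1 with hd | hd
    · have z1 : bD = 0 := by
        by_contra hc
        have := (c1 (a - 1, i) hc).1
        simp only at this; omega
      have z2 : bD' = 0 := by
        by_contra hc
        have := (c2 (a - 1, i) hc).1
        simp only at this; omega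
      rw [z1, z2, sub_zero, zero_mul, add_zero] at E1
      have := (mul_eq_zero.1 E1).resolve_right P1.ne'
      exact ⟨by linarith, by rw [z1, z2]⟩
    · have nD : ∀ l, node k l (Q R k (a - 1, i)) = eps k (l - i) * eps k (l - j + 1) := by
        intro l; rw [node_mob (by omega) (by omega)]; congr 2; omega
      rw [nD] at E1 E2
      rw [show j - 1 - j + 1 = 0 by ring, eps_zero] at E2
      simp only [mul_zero, add_zero] at E2
      have P2 : 0 < κ (Q R k (a - 1, i)) * (eps k (i - 1 - i) * eps k (i - 1 - j + 1)) :=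
        mul_pos (hκ _) (mul_pos (eps_pos' (by omega) (by omega)) (eps_pos' (by omega) (by omega)))
      have P3 : 0 < κ (Q R k (a, i)) * (eps k (j - 1 - i) * eps k (j - 1 - j)) :=
        mul_pos (hκ _) (mul_pos (eps_pos (by omega) (by omega)) (eps_pos' (by omega) (by omega)))
      have n1 : 0 ≤ bU := hat_nonneg _ _
      have n2 : 0 ≤ bD := hat_nonneg _ _
      have n3 : 0 ≤ bU' := hat_nonneg _ _
      have n4 : 0 ≤ bD' := hat_nonneg _ _
      have hR : bR = bR' := by
        rcases lt_trichotomy bR bR' with hlt | heq | hlt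
        · exfalso
          have t1 := mul_neg_of_neg_of_pos (sub_neg.2 hlt) P1
          have t2 := mul_neg_of_neg_of_pos (sub_neg.2 hlt) P3
          have t3 : 0 < bD - bD' := (mul_pos_iff_of_pos_right P2).1 (by linarith)
          have t4 : 0 < bU - bU' := (mul_pos_iff_of_pos_right P4).1 (by linarith)
          rcases hud s t with h0 | h0
          · rw [← hbU] at h0; linarith
          · rw [← hbD] at h0; linarith
        · exact heq
        · exfalso
          have t1 := mul_pos (sub_pos.2 hlt) P1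
          have t2 := mul_pos (sub_pos.2 hlt) P3
          have t3 : 0 < bD' - bD := (mul_pos_iff_of_pos_right P2).1 (by linarith)
          have t4 : 0 < bU' - bU := (mul_pos_iff_of_pos_right P4).1 (by linarith)
          rcases hud s' t' with h0 | h0
          · rw [← hbU'] at h0; linarith
          · rw [← hbD'] at h0; linarith
      rw [hR, sub_self, zero_mul, zero_add] at E1
      have := (mul_eq_zero.1 E1).resolve_right P2.ne'
      exact ⟨hR, by linarith⟩
  obtain ⟨kR, kD⟩ := key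
  rw [kR, kD, sub_self, sub_self, zero_mul, zero_mul, zero_add, add_zero] at E2
  rw [kD, sub_self, zero_mul, add_zero] at E3
  have kU : bU = bU' := by
    have := (mul_eq_zero.1 E2).resolve_right P4.ne'; linarith
  have kL : bL = bL' := by
    have := (mul_eq_zero.1 E3).resolve_right P5.ne'; linarith
  apply eq_of_hat_eq
  intro u
  by_cases hu : u ∈ T
  · simp only [T, Finset.mem_insert, Finset.mem_singleton] at hu
    rcases hu with rfl | rfl | rfl | rfl
    · exact kL
    · exact kR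
    · exact kU
    · exact kD
  · have z1 : hat (s - u.1) (t - u.2) = 0 := by
      by_contra hc; exact hu (hT c1 u hc)
    have z2 : hat (s' - u.1) (t' - u.2) = 0 := by
      by_contra hc; exact hu (hT c2 u hc)
    rw [z1, z2]

lemma corn_of_vertex (hR : 0 < R) (hk : 8 ≤ k) (κ : V → ℝ) (hκ : ∀ u, 0 < κ (Q R k u)) {i j : ℤ}
    (h1 : 2 ≤ j - i) (h2 : j - i ≤ k - 3) {s t : ℝ} (hs1 : (R : ℝ) ≤ s) (hs2 : s ≤ NN R k - R)
    (hi : node k i (interp (fun u => κ (Q R k u) • Q R k u) s t) = 0)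
    (hj : node k j (interp (fun u => κ (Q R k u) • Q R k u) s t) = 0)
    {a m : ℤ} (hu : hat (s - a) (t - m) ≠ 0) (hm : m = i - 1 ∨ m = i) : Corn R i j s t := by
  have hN : NN R k = 2 * R + k - 4 := rfl
  have hs2' : s ≤ ((NN R k - R : ℤ) : ℝ) := by push_cast; exact hs2
  have vi := node_supp hR (by omega) κ hκ hi
  have vj := node_supp hR (by omega) κ hκ hj
  obtain ⟨r1, r2⟩ := supp_range hs1 hs2' (hat_ne_zero_iff.1 hu).1
  have e1 := vj (a, m) hu
  rw [node_mob r1 r2] at e1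
  have hq := corner1 hk h1 h2 (by omega) (by omega) hm e1
  rintro ⟨b, n⟩ hv
  obtain ⟨r3, r4⟩ := supp_range hs1 hs2' (hat_ne_zero_iff.1 hv).1
  have e2 := vi (b, n) hv
  have e3 := vj (b, n) hv
  rw [node_mob r3 r4] at e2 e3
  have d1 := supp_close (hat_ne_zero_iff.1 hu).2.1 (hat_ne_zero_iff.1 hv).2.1
  have d2 : a + m - 1 ≤ b + n ∧ b + n ≤ a + m + 1 := by
    apply supp_close (x := s + t)
    · have := (hat_ne_zero_iff.1 hu).2.2
      rwa [show s - a + (t - m) = s + t - ((a + m : ℤ) : ℝ) by push_cast; ring] at this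
    · have := (hat_ne_zero_iff.1 hv).2.2
      rwa [show s - (b : ℝ) + (t - (n : ℝ)) = s + t - ((b + n : ℤ) : ℝ) by push_cast; ring] at this
  simp only at d1 r3 r4 ⊢
  exact ⟨r3, corner3 hk h1 h2 (by omega) (by omega) (by omega) (by omega) (by omega) (by omega)
    e2 e3⟩

lemma node_J_pos (hR : 0 < R) (hk : 4 ≤ k) (κ : V → ℝ) (hκ : ∀ u, 0 < κ (Q R k u)) {s : ℝ}
    (hs : 0 ≤ s) (hs2 : s < R) (t : ℝ) (l : ℤ) :
    0 < node k l (J R k (fun v => κ v • v) s t) := by
  have hN : NN R k = 2 * R + k - 4 := rfl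
  obtain ⟨a, σ, h1, h2, rfl⟩ := exists_cell s
  obtain ⟨m, ω, h3, h4, rfl⟩ := exists_cell t
  have ha : 0 ≤ a := by
    have : (-1 : ℝ) < a := by linarith
    have : (-1 : ℤ) < a := by exact_mod_cast this
    omega
  have ha2 : a < R := by
    have : (a : ℝ) < R := by linarith
    exact_mod_cast this
  obtain ⟨c00, c10, c01, c11, p1, p2, p3, p4, p5, p6, p7, p8, p9, hJ⟩ :=
    J_cell (k := k) hR (fun v => κ v • v) m ha (by omega) h1 h2 h3 h4
  rw [hJ]
  simp only [map_add, map_smul, smul_eq_mul]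
  have t1 := mul_pos (hκ (a, m)) (node_disc_pos (k := k) hR ha2 l m)
  have t2 := mul_nonneg (hκ (a + 1, m)).le (node_nonneg hR hk l (a + 1, m))
  have t3 := mul_pos (hκ (a, m + 1)) (node_disc_pos (k := k) hR ha2 l (m + 1))
  have t4 := mul_nonneg (hκ (a + 1, m + 1)).le (node_nonneg hR hk l (a + 1, m + 1))
  rcases eq_or_lt_of_le p1 with b | b
  · have : 0 < c01 := by linarith
    positivity
  · positivity

theorem inj_mob (hR : 0 < R) (hk : 8 ≤ k) (κ : V → ℝ) (hκ : ∀ u, 0 < κ (Q R k u))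
    {s t s' t' : ℝ} (hs1 : (R : ℝ) ≤ s) (hs2 : 2 * s ≤ NN R k) (hs' : 0 ≤ s')
    (hs2' : 2 * s' ≤ NN R k)
    (h : J R k (fun v => κ v • v) s t = J R k (fun v => κ v • v) s' t') :
    yv R k s t = yv R k s' t' ∨ yv R k s t = -yv R k s' t' := by
  have hN : NN R k = 2 * R + k - 4 := rfl
  have hNr : (NN R k : ℝ) = 2 * R + k - 4 := NN_cast
  have hRr : (1 : ℝ) ≤ R := by exact_mod_cast hR
  have hkr : (8 : ℝ) ≤ k := by exact_mod_cast hk
  have hmid : ∀ {s : ℝ} (t : ℝ), (R : ℝ) ≤ s → s ≤ NN R k - R →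
      J R k (fun v => κ v • v) s t = interp (fun u => κ (Q R k u) • Q R k u) s t :=
    fun t h1 h2 => J_mid _ (by linarith) (by linarith) t
  obtain ⟨i, hi⟩ : ∃ i, i = ⌊t⌋ + 1 := ⟨_, rfl⟩
  obtain ⟨j, hj⟩ : ∃ j, j = ⌊t + s - R + 2⌋ + 1 := ⟨_, rfl⟩
  have f1 := Int.floor_le t
  have f2 := Int.lt_floor_add_one t
  have f3 := Int.floor_le (t + s - R + 2)
  have f4 := Int.lt_floor_add_one (t + s - R + 2)
  have h1 : 2 ≤ j - i := by
    have : ((⌊t⌋ + 1 : ℤ) : ℝ) < ⌊t + s - R + 2⌋ := by push_cast; linarith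
    have : ⌊t⌋ + 1 < ⌊t + s - R + 2⌋ := by exact_mod_cast this
    omega
  have h2 : j - i ≤ k - 3 := by
    have : ((2 * ⌊t + s - R + 2⌋ : ℤ) : ℝ) < ((2 * ⌊t⌋ + k + 2 : ℤ) : ℝ) := by push_cast; linarith
    have : 2 * ⌊t + s - R + 2⌋ < 2 * ⌊t⌋ + k + 2 := by exact_mod_cast this
    omega
  have hs3 : s ≤ ((NN R k - R : ℤ) : ℝ) := by push_cast; linarith
  have c1 : Corn R i j s t := by
    rintro ⟨b, n⟩ hv
    obtain ⟨v1, v2, v3⟩ := hat_ne_zero_iff.1 hv
    simp only at v1 v2 v3 ⊢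
    refine ⟨(supp_range hs1 hs3 v1).1, ?_, ?_⟩
    · have := int_near f1 f2.le v2; omega
    · have := int_near (b := n + b - R + 2) f3 f4.le (by
        rwa [show t + s - R + 2 - ((n + b - R + 2 : ℤ) : ℝ) = s - b + (t - n) by push_cast; ring])
      omega
  have hvan : ∀ l, (l = i ∨ l = j) →
      node k l (interp (fun u => κ (Q R k u) • Q R k u) s t) = 0 := by
    intro l hl
    rw [map_interp, interp_congr _ (fun _ => (0 : ℝ))]
    · simp [interp]
    · rintro ⟨b, n⟩ hv
      obtain ⟨r1, r2, r3⟩ := c1 _ hv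
      have r4 := (supp_range hs1 hs3 (hat_ne_zero_iff.1 hv).1).2
      simp only at r1 r2 r3 r4
      rw [map_smul, node_mob r1 r4]
      have : eps k (l - n) = 0 ∨ eps k (l - (n + b - R + 2)) = 0 := by
        rcases hl with rfl | rfl
        · left
          rcases r2 with r2 | r2
          · rw [show l - n = 1 by omega, eps_one]
          · rw [show l - n = 0 by omega, eps_zero]
        · right
          rcases r3 with r3 | r3
          · rw [show l - (n + b - R + 2) = 1 by omega, eps_one]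
          · rw [show l - (n + b - R + 2) = 0 by omega, eps_zero]
      rw [mul_eq_zero.2 this]; simp
  rw [hmid t hs1 (by linarith)] at h
  have hs'R : (R : ℝ) ≤ s' := by
    by_contra hc
    have := node_J_pos hR (by omega : 4 ≤ k) κ hκ hs' (not_le.1 hc) t' i
    rw [← h, hvan i (Or.inl rfl)] at this
    exact lt_irrefl _ this
  -- a point of the Moebius zone with the same image and one supporting corner is the same point
  have fin : ∀ {s'' t'' : ℝ}, (R : ℝ) ≤ s'' → s'' ≤ NN R k - R →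
      interp (fun u => κ (Q R k u) • Q R k u) s t = J R k (fun v => κ v • v) s'' t'' →
      ∀ {a m : ℤ}, hat (s'' - a) (t'' - m) ≠ 0 → (m = i - 1 ∨ m = i) → s = s'' ∧ t = t'' := by
    intro s'' t'' b1 b2 he a m hu hm
    rw [hmid t'' b1 b2] at he
    exact quad_inj hk κ hκ h1 h2 c1 (corn_of_vertex hR hk κ hκ h1 h2 b1 b2
      (he ▸ hvan i (Or.inl rfl)) (he ▸ hvan j (Or.inr rfl)) hu hm) he
  obtain ⟨m0, hm0⟩ := exists_support_floor s' t'
  generalize ⌊s'⌋ = a0 at hm0
  have hk0 : 0 < k := by omega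
  have e1 := Int.emod_add_mul_ediv (m0 - (i - 1)) k
  have e2 := Int.emod_nonneg (m0 - (i - 1)) hk0.ne'
  have e3 := Int.emod_lt_of_pos (m0 - (i - 1)) hk0
  generalize (m0 - (i - 1)) % k = d at *
  generalize (m0 - (i - 1)) / k = jj at *
  have hm1 : hat (s' - a0) (t' + k * ((-jj : ℤ) : ℝ) - ((i - 1 + d : ℤ) : ℝ)) ≠ 0 := by
    have : (m0 : ℝ) = i - 1 + d + k * jj := by
      have : m0 = i - 1 + d + k * jj := by omega
      exact_mod_cast this
    rw [this] at hm0
    convert hm0 using 2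
    push_cast; ring
  rw [← J_shift hk0 _ s' t' (-jj)] at h
  rw [← yv_shift hk0 s' t' (-jj)]
  generalize t' + k * ((-jj : ℤ) : ℝ) = t1 at *
  by_cases hd : d ≤ 1
  · obtain ⟨rfl, rfl⟩ := fin hs'R (by linarith) h hm1 (by omega)
    exact Or.inl rfl
  · have hs3' : s' ≤ ((NN R k - R : ℤ) : ℝ) := by push_cast; linarith
    obtain ⟨r1, r2⟩ := supp_range hs'R hs3' (hat_ne_zero_iff.1 hm1).1
    have hv := hvan i (Or.inl rfl)
    rw [h, hmid t1 hs'R (by linarith)] at hv
    have e4 := node_supp hR (by omega) κ hκ hv (a0, i - 1 + d) hm1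
    rw [node_mob r1 r2] at e4
    have e5 := corner2 hk (by omega) (by omega) (by omega) (by omega) e4
    have hcl : cl R k s' = s' := cl_mid (by linarith) (by linarith)
    rw [← J_glide hR (by omega), ← J_shift hk0 _ _ _ (-1), hcl] at h
    have hm2 : hat (NN R k - s' - ((NN R k - a0 : ℤ) : ℝ))
        (t1 + s' - (R - 2) + k * ((-1 : ℤ) : ℝ) - ((i - 1 + d + a0 - R + 2 - k : ℤ) : ℝ)) ≠ 0 := by
      rw [← hat_symm] at hm1
      convert hm1 using 2 <;> push_cast <;> ring
    obtain ⟨g1, g2⟩ := fin (by linarith) (by linarith) h hm2 e5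
    right
    rw [g2]
    conv_lhs => rw [g1]
    rw [yv_shift hk0, ← yv_glide hR (by omega), hcl, ← g1]

theorem inj_J (hR : 0 < R) (hk : 8 ≤ k) (hG : Good R (hh k)) (κ : V → ℝ)
    (hκ : ∀ u, 0 < κ (Q R k u)) {s t s' t' : ℝ} (h1 : 0 ≤ s) (h2 : s ≤ NN R k) (h1' : 0 ≤ s')
    (h2' : s' ≤ NN R k)
    (h : J R k (fun v => κ v • v) s t = J R k (fun v => κ v • v) s' t') :
    yv R k s t = yv R k s' t' ∨ yv R k s t = -yv R k s' t' := by
  have core : ∀ {s t s' t' : ℝ}, 0 ≤ s → 2 * s ≤ NN R k → 0 ≤ s' → 2 * s' ≤ NN R k →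
      J R k (fun v => κ v • v) s t = J R k (fun v => κ v • v) s' t' →
      yv R k s t = yv R k s' t' ∨ yv R k s t = -yv R k s' t' := by
    intro s t s' t' h1 h2 h1' h2' h
    by_cases a1 : (R : ℝ) ≤ s
    · exact inj_mob hR hk κ hκ a1 h2 h1' h2' h
    · by_cases a2 : (R : ℝ) ≤ s'
      · rcases inj_mob hR hk κ hκ a2 h2' h1 h2 h.symm with e | e
        · exact Or.inl e.symm
        · right; rw [e, neg_neg]
      · left
        rcases inj_disc hR (by omega) hG κ hκ h1 (not_le.1 a1) h1' (not_le.1 a2) h with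
          ⟨rfl, rfl⟩ | ⟨rfl, j, rfl⟩
        · have hN : (0 : ℝ) ≤ NN R k := by linarith
          have hRr : (0 : ℝ) < R := by exact_mod_cast hR
          have : rr R k 0 = 0 := by
            unfold rr
            rw [zero_div, min_eq_left (a := (0 : ℝ)) (by rw [sub_zero]; positivity),
              min_eq_right zero_le_one]
          unfold yv
          rw [this]; simp
        · rw [yv_shift (by omega)]
  have half : ∀ {s : ℝ} (t : ℝ), 0 ≤ s → s ≤ NN R k → ∃ s1 t1 : ℝ, 0 ≤ s1 ∧ 2 * s1 ≤ NN R k ∧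
      J R k (fun v => κ v • v) s1 t1 = J R k (fun v => κ v • v) s t ∧
      (yv R k s t = yv R k s1 t1 ∨ yv R k s t = -yv R k s1 t1) := by
    intro s t h1 h2
    by_cases hc : 2 * s ≤ NN R k
    · exact ⟨s, t, h1, hc, rfl, Or.inl rfl⟩
    · exact ⟨NN R k - s, t + cl R k s - (R - 2), by linarith, by linarith,
        J_glide hR (by omega) _ s t, Or.inr (by rw [yv_glide hR (by omega), neg_neg])⟩
  obtain ⟨s1, t1, a1, a2, a3, a4⟩ := half t h1 h2
  obtain ⟨s2, t2, b1, b2, b3, b4⟩ := half t' h1' h2'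
  have := core a1 a2 b1 b2 (by rw [a3, b3, h])
  rcases a4 with a4 | a4 <;> rcases b4 with b4 | b4 <;> rcases this with c | c <;>
    simp [a4, b4, c]

end Pool.Agent.Lib.MP_c8c16f_gt
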