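import Mathlib
import Pool.Agent.Lib.MP_c8c16f_gt.Approx

set_option autoImplicit false

namespace Pool.Agent.Lib.MP_c8c16f_gt

open Real

lemma spectral3 (C : Matrix (Fin 3) (Fin 3) ℝ) (hC : C.IsHermitian) :
    ∃ (e : Fin 3 → Fin 3 → ℝ) (l : Fin 3 → ℝ),
      (∀ r s, ∑ i, e r i * e s i = if r = s then 1 else 0) ∧
      ∀ i j, C i j = ∑ r, l r * (e r i * e r j) := by
  refine ⟨fun r i => (hC.eigenvectorUnitary : Matrix (Fin 3) (Fin 3) ℝ) i r, hC.eigenvalues,
    ?_, ?_⟩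
  · intro r s
    have := congrFun (congrFun (Unitary.coe_star_mul_self hC.eigenvectorUnitary) r) s
    simpa [Matrix.mul_apply, Matrix.one_apply, Matrix.star_apply] using this
  · intro i j
    have := congrFun (congrFun hC.spectral_theorem i) j
    rw [this, Unitary.conjStarAlgAut_apply]
    simp only [Matrix.mul_apply, Matrix.diagonal_apply, Matrix.star_apply, star_trivial,
      Function.comp_apply, RCLike.ofReal_real_eq_id, id_eq, mul_ite, mul_zero,
      Finset.sum_ite_eq', Finset.mem_univ, if_true]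
    apply Finset.sum_congr rfl
    intro r _
    ring

/-- symmetric product in the orthonormal coordinates of the space of symmetric matrices -/
noncomputable def sym (x y : Fin 3 → ℝ) : Fin 6 → ℝ :=
  ![x 0 * y 0, x 1 * y 1, x 2 * y 2, √2 * (x 0 * y 1 + x 1 * y 0) / 2,
    √2 * (x 0 * y 2 + x 2 * y 0) / 2, √2 * (x 1 * y 2 + x 2 * y 1) / 2]

def dot (x y : Fin 3 → ℝ) : ℝ := x 0 * y 0 + x 1 * y 1 + x 2 * y 2

/-- contraction of a symmetric matrix with two vectors -/
noncomputable def contr (x y : Fin 3 → ℝ) : (Fin 6 → ℝ) →ₗ[ℝ] ℝ where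
  toFun c := c 0 * (x 0 * y 0) + c 1 * (x 1 * y 1) + c 2 * (x 2 * y 2) +
    √2 / 2 * (c 3 * (x 0 * y 1 + x 1 * y 0) + c 4 * (x 0 * y 2 + x 2 * y 0) +
      c 5 * (x 1 * y 2 + x 2 * y 1))
  map_add' p q := by simp only [Pi.add_apply]; ring
  map_smul' c p := by simp only [Pi.smul_apply, smul_eq_mul, RingHom.id_apply]; ring

lemma contr_sym (x y n n' : Fin 3 → ℝ) :
    contr x y (sym n n') = (dot x n * dot y n' + dot x n' * dot y n) / 2 := by
  have h2 : √2 * √2 = 2 := Real.mul_self_sqrt (by norm_num)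
  simp only [contr, sym, dot, LinearMap.coe_mk, AddHom.coe_mk, Matrix.cons_val_zero,
    Matrix.cons_val_one, Matrix.cons_val]
  linear_combination (((n 0 * n' 1 + n 1 * n' 0) * (x 0 * y 1 + x 1 * y 0) +
    (n 0 * n' 2 + n 2 * n' 0) * (x 0 * y 2 + x 2 * y 0) +
    (n 1 * n' 2 + n 2 * n' 1) * (x 1 * y 2 + x 2 * y 1)) / 4) * h2

noncomputable def proj (u : Fin 4 → Fin 6 → ℝ) : (Fin 6 → ℝ) →ₗ[ℝ] (Fin 4 → ℝ) where
  toFun c i := ∑ k, u i k * c k
  map_add' p q := by ext i; simp [mul_add, Finset.sum_add_distrib]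
  map_smul' c p := by
    ext i; simp only [Pi.smul_apply, smul_eq_mul, RingHom.id_apply, Finset.mul_sum]
    apply Finset.sum_congr rfl; intro k _; ring

noncomputable def trc : (Fin 6 → ℝ) →ₗ[ℝ] ℝ where
  toFun c := c 0 + c 1 + c 2
  map_add' p q := by simp only [Pi.add_apply]; ring
  map_smul' c p := by simp only [Pi.smul_apply, smul_eq_mul, RingHom.id_apply]; ring

lemma trc_sym (x y : Fin 3 → ℝ) : trc (sym x y) = dot x y := by
  simp [trc, sym, dot]

lemma exists_kernel (u : Fin 4 → Fin 6 → ℝ)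
    (h1 : ∀ i j, ∑ k, u i k * u j k = if i = j then (1 : ℝ) else 0)
    (h2 : ∀ i, u i 0 + u i 1 + u i 2 = 0) :
    ∃ c : Fin 6 → ℝ, c ≠ 0 ∧ proj u c = 0 ∧ trc c = 0 ∧
      ∀ d, proj u d = 0 → trc d = 0 → ∃ κ : ℝ, κ • c = d := by
  let P : (Fin 6 → ℝ) →ₗ[ℝ] (Fin 4 → ℝ) × ℝ := (proj u).prod trc
  have hsurj : LinearMap.range P = ⊤ := by
    rw [LinearMap.range_eq_top]
    rintro ⟨a, b⟩
    refine ⟨∑ j, a j • u j + (b / 3) • ![1, 1, 1, 0, 0, 0], ?_⟩
    have e1 : ∀ j, proj u (u j) = Pi.single j 1 := by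
      intro j; ext i
      show ∑ k, u i k * u j k = _
      rw [h1, Pi.single_apply]
    have e2 : ∀ j, trc (u j) = 0 := h2
    have e3 : proj u ![1, 1, 1, 0, 0, 0] = 0 := by
      ext i
      show ∑ k, u i k * (![1, 1, 1, 0, 0, 0] : Fin 6 → ℝ) k = 0
      simpa [Fin.sum_univ_six] using h2 i
    have e4 : trc ![1, 1, 1, 0, 0, 0] = 3 := by
      simp [trc]; norm_num
    simp only [P, LinearMap.prod_apply, Function.prod, map_add, map_sum, map_smul, e1, e2, e3, e4]
    ext i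
    · simp [Prod.fst_sum, Pi.single_apply]
    · simp [Prod.snd_sum]
  have hker : Module.finrank ℝ (LinearMap.ker P) = 1 := by
    have := LinearMap.finrank_range_add_finrank_ker P
    rw [hsurj, finrank_top] at this
    simp only [Module.finrank_prod, Module.finrank_fintype_fun_eq_card, Fintype.card_fin,
      Module.finrank_self] at this
    omega
  obtain ⟨c, hc0, hc⟩ := finrank_eq_one_iff'.1 hker
  have hm := LinearMap.mem_ker.1 c.2
  refine ⟨c, fun h => hc0 (Subtype.ext h), congrArg Prod.fst hm, congrArg Prod.snd hm, ?_⟩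
  intro d hd1 hd2
  obtain ⟨κ, hκ⟩ := hc ⟨d, LinearMap.mem_ker.2 (Prod.ext hd1 hd2)⟩
  exact ⟨κ, congrArg Subtype.val hκ⟩

/-- the data to which the problem is reduced -/
structure Model (u : Fin 4 → Fin 6 → ℝ) where
  Nl : (Fin 3 → ℝ) →ₗ[ℝ] (Fin 3 → ℝ)
  Λ : V →ₗ[ℝ] (Fin 4 → ℝ)
  τ : V →ₗ[ℝ] ℝ
  inj : Function.Injective Nl
  ker : ∀ p, Λ p = 0 → τ p = 0 → p = 0
  hΛ : ∀ y, proj u (sym (Nl y) (Nl y)) = Λ (G y)
  hτ : ∀ y, dot (Nl y) (Nl y) = τ (G y)

lemma model_core (u : Fin 4 → Fin 6 → ℝ) (c : Fin 6 → ℝ) (hc1 : proj u c = 0) (hc2 : trc c = 0)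
    (hc3 : ∀ d, proj u d = 0 → trc d = 0 → ∃ κ : ℝ, κ • c = d) (e0 e1 e2 : Fin 3 → ℝ)
    (h00 : dot e0 e0 = 1) (h11 : dot e1 e1 = 1) (h22 : dot e2 e2 = 1) (h01 : dot e0 e1 = 0)
    (h02 : dot e0 e2 = 0) (h12 : dot e1 e2 = 0) (a b d : ℝ) (ha : 0 < a) (hb : 0 < b) (hd : 0 < d)
    (hc : c = a • sym e0 e0 + b • sym e1 e1 - d • sym e2 e2) : Nonempty (Model u) := by
  obtain ⟨α, hα, rfl⟩ : ∃ α, 0 < α ∧ a = α * α := ⟨√a, sqrt_pos.2 ha, (mul_self_sqrt ha.le).symm⟩
  obtain ⟨β, hβ, rfl⟩ : ∃ α, 0 < α ∧ b = α * α := ⟨√b, sqrt_pos.2 hb, (mul_self_sqrt hb.le).symm⟩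
  obtain ⟨γ, hγ, rfl⟩ : ∃ α, 0 < α ∧ d = α * α := ⟨√d, sqrt_pos.2 hd, (mul_self_sqrt hd.le).symm⟩
  have h10 : dot e1 e0 = 0 := by rw [← h01]; unfold dot; ring
  have h20 : dot e2 e0 = 0 := by rw [← h02]; unfold dot; ring
  have h21 : dot e2 e1 = 0 := by rw [← h12]; unfold dot; ring
  let Nl : (Fin 3 → ℝ) →ₗ[ℝ] (Fin 3 → ℝ) :=
    { toFun := fun y => (y 0 * α) • e0 + (y 1 * β) • e1 + (y 2 * γ) • e2
      map_add' := fun p q => by simp only [Pi.add_apply]; module
      map_smul' := fun c p => by simp only [Pi.smul_apply, smul_eq_mul, RingHom.id_apply]; module }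
  let Θ : V →ₗ[ℝ] (Fin 6 → ℝ) :=
    { toFun := fun p => (p 3 * (α * α)) • sym e0 e0 - (p 3 * (β * β)) • sym e1 e1 +
        (2 * p 4 * (α * β)) • sym e0 e1 + (p 1 * (α * γ)) • sym e0 e2 +
        (p 2 * (β * γ)) • sym e1 e2 + (p 0 * (γ * γ)) • sym e2 e2
      map_add' := fun p q => by simp only [Pi.add_apply]; module
      map_smul' := fun c p => by simp only [Pi.smul_apply, smul_eq_mul, RingHom.id_apply]; module }
  have key : ∀ y, sym (Nl y) (Nl y) = Θ (G y) + ((y 0 ^ 2 + y 1 ^ 2) / 2) • c := by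
    intro y
    rw [hc]
    ext i
    fin_cases i <;> simp [Nl, Θ, G, sym] <;> ring
  refine ⟨⟨Nl, proj u ∘ₗ Θ, trc ∘ₗ Θ, ?_, ?_, ?_, ?_⟩⟩
  · rw [injective_iff_map_eq_zero]
    intro y hy
    have hd : ∀ x, dot x (Nl y) = y 0 * α * dot x e0 + y 1 * β * dot x e1 + y 2 * γ * dot x e2 := by
      intro x; simp [Nl, dot]; ring
    have z : ∀ x, dot x (Nl y) = 0 := by intro x; rw [hy]; simp [dot]
    have t0 := (hd e0).symm.trans (z e0)
    have t1 := (hd e1).symm.trans (z e1)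
    have t2 := (hd e2).symm.trans (z e2)
    simp only [h00, h11, h22, h01, h02, h12, h10, h20, h21, mul_zero, mul_one, add_zero, zero_add,
      mul_eq_zero, hα.ne', hβ.ne', hγ.ne', or_false] at t0 t1 t2
    ext i; fin_cases i <;> assumption
  · intro p hp1 hp2
    obtain ⟨κ, hκ⟩ := hc3 (Θ p) hp1 hp2
    have hh : ∀ x y, contr x y (κ • c) = contr x y (Θ p) := fun x y => by rw [hκ]
    have t00 := hh e0 e0
    have t11 := hh e1 e1
    have t22 := hh e2 e2
    have t01 := hh e0 e1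
    have t02 := hh e0 e2
    have t12 := hh e1 e2
    simp only [hc, Θ, LinearMap.coe_mk, AddHom.coe_mk, map_add, map_sub, map_smul, contr_sym,
      h00, h11, h22, h01, h02, h12, h10, h20, h21, smul_eq_mul] at t00 t11 t22 t01 t02 t12
    have q1 : (κ - p 3) * (α * α) = 0 := by linarith
    have q2 : (κ + p 3) * (β * β) = 0 := by linarith
    have q3 : (κ + p 0) * (γ * γ) = 0 := by linarith
    have q4 : p 4 * (α * β) = 0 := by linarith
    have q5 : p 1 * (α * γ) = 0 := by linarith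
    have q6 : p 2 * (β * γ) = 0 := by linarith
    simp only [mul_eq_zero, hα.ne', hβ.ne', hγ.ne', or_false] at q1 q2 q3 q4 q5 q6
    ext i
    fin_cases i <;> simp <;> linarith
  · intro y
    rw [key, map_add, map_smul, hc1, smul_zero, add_zero]; rfl
  · intro y
    rw [← trc_sym, key, map_add, map_smul, hc2, smul_zero, add_zero]; rfl

lemma fderiv_sym (u : Fin 4 → Fin 6 → ℝ) (x w : Fin 3 → ℝ) :
    fderiv ℝ (fun x => proj u (sym x x)) x w = proj u ((2 : ℝ) • sym x w) := by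
  have hd : DifferentiableAt ℝ (fun x : Fin 3 → ℝ => proj u (sym x x)) x := by
    apply (proj u).toContinuousLinearMap.differentiableAt.comp (f := fun x => sym x x)
    rw [differentiableAt_pi]
    intro i
    fin_cases i <;> simp [sym] <;> fun_prop
  have hl : HasDerivAt (fun t : ℝ => x + t • w) w 0 := by
    simpa using ((hasDerivAt_id (0 : ℝ)).smul_const w).const_add x
  have h1 : HasDerivAt (fun t : ℝ => proj u (sym (x + t • w) (x + t • w)))
      (fderiv ℝ (fun x => proj u (sym x x)) x w) 0 := by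
    have hd' : HasFDerivAt (fun x => proj u (sym x x)) (fderiv ℝ (fun x => proj u (sym x x)) x)
        (x + (0 : ℝ) • w) := by simpa using hd.hasFDerivAt
    exact hd'.comp_hasDerivAt (0 : ℝ) hl
  have h2 : HasDerivAt (fun t : ℝ => proj u (sym x x) + t • proj u ((2 : ℝ) • sym x w) +
      (t ^ 2) • proj u (sym w w)) (proj u ((2 : ℝ) • sym x w)) 0 := by
    have a1 := ((hasDerivAt_id (0 : ℝ)).smul_const (proj u ((2 : ℝ) • sym x w))).const_add
      (proj u (sym x x))
    have a2 := (hasDerivAt_pow 2 (0 : ℝ)).smul_const (proj u (sym w w))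
    have a3 := a1.add a2
    simp only [id_eq, one_smul, Nat.cast_ofNat, Nat.add_one_sub_one, pow_one, mul_zero, zero_smul,
      add_zero] at a3
    exact a3
  have h3 : (fun t : ℝ => proj u (sym (x + t • w) (x + t • w))) = fun t : ℝ =>
      proj u (sym x x) + t • proj u ((2 : ℝ) • sym x w) + (t ^ 2) • proj u (sym w w) := by
    ext1 t
    rw [← map_smul, ← map_smul, ← map_add, ← map_add]
    congr 1
    ext i
    fin_cases i <;> simp [sym] <;> ring
  rw [h3] at h1
  exact h1.unique h2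

theorem exists_model (u : Fin 4 → Fin 6 → ℝ)
    (h1 : ∀ i j, ∑ k, u i k * u j k = if i = j then (1 : ℝ) else 0)
    (h2 : ∀ i, u i 0 + u i 1 + u i 2 = 0)
    (h3 : ∀ x : Fin 3 → ℝ, ∑ j, x j ^ 2 = 1 → ∀ w : Fin 3 → ℝ, ∑ j, x j * w j = 0 →
      fderiv ℝ (fun x => proj u (sym x x)) x w = 0 → w = 0) : Nonempty (Model u) := by
  obtain ⟨c, hc0, hc1, hc2, hc3⟩ := exists_kernel u h1 h2
  have s2 : √2 * √2 = 2 := Real.mul_self_sqrt (by norm_num)
  have s0 : (0 : ℝ) < √2 := by positivity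
  let C : Matrix (Fin 3) (Fin 3) ℝ :=
    !![c 0, c 3 / √2, c 4 / √2; c 3 / √2, c 1, c 5 / √2; c 4 / √2, c 5 / √2, c 2]
  have hC : C.IsHermitian := by
    ext i j; fin_cases i <;> fin_cases j <;> simp [C]
  obtain ⟨e, l, he, hl⟩ := spectral3 C hC
  have hdot : ∀ r s, dot (e r) (e s) = if r = s then 1 else 0 := by
    intro r s; rw [← he, Fin.sum_univ_three]; rfl
  have hc : c = l 0 • sym (e 0) (e 0) + l 1 • sym (e 1) (e 1) + l 2 • sym (e 2) (e 2) := by
    have a00 := hl 0 0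
    have a11 := hl 1 1
    have a22 := hl 2 2
    have a01 := hl 0 1
    have a02 := hl 0 2
    have a12 := hl 1 2
    simp only [C, Fin.sum_univ_three, Matrix.of_apply, Matrix.cons_val', Matrix.cons_val_zero,
      Matrix.cons_val_one, Matrix.cons_val, Matrix.cons_val_fin_one] at a00 a11 a22 a01 a02 a12
    rw [div_eq_iff s0.ne'] at a01 a02 a12
    ext i
    fin_cases i <;> simp [sym] <;> linarith
  have htr : l 0 + l 1 + l 2 = 0 := by
    rw [hc] at hc2
    simpa [trc_sym, hdot] using hc2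
  -- no eigenvalue vanishes
  have hnz : ∀ (f g : Fin 3 → ℝ) (μ : ℝ), dot f f = 1 → dot g g = 1 → dot f g = 0 →
      c = μ • sym f f - μ • sym g g → False := by
    intro f g μ hf hg hfg hcc
    have hw := h3 ((√2 / 2) • (f + g)) ?_ ((μ * √2 / 2) • (f - g)) ?_ ?_
    · rcases smul_eq_zero.1 hw with h | h
      · have : μ = 0 := by
          have : μ * √2 = 0 := by linarith
          exact (mul_eq_zero.1 this).resolve_right s0.ne'
        apply hc0; rw [hcc, this]; simp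
      · rw [sub_eq_zero] at h
        rw [h, hg] at hfg; exact one_ne_zero hfg
    · simp only [Fin.sum_univ_three, Pi.smul_apply, Pi.add_apply, smul_eq_mul]
      unfold dot at hf hg hfg
      linear_combination (1 / 2 : ℝ) * hf + (1 / 2 : ℝ) * hg + hfg +
        (((f 0 + g 0) ^ 2 + (f 1 + g 1) ^ 2 + (f 2 + g 2) ^ 2) / 4) * s2
    · simp only [Fin.sum_univ_three, Pi.smul_apply, Pi.add_apply, Pi.sub_apply, smul_eq_mul]
      unfold dot at hf hg
      linear_combination (μ * √2 * √2 / 4) * hf - (μ * √2 * √2 / 4) * hg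
    · rw [fderiv_sym, ← hc1, hcc]
      congr 1
      ext i
      fin_cases i <;> simp [sym]
      · linear_combination (μ * (f 0 * f 0 - g 0 * g 0) / 2) * s2
      · linear_combination (μ * (f 1 * f 1 - g 1 * g 1) / 2) * s2
      · linear_combination (μ * (f 2 * f 2 - g 2 * g 2) / 2) * s2
      · linear_combination (√2 * μ * (f 0 * f 1 - g 0 * g 1) / 2) * s2
      · linear_combination (√2 * μ * (f 0 * f 2 - g 0 * g 2) / 2) * s2
      · linear_combination (√2 * μ * (f 1 * f 2 - g 1 * g 2) / 2) * s2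
  have n0 : l 0 ≠ 0 := fun h => hnz (e 1) (e 2) (l 1) (by simp [hdot]) (by simp [hdot])
    (by simp [hdot]) (by rw [hc, h, show l 2 = -l 1 by linarith]; module)
  have n1 : l 1 ≠ 0 := fun h => hnz (e 0) (e 2) (l 0) (by simp [hdot]) (by simp [hdot])
    (by simp [hdot]) (by rw [hc, h, show l 2 = -l 0 by linarith]; module)
  have n2 : l 2 ≠ 0 := fun h => hnz (e 0) (e 1) (l 0) (by simp [hdot]) (by simp [hdot])
    (by simp [hdot]) (by rw [hc, h, show l 1 = -l 0 by linarith]; module)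
  have pos : ∀ r s t : Fin 3, r ≠ s → r ≠ t → s ≠ t → 0 < l r → 0 < l s → l t < 0 →
      c = l r • sym (e r) (e r) + l s • sym (e s) (e s) + l t • sym (e t) (e t) →
      Nonempty (Model u) := by
    intro r s t d1 d2 d3 p1 p2 p3 hcc
    exact model_core u c hc1 hc2 hc3 (e r) (e s) (e t) (by simp [hdot]) (by simp [hdot])
      (by simp [hdot]) (by simp [hdot, d1]) (by simp [hdot, d2]) (by simp [hdot, d3])
      (l r) (l s) (-l t) p1 p2 (by linarith) (by rw [hcc]; module)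
  have neg : ∀ r s t : Fin 3, r ≠ s → r ≠ t → s ≠ t → l r < 0 → l s < 0 → 0 < l t →
      c = l r • sym (e r) (e r) + l s • sym (e s) (e s) + l t • sym (e t) (e t) →
      Nonempty (Model u) := by
    intro r s t d1 d2 d3 p1 p2 p3 hcc
    refine model_core u (-c) (by rw [map_neg, hc1, neg_zero]) (by rw [map_neg, hc2, neg_zero])
      (fun d a b => ?_) (e r) (e s) (e t) (by simp [hdot]) (by simp [hdot])
      (by simp [hdot]) (by simp [hdot, d1]) (by simp [hdot, d2]) (by simp [hdot, d3])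
      (-l r) (-l s) (l t) (by linarith) (by linarith) p3 (by rw [hcc]; module)
    obtain ⟨κ, hκ⟩ := hc3 d a b
    exact ⟨-κ, by rw [← hκ]; module⟩
  rcases lt_or_gt_of_ne n0 with a0 | a0 <;> rcases lt_or_gt_of_ne n1 with a1 | a1 <;>
    rcases lt_or_gt_of_ne n2 with a2 | a2
  · linarith
  · exact neg 0 1 2 (by decide) (by decide) (by decide) a0 a1 a2 hc
  · exact neg 0 2 1 (by decide) (by decide) (by decide) a0 a2 a1 (by rw [hc]; module)
  · exact pos 1 2 0 (by decide) (by decide) (by decide) a1 a2 a0 (by rw [hc]; module)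
  · exact neg 1 2 0 (by decide) (by decide) (by decide) a1 a2 a0 (by rw [hc]; module)
  · exact pos 0 2 1 (by decide) (by decide) (by decide) a0 a2 a1 (by rw [hc]; module)
  · exact pos 0 1 2 (by decide) (by decide) (by decide) a0 a1 a2 hc
  · linarith

end Pool.Agent.Lib.MP_c8c16f_gt
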