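import Mathlib
import Pool.Agent.Lib.MP_c8c16f_gt.Reduce
import Pool.Agent.Lib.MP_c8c16f_gt.Cover
import Pool.Agent.Lib.MP_c8c16f_gt.InjMob
import Pool.Agent.Lib.MP_c8c16f_gt.Good

set_option autoImplicit false

namespace Pool.Agent.Lib.MP_c8c16f_gt

open Real Filter Topology

abbrev Sph := {x : Fin 3 → ℝ // ∑ j, x j ^ 2 = 1}

abbrev RP := Quot (fun x y : Sph => x.1 = y.1 ∨ x.1 = -y.1)

lemma descend {D Z : Type*} [TopologicalSpace D] [CompactSpace D] [TopologicalSpace Z]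
    (P : D → Sph) (hP : Continuous P) (hPs : Function.Surjective P) (B : D → Z)
    (hB : Continuous B)
    (h : ∀ ξ η, (P ξ).1 = (P η).1 ∨ (P ξ).1 = -(P η).1 → B ξ = B η) :
    ∃ b : RP → Z, Continuous b ∧ ∀ ξ, b (Quot.mk _ (P ξ)) = B ξ := by
  let b0 : Sph → Z := fun x => B (Function.surjInv hPs x)
  have hb0 : ∀ ξ, b0 (P ξ) = B ξ := fun ξ =>
    h _ _ (Or.inl (congrArg Subtype.val (Function.surjInv_eq hPs (P ξ))))
  have hq := IsQuotientMap.of_surjective_continuous hPs hP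
  have hc : Continuous b0 := by
    rw [hq.continuous_iff]
    convert hB using 1
    exact funext hb0
  refine ⟨Quot.lift b0 ?_, continuous_quot_lift _ hc, hb0⟩
  intro x y hxy
  obtain ⟨ξ, rfl⟩ := hPs x
  obtain ⟨η, rfl⟩ := hPs y
  rw [hb0, hb0, h ξ η hxy]

lemma dot_self (x : Fin 3 → ℝ) : dot x x = ∑ j, x j ^ 2 := by
  rw [Fin.sum_univ_three]; unfold dot; ring

lemma dot_self_pos {x : Fin 3 → ℝ} (hx : x ≠ 0) : 0 < dot x x := by
  by_contra h
  apply hx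
  unfold dot at h
  ext i
  fin_cases i <;> simp <;> nlinarith [mul_self_nonneg (x 0), mul_self_nonneg (x 1),
    mul_self_nonneg (x 2)]

lemma dot_smul (c : ℝ) (x : Fin 3 → ℝ) : dot (c • x) (c • x) = c ^ 2 * dot x x := by
  simp [dot]; ring

lemma sym_smul (c : ℝ) (x : Fin 3 → ℝ) : sym (c • x) (c • x) = c ^ 2 • sym x x := by
  ext i; fin_cases i <;> simp [sym] <;> ring

noncomputable def nrm (x : Fin 3 → ℝ) : Fin 3 → ℝ := (√(dot x x))⁻¹ • x

lemma nrm_sq {x : Fin 3 → ℝ} (hx : x ≠ 0) : ∑ j, nrm x j ^ 2 = 1 := by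
  have h := dot_self_pos hx
  rw [← dot_self, nrm, dot_smul, inv_pow, sq_sqrt h.le, inv_mul_cancel₀ h.ne']

lemma nrm_neg (x : Fin 3 → ℝ) : nrm (-x) = -nrm x := by
  unfold nrm
  rw [show dot (-x) (-x) = dot x x by simp [dot], smul_neg]

lemma nrm_smul {x : Fin 3 → ℝ} (hx : dot x x = 1) {l : ℝ} (hl : 0 < l) : nrm (l • x) = x := by
  unfold nrm
  rw [dot_smul, hx, mul_one, sqrt_sq hl.le, smul_smul, inv_mul_cancel₀ hl.ne', one_smul]

lemma exists_of_nrm_eq {x y : Fin 3 → ℝ} (hx : x ≠ 0) (hy : y ≠ 0) (h : nrm x = nrm y) :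
    ∃ l : ℝ, 0 < l ∧ x = l • y := by
  have h1 := sqrt_pos.2 (dot_self_pos hx)
  have h2 := sqrt_pos.2 (dot_self_pos hy)
  refine ⟨√(dot x x) * (√(dot y y))⁻¹, by positivity, ?_⟩
  unfold nrm at h
  rw [mul_smul, ← h, smul_smul, mul_inv_cancel₀ h1.ne', one_smul]

variable {u : Fin 4 → Fin 6 → ℝ}

noncomputable def Xi (M : Model u) (p : V) : Fin 4 → ℝ := (M.τ p)⁻¹ • M.Λ p

lemma tau_pos (M : Model u) {y : Fin 3 → ℝ} (hy : y ≠ 0) : 0 < M.τ (G y) := by
  rw [← M.hτ]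
  exact dot_self_pos fun h => hy (M.inj (by rw [h, map_zero]))

lemma proj_nrm (M : Model u) {y : Fin 3 → ℝ} (hy : y ≠ 0) :
    proj u (sym (nrm (M.Nl y)) (nrm (M.Nl y))) = Xi M (G y) := by
  have h := tau_pos M hy
  rw [nrm, sym_smul, map_smul, M.hΛ, M.hτ, inv_pow, sq_sqrt h.le, Xi]

lemma exists_delta (M : Model u) {ε : ℝ} (hε : 0 < ε) :
    ∃ δ : ℝ, 0 < δ ∧ ∀ y : Fin 3 → ℝ, ‖y‖ ≤ 1 → 1 / 4 ≤ dot y y → ∀ v : V, ‖v - G y‖ ≤ δ →
      0 < M.τ v ∧ ‖Xi M v - Xi M (G y)‖ ≤ ε := by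
  have hG : Continuous G := by
    unfold G
    apply continuous_pi
    intro i
    fin_cases i <;> simp <;> fun_prop
  have hτ : Continuous M.τ := M.τ.continuous_of_finiteDimensional
  have hΛ : Continuous M.Λ := M.Λ.continuous_of_finiteDimensional
  have hY : IsCompact (Metric.closedBall (0 : Fin 3 → ℝ) 1 ∩ {y | 1 / 4 ≤ dot y y}) :=
    (isCompact_closedBall _ _).inter_right
      (isClosed_le continuous_const (by unfold dot; fun_prop))
  have hC := hY.image hG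
  obtain ⟨δ1, hδ1, hsub⟩ := hC.exists_cthickening_subset_open (t := {p | 0 < M.τ p})
    (isOpen_lt continuous_const hτ) (by
      rintro _ ⟨y, ⟨_, hy⟩, rfl⟩
      refine tau_pos M fun h => ?_
      rw [h] at hy
      simp [dot] at hy
      linarith)
  have hcont : ContinuousOn (Xi M) (Metric.cthickening δ1
      (G '' (Metric.closedBall (0 : Fin 3 → ℝ) 1 ∩ {y | 1 / 4 ≤ dot y y}))) :=
    (hτ.continuousOn.inv₀ fun p hp => (hsub hp).ne').smul hΛ.continuousOn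
  obtain ⟨δ2, hδ2, huc⟩ := Metric.uniformContinuousOn_iff_le.1
    (hC.cthickening.uniformContinuousOn_of_continuous hcont) ε hε
  refine ⟨min δ1 δ2, lt_min hδ1 hδ2, fun y h1 h2 v hv => ?_⟩
  have hm : G y ∈ G '' (Metric.closedBall (0 : Fin 3 → ℝ) 1 ∩ {y | 1 / 4 ≤ dot y y}) :=
    ⟨y, ⟨by simpa using h1, h2⟩, rfl⟩
  have hv1 := Metric.mem_cthickening_of_dist_le v (G y) δ1 _ hm
    (by rw [dist_eq_norm]; exact hv.trans (min_le_left _ _))
  refine ⟨hsub hv1, ?_⟩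
  rw [← dist_eq_norm]
  exact huc v hv1 (G y) (Metric.self_subset_cthickening _ hm)
    (by rw [dist_eq_norm]; exact hv.trans (min_le_right _ _))

lemma exists_params {δ : ℝ} (hδ : 0 < δ) : ∃ R k k' : ℤ, 0 < R ∧ k = 4 * k' ∧ 2 ≤ k' ∧
    Good R (hh k) ∧ 4 / (R : ℝ) + 8 * hh k ≤ δ := by
  obtain ⟨n, hn⟩ := exists_nat_gt (8 / δ)
  have hR : (3 : ℤ) ≤ n + 3 := by omega
  have h1 : 4 / (((n + 3 : ℤ)) : ℝ) ≤ δ / 2 := by
    rw [div_lt_iff₀ hδ] at hn
    rw [div_le_iff₀ (by positivity)]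
    push_cast; nlinarith
  have ht : Tendsto (fun j : ℕ => hh (4 * ((j : ℤ) + 2))) atTop (𝓝[>] 0) := by
    apply tendsto_nhdsWithin_iff.2 ⟨?_, Eventually.of_forall fun j => hh_pos (by omega)⟩
    unfold hh
    apply Tendsto.div_atTop tendsto_const_nhds
    push_cast
    exact (tendsto_atTop_add_const_right _ _ tendsto_natCast_atTop_atTop).const_mul_atTop
      (by norm_num)
  have e1 := ht.eventually (eventually_good hR)
  have e2 := ht.eventually (Ioo_mem_nhdsGT (show (0 : ℝ) < δ / 16 by positivity))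
  obtain ⟨j, j1, j2⟩ := (e1.and e2).exists
  exact ⟨n + 3, 4 * (j + 2), j + 2, by omega, rfl, by omega, j1, by linarith [j2.2]⟩

lemma yv_bounds {R k : ℤ} (hR : 0 < R) (hk : 8 ≤ k) {s : ℝ} (t : ℝ) (h1 : 0 ≤ s)
    (h2 : s ≤ NN R k) : ‖yv R k s t‖ ≤ 1 ∧ 1 / 4 ≤ dot (yv R k s t) (yv R k s t) := by
  obtain ⟨b1, b2⟩ := rr_range hR h1 h2
  constructor
  · rw [pi_norm_le_iff_of_nonneg zero_le_one]
    intro i
    fin_cases i
    · simpa [yv, abs_mul, abs_of_nonneg b1] using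
        mul_le_one₀ b2 (abs_nonneg _) (abs_cos_le_one (ang R k (cl R k s) t))
    · simpa [yv, abs_mul, abs_of_nonneg b1] using
        mul_le_one₀ b2 (abs_nonneg _) (abs_sin_le_one (ang R k (cl R k s) t))
    · simpa [yv] using (abs_zz_le (R := R) (by omega : 4 ≤ k) s).trans (cos_le_one _)
  · rw [dot_self, Fin.sum_univ_three, yv_sq, yv_two]
    rcases can_boundary hR hk s with c | c
    · rw [c]; nlinarith [sq_nonneg (zz R k s)]
    · rw [← sq_abs (zz R k s), c]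
      nlinarith [z0_pos hk, sq_nonneg (rr R k s)]

theorem step (M : Model u) {ε : ℝ} (hε : 0 < ε) :
    ∃ g : RP → (Fin 4 → ℝ), (Continuous g ∧
        (∃ (m : ℕ) (K : Geometry.SimplicialComplex ℝ (Fin m → ℝ)) (h : K.space ≃ₜ RP),
          K.faces.Finite ∧
          ∀ s ∈ K.faces, ∃ A : (Fin m → ℝ) →ᵃ[ℝ] (Fin 4 → ℝ),
            ∀ (y : Fin m → ℝ) (hy : y ∈ K.space),
              y ∈ convexHull ℝ (s : Set (Fin m → ℝ)) → g (h ⟨y, hy⟩) = A y) ∧
        (∀ p, ∃ U ∈ nhds p, Set.InjOn g U) ∧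
        (∀ (a : Fin 4 → ℝ) (c : ℝ), IsPreconnected (g ⁻¹' {z | ∑ i, a i * z i ≤ c}))) ∧
      ∀ x : Sph, ‖g (Quot.mk _ x) - proj u (sym x.1 x.1)‖ ≤ ε := by
  obtain ⟨δ, hδ, hΞ⟩ := exists_delta M hε
  obtain ⟨R, k, k', hR, hkk, hk', hG, hsmall⟩ := exists_params hδ
  have hk : 8 ≤ k := by omega
  have hN : NN R k = 2 * R + k - 4 := rfl
  have hp := hh_pos (by omega : 0 < k)
  have hRr : (0 : ℝ) < R := by exact_mod_cast hR
  have hτQ : ∀ w, 0 < M.τ (Q R k w) := by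
    have hpole : 0 < M.τ pole := by
      have : G ![0, 0, 1] = pole := by
        ext i; fin_cases i <;> simp [G, pole]
      rw [← this]
      refine tau_pos M fun h => ?_
      simpa using congrFun h 2
    rintro ⟨a, m⟩
    by_cases h1 : a ≤ 0
    · rw [Q_pole hR h1]; exact hpole
    by_cases h2 : NN R k ≤ a
    · rw [Q_pole' hR (by omega) h2]; exact hpole
    obtain ⟨b1, b2⟩ := yv_bounds hR hk (s := a) m (by exact_mod_cast (by omega))
      (by exact_mod_cast (by omega))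
    refine (hΞ _ b1 b2 _ ((vertex_approx hR hk (by omega) (by omega) m).trans ?_)).1
    have : 0 < 4 / (R : ℝ) := by positivity
    linarith
  obtain ⟨m, ι, ρ, hρ⟩ := exists_index hR (by omega : 4 ≤ k)
  let κ : V → ℝ := fun v => (M.τ v)⁻¹
  have hκ : ∀ w, 0 < κ (Q R k w) := fun w => inv_pos.2 (hτQ w)
  let A' : (Fin m → ℝ) →ₗ[ℝ] V := (Pi.basisFun ℝ (Fin m)).constr ℝ (fun j => κ (ρ j) • ρ j)
  have hA' : ∀ w, A' (dl (ι (Q R k w))) = κ (Q R k w) • Q R k w := by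
    intro w
    have := (Pi.basisFun ℝ (Fin m)).constr_basis ℝ (fun j => κ (ρ j) • ρ j) (ι (Q R k w))
    rw [Pi.basisFun_apply, hρ] at this
    exact this
  let A : (Fin m → ℝ) →ₗ[ℝ] (Fin 4 → ℝ) := M.Λ ∘ₗ A'
  have hA : ∀ w, A (dl (ι (Q R k w))) = Xi M (Q R k w) := by
    intro w
    show M.Λ (A' _) = _
    rw [hA', map_smul]; rfl
  let B : ℝ → ℝ → (Fin m → ℝ) := J R k (fun v => dl (ι v))
  have hA'B : ∀ s t, A' (B s t) = J R k (fun v => κ v • v) s t := fun s t => by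
    rw [map_J]; exact J_congr hR _ _ hA' s t
  have hAB : ∀ s t, A (B s t) = J R k (Xi M) s t := fun s t => by
    rw [map_J]; exact J_congr hR _ _ hA s t
  have hτB : ∀ s t, M.τ (A' (B s t)) = 1 := fun s t => by
    rw [hA'B, map_J, ← J_one (R := R) (k := k) s t]
    apply J_congr hR
    intro w
    rw [map_smul, smul_eq_mul]
    exact inv_mul_cancel₀ (hτQ w).ne'
  let T : Set (Fin m × Fin m × Fin m) := (fun t : V × V × V => (ι t.1, ι t.2.1, ι t.2.2)) '' Tri R k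
  obtain ⟨K, hKfin, hK⟩ := exists_complex T
  -- the compact parameter domain
  let D := Set.Icc (0 : ℝ) (NN R k) × Set.Icc (0 : ℝ) k
  have hNl : ∀ s t, M.Nl (yv R k s t) ≠ 0 := fun s t h =>
    yv_ne_zero hR hk s t (M.inj (by rw [h, map_zero]))
  let P : D → Sph := fun ξ => ⟨nrm (M.Nl (yv R k ξ.1 ξ.2)), nrm_sq (hNl _ _)⟩
  have hDc : Continuous (fun ξ : D => ((ξ.1 : ℝ), (ξ.2 : ℝ))) :=
    (continuous_subtype_val.comp continuous_fst).prodMk (continuous_subtype_val.comp continuous_snd)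
  have hcy : Continuous (fun ξ : D => M.Nl (yv R k ξ.1 ξ.2)) :=
    M.Nl.continuous_of_finiteDimensional.comp
      (continuous_yv.comp (f := fun ξ : D => ((ξ.1 : ℝ), (ξ.2 : ℝ))) hDc)
  have hP : Continuous P := by
    apply Continuous.subtype_mk
    unfold nrm
    refine Continuous.smul (Continuous.inv₀ ?_ fun ξ => (sqrt_pos.2 (dot_self_pos (hNl _ _))).ne')
      hcy
    unfold dot
    fun_prop
  have hPs : Function.Surjective P := by
    rintro ⟨x, hx⟩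
    obtain ⟨y, rfl⟩ := LinearMap.injective_iff_surjective.1 M.inj x
    have hy : y ≠ 0 := by
      rintro rfl
      simp at hx
    obtain ⟨l, s, t, hl, s1, s2, t1, t2, e⟩ := yv_surj hR hk y hy
    refine ⟨(⟨s, s1, s2⟩, ⟨t, t1, t2⟩), Subtype.ext ?_⟩
    show nrm (M.Nl (yv R k s t)) = M.Nl y
    rw [e, map_smul, nrm_smul (by rw [dot_self, hx]) hl]
  have hBc : Continuous (fun ξ : D => B ξ.1 ξ.2) :=
    (continuous_J (fun v => dl (ι v))).comp (f := fun ξ : D => ((ξ.1 : ℝ), (ξ.2 : ℝ))) hDc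
  have hsame : ∀ s t s' t' : ℝ, 0 ≤ s → s ≤ NN R k → 0 ≤ s' → s' ≤ NN R k →
      nrm (M.Nl (yv R k s t)) = nrm (M.Nl (yv R k s' t')) → B s t = B s' t' := by
    intro s t s' t' h1 h2 h1' h2' h
    obtain ⟨l, hl, e⟩ := exists_of_nrm_eq (hNl _ _) (hNl _ _) h
    rw [← map_smul] at e
    have e2 := M.inj e
    rw [yv_scale hR hk h1 h2 h1' h2' hl e2, one_smul] at e2
    exact J_eq_of_yv_eq hR hk _ h1 h2 h1' h2' e2
  obtain ⟨b, hbc, hb⟩ := descend P hP hPs (fun ξ : D => B ξ.1 ξ.2) hBc (by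
    rintro ⟨⟨s, s1, s2⟩, ⟨t, _⟩⟩ ⟨⟨s', s1', s2'⟩, ⟨t', _⟩⟩ (h | h)
    · exact hsame s t s' t' s1 s2 s1' s2' h
    · have h' : nrm (M.Nl (yv R k s t)) = -nrm (M.Nl (yv R k s' t')) := h
      rw [← nrm_neg, ← map_neg, ← yv_glide hR (by omega)] at h'
      exact (hsame _ _ _ _ s1 s2 (by linarith) (by linarith) h').trans
        (J_glide hR (by omega) _ s' t'))
  have hsurjRP : ∀ x : RP, ∃ ξ : D, Quot.mk _ (P ξ) = x := by
    intro x
    obtain ⟨x, rfl⟩ := Quot.mk_surjective x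
    obtain ⟨ξ, rfl⟩ := hPs x
    exact ⟨ξ, rfl⟩
  have hginj : Function.Injective (fun x => A (b x)) := by
    intro x y hxy
    obtain ⟨⟨⟨s, s1, s2⟩, ⟨t, t1⟩⟩, rfl⟩ := hsurjRP x
    obtain ⟨⟨⟨s', s1', s2'⟩, ⟨t', t1'⟩⟩, rfl⟩ := hsurjRP y
    simp only [hb] at hxy
    have e : A' (B s t) = A' (B s' t') := by
      rw [← sub_eq_zero]
      apply M.ker
      · rw [map_sub, sub_eq_zero]; exact hxy
      · rw [map_sub, hτB, hτB, sub_self]
    rw [hA'B, hA'B] at e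
    apply Quot.sound
    rcases inj_J hR hk hG κ hκ s1 s2 s1' s2' e with h | h
    · left
      show nrm (M.Nl (yv R k s t)) = nrm (M.Nl (yv R k s' t'))
      rw [h]
    · right
      show nrm (M.Nl (yv R k s t)) = -nrm (M.Nl (yv R k s' t'))
      rw [h, map_neg, nrm_neg]
  have hbmem : ∀ x, b x ∈ K.space := by
    intro x
    obtain ⟨⟨⟨s, s1, s2⟩, ⟨t, t1⟩⟩, rfl⟩ := hsurjRP x
    rw [hb, hK]
    obtain ⟨T0, hT0, hm⟩ := J_mem_tri hR hk (fun v => dl (ι v)) t s1 s2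
    exact ⟨_, ⟨T0, hT0, rfl⟩, hm⟩
  have hbsurj : ∀ y ∈ triSet T, ∃ x, b x = y := by
    rintro y ⟨_, ⟨T0, hT0, rfl⟩, hy⟩
    obtain ⟨s, t, s1, s2, t1, t2, e⟩ := tri_subset_J hR hk (fun v => dl (ι v)) hT0 hy
    exact ⟨Quot.mk _ (P (⟨s, s1, s2⟩, ⟨t, t1, t2⟩)), (hb _).trans e⟩
  have hbinj : Function.Injective b := fun x y h => hginj (congrArg A h)
  have : CompactSpace RP := by
    constructor
    have : IsCompact (Set.range (fun ξ : D => (Quot.mk _ (P ξ) : RP))) :=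
      isCompact_range (continuous_quot_mk.comp hP)
    rwa [Set.range_eq_univ.2 hsurjRP] at this
  let eqv : RP ≃ K.space := Equiv.ofBijective (fun x => ⟨b x, hbmem x⟩)
    ⟨fun x y h => hbinj (congrArg Subtype.val h), fun y => by
      obtain ⟨x, hx⟩ := hbsurj y.1 (hK ▸ y.2)
      exact ⟨x, Subtype.ext hx⟩⟩
  have heqv : Continuous eqv := hbc.subtype_mk _
  let H : RP ≃ₜ K.space := heqv.homeoOfEquivCompactToT2
  refine ⟨fun x => A (b x), ⟨A.continuous_of_finiteDimensional.comp hbc,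
    ⟨m, K, H.symm, hKfin, fun s _ => ⟨A.toAffineMap, fun y hy _ => ?_⟩⟩,
    fun p => ⟨Set.univ, univ_mem, hginj.injOn⟩, ?_⟩, ?_⟩
  · have := congrArg Subtype.val (H.apply_symm_apply ⟨y, hy⟩)
    exact congrArg A this
  · intro a c
    let φ : (Fin 4 → ℝ) →ₗ[ℝ] ℝ :=
      { toFun := fun z => ∑ i, a i * z i
        map_add' := fun p q => by simp [mul_add, Finset.sum_add_distrib]
        map_smul' := fun c p => by
          simp only [Pi.smul_apply, smul_eq_mul, RingHom.id_apply, Finset.mul_sum]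
          apply Finset.sum_congr rfl; intro k _; ring }
    have hused : ∀ j, (∃ t ∈ T, mem3 j t) → ∃ a m : ℤ, 0 ≤ a ∧ a ≤ NN R k ∧
        j = ι (Q R k (a, m)) := by
      rintro j ⟨_, ⟨_, ⟨a, m, h1, h2, rfl⟩, rfl⟩, h | h | h⟩
      · exact ⟨a + 1, m + 1, by omega, by omega, h⟩
      · exact ⟨a + 1, m, by omega, by omega, h⟩
      · exact ⟨a, m + 1, by omega, by omega, h⟩
    have hT := tpp T A ?_ ?_ φ c
    · have hind : IsInducing b := IsInducing.subtypeVal.comp H.isInducing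
      rw [← hind.isPreconnected_image]
      convert hT using 1
      ext y
      constructor
      · rintro ⟨x, hx, rfl⟩
        exact ⟨hK ▸ hbmem x, hx⟩
      · rintro ⟨hy1, hy2⟩
        obtain ⟨x, rfl⟩ := hbsurj y hy1
        exact ⟨x, hy2, rfl⟩
    · rintro i j ⟨t, ht, hi⟩ ⟨t', ht', hj⟩ h
      obtain ⟨x, hx⟩ := hbsurj (dl i) ⟨t, ht, dl_mem_tri hi⟩
      obtain ⟨y, hy⟩ := hbsurj (dl j) ⟨t', ht', dl_mem_tri hj⟩
      have e : x = y := hginj (by simp only [hx, hy, h])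
      rw [e, hy] at hx
      by_contra hne
      have := congrFun hx i
      simp [dl, hne] at this
    · intro ψ v hv hn w hw
      obtain ⟨a, n, a1, a2, rfl⟩ := hused v hv
      obtain ⟨a', n', _, _, rfl⟩ := hused w hw
      obtain ⟨Hv, hHv⟩ : ∃ Hv, Hv = ψ (A (dl (ι (Q R k (a, n))))) := ⟨_, rfl⟩
      let lam : V →ₗ[ℝ] ℝ := ψ ∘ₗ M.Λ - Hv • M.τ
      have hlam : ∀ w, lam (Q R k w) = M.τ (Q R k w) * (ψ (A (dl (ι (Q R k w)))) - Hv) := by
        intro w
        rw [hA, Xi, map_smul, smul_eq_mul]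
        have := (hτQ w).ne'
        show ψ (M.Λ _) - Hv * M.τ _ = _
        field_simp
      have key := locmin' hR hkk hk' hG lam n a1 a2 (by rw [hlam, hHv, sub_self, mul_zero]) (by
        rintro y ⟨t, ht, m1, m2⟩ hne
        obtain ⟨w, rfl⟩ : ∃ w, y = Q R k w := by
          obtain ⟨a, m, _, _, rfl⟩ := ht
          rcases m2 with h | h | h <;> exact ⟨_, h⟩
        rw [hlam, hHv]
        refine mul_pos (hτQ w) (sub_pos.2 (hn _ ⟨_, ⟨t, ht, rfl⟩, ?_, ?_⟩ ?_))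
        · rcases m1 with h | h | h
          · exact Or.inl (congrArg ι h)
          · exact Or.inr (Or.inl (congrArg ι h))
          · exact Or.inr (Or.inr (congrArg ι h))
        · rcases m2 with h | h | h
          · exact Or.inl (congrArg ι h)
          · exact Or.inr (Or.inl (congrArg ι h))
          · exact Or.inr (Or.inr (congrArg ι h))
        · intro h
          apply hne
          rw [← hρ w, h, hρ]) (a', n')
      rw [hlam] at key
      have := (mul_nonneg_iff_of_pos_left (hτQ (a', n'))).1 key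
      linarith
  · intro x
    obtain ⟨⟨⟨s, s1, s2⟩, ⟨t, t1⟩⟩, rfl⟩ := hPs x
    show ‖A (b _) - proj u (sym (nrm (M.Nl (yv R k s t))) (nrm (M.Nl (yv R k s t))))‖ ≤ ε
    rw [hb, proj_nrm M (yv_ne_zero hR hk s t)]
    show ‖A (B s t) - _‖ ≤ ε
    rw [hAB]
    obtain ⟨b1, b2⟩ := yv_bounds hR hk t s1 s2
    exact J_approx hR hk _ t s1 s2 _ _ fun v hv => (hΞ _ b1 b2 v (hv.trans hsmall)).2

end Pool.Agent.Lib.MP_c8c16f_gt
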